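import Pool.Agent.D0H72.AP.Dec

/-! Interpolation of circle homeomorphisms, and the smoothing near a point -/

set_option autoImplicit false

open Set Filter Topology Metric Function

noncomputable section

namespace Pool.Agent.D0H72.AP

open Pool.Agent.Helper984_CP

/-- a norm preserving continuous bijection is a homeomorphism -/
theorem homeo_of_norm {G : ℂ → ℂ} (hc : Continuous G) (hb : Bijective G)
    (hn : ∀ z, ‖G z‖ = ‖z‖) : ∃ h : ℂ ≃ₜ ℂ, ∀ z, h z = G z := by
  have hp : IsProperMap G := by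
    rw [isProperMap_iff_tendsto_cocompact]
    refine ⟨hc, ?_⟩
    rw [← Metric.cobounded_eq_cocompact, ← tendsto_norm_atTop_iff_cobounded]
    simp only [hn]
    rw [tendsto_norm_atTop_iff_cobounded]
    exact tendsto_id
  exact ⟨(Equiv.ofBijective G hb).toHomeomorphOfContinuousClosed hc hp.isClosedMap, fun z => rfl⟩

/-- the cutoff -/
def cs (η : ℝ) (r : ℝ) : ℝ := max 0 (min 1 ((r - (1 - η)) / η))

theorem cs_nonneg (η r : ℝ) : 0 ≤ cs η r := le_max_left _ _
theorem cs_le (η r : ℝ) : cs η r ≤ 1 := max_le zero_le_one (min_le_left _ _)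
theorem cs_one {η r : ℝ} (h : 0 < η) (hr : 1 ≤ r) : cs η r = 1 := by
  have : 1 ≤ (r - (1 - η)) / η := by
    rw [le_div_iff₀ h]
    linarith
  rw [cs, min_eq_left this, max_eq_right zero_le_one]
theorem cs_zero {η r : ℝ} (h : 0 < η) (hr : r ≤ 1 - η) : cs η r = 0 := by
  have : (r - (1 - η)) / η ≤ 0 := div_nonpos_of_nonpos_of_nonneg (by linarith) h.le
  rw [cs, min_eq_right (by linarith), max_eq_left this]
theorem cs_cont (η : ℝ) : Continuous (cs η) := by
  unfold cs
  fun_prop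

/-- the convex combination of a circle lift with the identity -/
def cv (α : ℝ → ℝ) (s x : ℝ) : ℝ := (1 - s) * x + s * α x

theorem cv_per {α : ℝ → ℝ} (hp : ∀ x, α (x + 1) = α x + 1) (s x : ℝ) :
    cv α s (x + 1) = cv α s x + 1 := by
  simp only [cv, hp]
  ring

theorem cv_mono {α : ℝ → ℝ} (hm : StrictMono α) {s : ℝ} (h0 : 0 ≤ s) (h1 : s ≤ 1) :
    StrictMono (cv α s) := by
  intro x y hxy
  have h2 := hm hxy
  simp only [cv]
  rcases h0.lt_or_eq with h | h
  · have e1 : (1 - s) * x ≤ (1 - s) * y := mul_le_mul_of_nonneg_left hxy.le (by linarith)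
    have e2 : s * α x < s * α y := mul_lt_mul_of_pos_left h2 h
    linarith
  · rw [← h]
    simpa using hxy

/-- the interpolation -/
theorem interp {α : ℝ → ℝ} (hc : Continuous α) (hm : StrictMono α)
    (hp : ∀ x, α (x + 1) = α x + 1) {η : ℝ} (h0 : 0 < η) :
    ∃ G : ℂ ≃ₜ ℂ, (∀ z, ‖G z‖ = ‖z‖) ∧ (∀ z, 1 ≤ ‖z‖ → G z = cone α z) ∧
      (∀ z, ‖z‖ ≤ 1 - η → G z = z) ∧
      ∀ w : ℂ, α (w.im / (2 * Real.pi)) = w.im / (2 * Real.pi) →
        G (Complex.exp w) = Complex.exp w := by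
  have hcv : Continuous (fun q : ℝ × ℝ => cv α q.1 q.2) := by
    unfold cv
    fun_prop
  have hfam := continuous_cone_family (Λ := ℝ) (α := fun q => cv α q.1 q.2) hcv
    (fun s x => cv_per hp s x)
  have hG : Continuous (fun z : ℂ => cone (cv α (cs η ‖z‖)) z) := by
    have h1 : Continuous (fun z : ℂ => (cs η ‖z‖, z)) :=
      ((cs_cont η).comp continuous_norm).prodMk continuous_id
    exact hfam.comp h1
  have hhom : ∀ s, 0 ≤ s → s ≤ 1 → ∃ fi : C(ℂ, ℂ), (∀ x, cone (cv α s) (fi x) = x) ∧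
      ∀ x, fi (cone (cv α s) x) = x := fun s h1 h2 =>
    cone_homeo (hcv.comp (by fun_prop : Continuous fun x : ℝ => (s, x))) (cv_mono hm h1 h2)
      (cv_per hp s)
  have hbij : Bijective (fun z : ℂ => cone (cv α (cs η ‖z‖)) z) := by
    constructor
    · intro z w h
      simp only at h
      have h1 : ‖z‖ = ‖w‖ := by
        have := congrArg norm h
        rwa [norm_cone, norm_cone] at this
      rw [h1] at h
      obtain ⟨fi, -, h3⟩ := hhom _ (cs_nonneg η ‖w‖) (cs_le η ‖w‖)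
      rw [← h3 z, h, h3]
    · intro w
      obtain ⟨fi, h2, -⟩ := hhom _ (cs_nonneg η ‖w‖) (cs_le η ‖w‖)
      refine ⟨fi w, ?_⟩
      have h3 : ‖fi w‖ = ‖w‖ := by
        have := congrArg norm (h2 w)
        rwa [norm_cone] at this
      simp only
      rw [h3, h2]
  obtain ⟨G, hGe⟩ := homeo_of_norm hG hbij (fun z => norm_cone _ _)
  refine ⟨G, fun z => by rw [hGe, norm_cone], fun z hz => ?_, fun z hz => ?_, fun w hw => ?_⟩
  · rw [hGe, cs_one h0 hz]
    congr 1
    funext x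
    simp [cv]
  · rw [hGe, cs_zero h0 hz]
    have : cv α 0 = fun x => x := by
      funext x
      simp [cv]
    rw [this]
    exact cone_id z
  · rw [hGe, cone_exp (cv_per hp _)]
    congr 1
    apply Complex.ext
    · rw [circM_re]
    · rw [circM_im, cv, hw]
      have := two_pi_ne
      field_simp
      ring

/-- smoothing near the centre of the unit disc -/
theorem smooth0_unit {f : ℂ ≃ₜ ℂ} (hf : OP f) {η : ℝ} (h0 : 0 < η) :
    ∃ v : ℂ ≃ₜ ℂ, (∀ z, 1 ≤ ‖z‖ → v z = z) ∧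
      DifferentiableOn ℂ (fun z => f (v z)) (ball 0 (1 - η)) := by
  obtain ⟨Φ, Q, α, h1, h2, h3, h4, h5, h6, h7, h8⟩ := dec hf
  obtain ⟨G, g1, g2, g3, g4⟩ := interp h4 h5 h6 h0
  refine ⟨G.trans Q.symm, fun z hz => ?_, ?_⟩
  · rw [Homeomorph.trans_apply, g2 z hz, ← h7 z hz, Q.symm_apply_apply]
  · have hsub : ball (0 : ℂ) (1 - η) ⊆ ball 0 1 := ball_subset_ball (by linarith)
    refine (h2.mono hsub).congr ?_
    intro z hz
    rw [mem_ball_zero_iff] at hz
    rw [h1, Homeomorph.trans_apply, Q.apply_symm_apply, g3 z hz.le]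

/-- smoothing near a point -/
theorem smooth0 {f : ℂ ≃ₜ ℂ} (hf : OP f) (c : ℂ) {ρ ρ' : ℝ} (h0 : 0 < ρ) (h1 : ρ' < ρ) :
    ∃ v : ℂ ≃ₜ ℂ, (∀ z, ρ ≤ ‖z - c‖ → v z = z) ∧
      DifferentiableOn ℂ (fun z => f (v z)) (ball c ρ') := by
  have hρ : (ρ : ℂ) ≠ 0 := by exact_mod_cast h0.ne'
  obtain ⟨v, v1, v2⟩ := smooth0_unit (hf.comp (OP.aff ρ c hρ)) (η := 1 - ρ' / ρ) (by
    rw [sub_pos, div_lt_one h0]
    exact h1)
  refine ⟨(aff ρ c hρ).symm.trans (v.trans (aff ρ c hρ)), fun z hz => ?_, ?_⟩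
  · simp only [Homeomorph.trans_apply, aff_apply, aff_symm_apply]
    rw [v1]
    · field_simp
      ring
    · rw [norm_div, Complex.norm_real, Real.norm_of_nonneg h0.le, le_div_iff₀ h0, one_mul]
      exact hz
  · have e : (fun z => f (((aff ρ c hρ).symm.trans (v.trans (aff ρ c hρ))) z)) =
        (fun z => ((aff ρ c hρ).trans f) (v z)) ∘ (fun z => (z - c) / ρ) := by
      funext z
      simp only [Homeomorph.trans_apply, aff_apply, aff_symm_apply, Function.comp_apply]
    rw [e]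
    refine v2.comp ?_ ?_
    · exact ((differentiable_id.sub_const c).div_const _).differentiableOn
    · intro z hz
      rw [mem_ball, dist_eq_norm] at hz
      rw [mem_ball_zero_iff, norm_div, Complex.norm_real, Real.norm_of_nonneg h0.le,
        sub_sub_cancel]
      gcongr

end Pool.Agent.D0H72.AP
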