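import Pool.Agent.Helper984_CP.Kneser
import Pool.Agent.Helper984_CP.Engulf
import Pool.Agent.Helper984_CP.PushP
import Pool.Agent.Q175.MW.Exist

/-! Orientation preserving homeomorphisms, and the decomposition into a homeomorphism which is
conformal on the unit disc and a homeomorphism which preserves the unit disc -/

set_option autoImplicit false

open Set Filter Topology Metric Function

noncomputable section

namespace Pool.Agent.D0H72.AP

open Pool.Agent.Helper984_CP

/-- orientation preserving: the difference quotient has a continuous logarithm -/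
def OP (f : ℂ ≃ₜ ℂ) : Prop := ∃ ℓ : C(Conf, ℂ), LogDiff f ℓ

theorem OP.comp {f g : ℂ ≃ₜ ℂ} (hf : OP f) (hg : OP g) : OP (g.trans f) := by
  obtain ⟨ℓf, hf⟩ := hf
  obtain ⟨ℓg, hg⟩ := hg
  have h := LogDiff.comp (f := toC f) (g := toC g) hf hg
  exact ⟨_, h⟩

theorem OP.of_eq {f g h : ℂ ≃ₜ ℂ} (hf : OP f) (hg : OP g) (e : ∀ z, h z = f (g z)) : OP h := by
  have : h = g.trans f := by
    ext z
    exact e z
  rw [this]
  exact hf.comp hg

theorem OP.symm {f : ℂ ≃ₜ ℂ} (hf : OP f) : OP f.symm := by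
  obtain ⟨ℓf, hf⟩ := hf
  have h := LogDiff.inv (g := toC f) (gi := toC f.symm) hf (fun x => f.apply_symm_apply x)
    f.symm.injective
  exact ⟨_, h⟩

theorem OP.of_isoId {f : ℂ ≃ₜ ℂ} (hf : IsoId (toC f)) : OP f := hf.exists_logDiff

theorem OP.of_lift (F : Pool.Agent.Helper11.PlaneEuler.PlaneLift) : OP F.homeo := by
  have hne : ∀ a : Conf, (F.homeo a.1.2 - F.homeo a.1.1) / (a.1.2 - a.1.1) ≠ 0 := by
    intro a
    apply div_ne_zero
    · rw [sub_ne_zero]
      exact fun h => a.2 (F.homeo.injective h.symm)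
    · rw [sub_ne_zero]
      exact fun h => a.2 h.symm
  have hF := F.homeo.continuous
  refine ⟨⟨fun a => (Real.log ‖(F.homeo a.1.2 - F.homeo a.1.1) / (a.1.2 - a.1.1)‖ : ℝ) +
    (F.angle a : ℝ) * Complex.I, ?_⟩, fun a => ?_⟩
  · apply Continuous.add
    · apply Complex.continuous_ofReal.comp
      apply Continuous.log
      · apply Continuous.norm
        apply Continuous.div
        · fun_prop
        · fun_prop
        · intro a
          rw [sub_ne_zero]
          exact fun h => a.2 h.symm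
      · intro a
        exact norm_ne_zero_iff.2 (hne a)
    · fun_prop
  · have h1 := F.spec a
    simp only [ContinuousMap.coe_mk]
    rw [Complex.exp_add, ← Complex.ofReal_exp, Real.exp_log (norm_pos_iff.2 (hne a)), ← h1]
    have h2 : a.1.2 - a.1.1 ≠ 0 := by
      rw [sub_ne_zero]
      exact fun h => a.2 h.symm
    field_simp
    ring

theorem OP.of_bdd {g : ℂ ≃ₜ ℂ} {C : ℝ} (hC : ∀ z, ‖g z - z‖ ≤ C) : OP g := by
  obtain ⟨G, hG⟩ := Pool.Agent.Q175.MW.exists_lift_bdd g C hC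
  rw [← hG]
  exact OP.of_lift G

/-- affine homeomorphisms -/
def aff (c d : ℂ) (hc : c ≠ 0) : ℂ ≃ₜ ℂ where
  toFun z := c * z + d
  invFun z := (z - d) / c
  left_inv z := by field_simp; ring
  right_inv z := by field_simp; ring
  continuous_toFun := by fun_prop
  continuous_invFun := by fun_prop

@[simp] theorem aff_apply (c d : ℂ) (hc : c ≠ 0) (z : ℂ) : aff c d hc z = c * z + d := rfl

@[simp] theorem aff_symm_apply (c d : ℂ) (hc : c ≠ 0) (z : ℂ) :
    (aff c d hc).symm z = (z - d) / c := rfl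

theorem OP.aff (c d : ℂ) (hc : c ≠ 0) : OP (aff c d hc) :=
  OP.of_isoId (isoId_affine (c := c) (d := d) hc)

/-- the decomposition -/
theorem dec {f : ℂ ≃ₜ ℂ} (hf : OP f) : ∃ (Φ Q : ℂ ≃ₜ ℂ) (α : ℝ → ℝ), (∀ z, f z = Φ (Q z)) ∧
    DifferentiableOn ℂ Φ (ball 0 1) ∧ DifferentiableOn ℂ Φ.symm (f '' ball 0 1) ∧
    Continuous α ∧ StrictMono α ∧ (∀ x, α (x + 1) = α x + 1) ∧
    (∀ z, 1 ≤ ‖z‖ → Q z = cone α z) ∧ ∀ z, ‖z‖ < 1 → ‖Q z‖ < 1 := by
  obtain ⟨φ, ψ, c, F, Fi, Q, Qi, Φ, Φi, hR, hψ, hc, hder, hφ0, hF, hFi, r1, r2, hQ, hQi, q1, q2,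
    p1, p2, hd, hΦ, -⟩ := exists_straight (h := toC f) (hi := toC f.symm)
      (fun x => f.apply_symm_apply x) (fun x => f.symm_apply_apply x) (σ := False)
      (fun h => h.elim)
  have hd' : ∀ z, f z = Φ (Q z) := hd
  have hΦI : IsoId Φ := isoId_of_eq_chart hR (by
    rw [hder.deriv]
    exact_mod_cast hc.ne') ⟨Φi, p1, p2⟩ hΦ
  have hQ0 : Q 0 = 0 := by
    have h1 : Φ (Q 0) = Φ 0 := by
      rw [← hd', hΦ 0 (by simp), hφ0]
      rfl
    have := congrArg Φi h1
    rwa [p2, p2] at this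
  obtain ⟨ℓf, hℓf⟩ := hf
  obtain ⟨ℓΦ, hℓΦ⟩ := hΦI.exists_logDiff
  have hΦi := LogDiff.inv hℓΦ p1 (Function.LeftInverse.injective p1)
  have hℓQ := LogDiff.comp (f := Φi) (g := toC f) hΦi hℓf
  have eQ : Φi.comp (toC f) = Q := by
    ext z
    simp only [ContinuousMap.comp_apply, toC_apply]
    rw [hd', p2]
  rw [eQ] at hℓQ
  obtain ⟨M0, hM1, hM2, -⟩ := exists_lift hℓQ hQ0
  have hQe : slice (radialC F hF) 0 = Q := by
    ext z
    rw [slice_apply, radialC_apply, hQ]
    simp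
  have hpath := isHomeo_radial_path hF hFi r1 r2
  have hF0 : F 0 = 0 := by
    have h1 := hQ 0
    rw [hQ0, radial] at h1
    simpa using h1.symm
  obtain ⟨M, -, hM⟩ := lift_path (radialC F hF) (fun s w h => by
    have h1 : slice (radialC F hF) s (Complex.exp w) = slice (radialC F hF) s 0 := by
      rw [slice_apply, slice_apply, h, radialC_apply, radial, zero_div, hF0, mul_zero]
    exact Complex.exp_ne_zero w ((hpath s).injective h1)) (M0 := M0) (by
      rw [hQe]
      exact ⟨hM1, hM2⟩)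
  obtain ⟨α, hα1, hα2, hα3, hα4⟩ := exists_cone (radial_one_norm hF) (hpath 1).injective
    (radial_one_hom hF) (hM 1)
  refine ⟨⟨⟨Φ, Φi, p2, p1⟩, Φ.continuous, Φi.continuous⟩,
    ⟨⟨Q, Qi, q2, q1⟩, Q.continuous, Qi.continuous⟩, α, hd', ?_, ?_, hα1, hα2, hα3, ?_, ?_⟩
  · exact hR.diff.congr fun z hz => hΦ z (mem_ball_zero_iff.1 hz)
  · refine hψ.congr ?_
    intro w hw
    have h1 := hΦ (ψ w) (hR.mapsInv w hw)
    rw [hR.right w hw] at h1
    change Φi w = ψ w
    calc Φi w = Φi (Φ (ψ w)) := by rw [h1]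
      _ = ψ w := p2 _
  · intro z hz
    change Q z = cone α z
    rw [← hα4, hQ, slice_apply, radialC_apply]
    simp only [unitInterval.symm_one, Icc.coe_zero, radial]
    rw [max_eq_right hz, max_eq_right (norm_nonneg z)]
  · intro z hz
    change ‖Q z‖ < 1
    rw [hQ, radial, max_eq_left hz.le]
    simpa using hF.inner z hz

end Pool.Agent.D0H72.AP
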