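import Pool.Agent.D0H72.AP.Step2
import Pool.Agent.D0H72.AP.Dec

/-! The second step of the smoothing, in a convex cell -/

set_option autoImplicit false

open Set Filter Topology Metric Function
open scoped ContDiff

noncomputable section

namespace Pool.Agent.D0H72.AP

open Pool.Agent.Helper984_CP

theorem conf_chart {U : Set ℂ} (hc : Convex ℝ U) (ho : IsOpen U) (hne : U.Nonempty)
    (hb : Bornology.IsBounded U) : ∃ Φ : ℂ ≃ₜ ℂ, Φ '' ball 0 1 = U ∧
      DifferentiableOn ℂ Φ (ball 0 1) ∧ DifferentiableOn ℂ Φ.symm U := by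
  obtain ⟨e, he, -, -⟩ := exists_homeomorph_image_interior_closure_frontier_eq_unitBall hc
    (by rwa [ho.interior_eq]) hb
  rw [ho.interior_eq] at he
  have heU : toC e.symm '' ball 0 1 = U := by
    rw [← he]
    ext z
    simp [toC]
  obtain ⟨φ, ψ, c, F, Fi, Q, Qi, Φ, Φi, hR, hψ, hc, hder, hφ0, hF, hFi, r1, r2, hQ, hQi, q1, q2,
    p1, p2, hd, hΦ, -⟩ := exists_straight (h := toC e.symm) (hi := toC e)
      (fun x => e.symm_apply_apply x) (fun x => e.apply_symm_apply x) (σ := False)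
      (fun h => h.elim)
  rw [heU] at hR hψ
  have hΦU : Φ '' ball 0 1 = U := by
    apply Subset.antisymm
    · rintro _ ⟨z, hz, rfl⟩
      rw [hΦ z (mem_ball_zero_iff.1 hz)]
      exact hR.maps z (mem_ball_zero_iff.1 hz)
    · intro w hw
      refine ⟨ψ w, mem_ball_zero_iff.2 (hR.mapsInv w hw), ?_⟩
      rw [hΦ _ (hR.mapsInv w hw)]
      exact hR.right w hw
  refine ⟨⟨⟨Φ, Φi, p2, p1⟩, Φ.continuous, Φi.continuous⟩, hΦU, ?_, ?_⟩
  · exact hR.diff.congr fun z hz => hΦ z (mem_ball_zero_iff.1 hz)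
  · refine hψ.congr ?_
    intro w hw
    have h1 := hΦ (ψ w) (hR.mapsInv w hw)
    rw [hR.right w hw] at h1
    change Φi w = ψ w
    calc Φi w = Φi (Φ (ψ w)) := by rw [h1]
      _ = ψ w := p2 _

theorem smooth_cell {f : ℂ ≃ₜ ℂ} {U : Set ℂ} (hc : Convex ℝ U) (ho : IsOpen U)
    (hne : U.Nonempty) (hb : Bornology.IsBounded U) (hf : ∀ z ∈ frontier U, Good f z) :
    ∃ (v : ℂ ≃ₜ ℂ) (K : Set ℂ), IsClosed K ∧ K ⊆ U ∧ (∀ z, z ∉ K → v z = z) ∧
      ∀ z ∈ U, Good (fun w => f (v w)) z := by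
  obtain ⟨Φ, hΦU, hΦd, hΦs⟩ := conf_chart hc ho hne hb
  have hΦc : Φ '' closedBall 0 1 = closure U := by
    rw [← hΦU, ← closure_ball (0 : ℂ) one_ne_zero, Φ.image_closure]
  have hΦs' : Φ '' sphere 0 1 = frontier U := by
    rw [← hΦU, ← frontier_ball (0 : ℂ) one_ne_zero, Φ.image_frontier]
  have gΦ : ∀ x, ‖x‖ < 1 → Sm Φ x := fun x hx =>
    (Good.of_inj isOpen_ball hΦd Φ.injective.injOn (mem_ball_zero_iff.2 hx)).sm
  have gΦs : ∀ x ∈ U, Good Φ.symm x := fun x hx =>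
    Good.of_inj ho hΦs Φ.symm.injective.injOn hx
  -- the bad set
  have hKc : IsCompact ({x | ¬ Good f (Φ x)} ∩ closedBall (0 : ℂ) 1) := by
    apply IsCompact.inter_left (isCompact_closedBall 0 1)
    have h1 : IsOpen {x | Good f (Φ x)} := (isOpen_good f).preimage Φ.continuous
    have h2 : {x | ¬ Good f (Φ x)} = {x | Good f (Φ x)}ᶜ := rfl
    rw [h2]
    exact h1.isClosed_compl
  have hK1 : ∀ x ∈ {x | ¬ Good f (Φ x)} ∩ closedBall (0 : ℂ) 1, ‖x‖ < 1 := by
    rintro x ⟨h1, h2⟩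
    rw [mem_closedBall_zero_iff] at h2
    rcases h2.lt_or_eq with h | h
    · exact h
    · exfalso
      apply h1
      apply hf
      rw [← hΦs']
      exact ⟨x, by simpa using h, rfl⟩
  obtain ⟨r₀, hr0, hr1, hr⟩ : ∃ r₀ : ℝ, 0 < r₀ ∧ r₀ < 1 ∧
      ∀ x ∈ {x | ¬ Good f (Φ x)} ∩ closedBall (0 : ℂ) 1, ‖x‖ ≤ r₀ := by
    rcases Set.eq_empty_or_nonempty ({x | ¬ Good f (Φ x)} ∩ closedBall (0 : ℂ) 1) with h | h
    · exact ⟨1 / 2, by norm_num, by norm_num, by rw [h]; simp⟩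
    · obtain ⟨x, hx, hxm⟩ := hKc.exists_isMaxOn h continuous_norm.continuousOn
      refine ⟨max (1 / 2) ‖x‖, by positivity, max_lt (by norm_num) (hK1 x hx), fun y hy => ?_⟩
      exact (hxm hy).trans (le_max_right _ _)
  have hsm : ∀ x : ℂ, r₀ < ‖x‖ → ‖x‖ < 1 → Sm (Φ.trans f) x := by
    intro x h1 h2
    have h3 : Good f (Φ x) := by
      by_contra h
      exact absurd (hr x ⟨h, by rw [mem_closedBall_zero_iff]; exact h2.le⟩) (not_le.2 h1)
    exact Sm.comp (f := f) (g := Φ) h3.sm (gΦ x h2)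
  obtain ⟨v, r₁, hr1', hv1, hv2⟩ := smooth2_unit hr0 hr1 hsm
  refine ⟨Φ.symm.trans (v.trans Φ), Φ '' closedBall 0 r₁, ?_, ?_, ?_, ?_⟩
  · exact ((isCompact_closedBall 0 r₁).image Φ.continuous).isClosed
  · rw [← hΦU]
    apply image_mono
    intro x hx
    rw [mem_closedBall_zero_iff] at hx
    rw [mem_ball_zero_iff]
    linarith
  · intro z hz
    change Φ (v (Φ.symm z)) = z
    rw [hv1, Φ.apply_symm_apply]
    by_contra h
    apply hz
    refine ⟨Φ.symm z, ?_, Φ.apply_symm_apply z⟩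
    rw [mem_closedBall_zero_iff]
    exact (not_le.1 h).le
  · intro z hz
    have h1 : Good (fun x => f (Φ (v x))) (Φ.symm z) := by
      have h2 : ‖Φ.symm z‖ < 1 := by
        rw [← hΦU] at hz
        obtain ⟨x, hx, rfl⟩ := hz
        rw [Φ.symm_apply_apply]
        exact mem_ball_zero_iff.1 hx
      have h3 : ∀ᶠ x in 𝓝 (Φ.symm z), ‖x‖ < 1 :=
        continuous_norm.continuousAt.eventually_lt continuousAt_const h2
      filter_upwards [h3] with x hx
      exact hv2 x hx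
    exact Good.comp (f := fun x => f (Φ (v x))) (g := Φ.symm) h1 (gΦs z hz)

end Pool.Agent.D0H72.AP
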