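import Mathlib

/-! Gluing homeomorphisms with supports in the cells of a lattice -/

set_option autoImplicit false

open Set Filter Topology Metric Function

noncomputable section

namespace Pool.Agent.D0H72.AP

/-- the open unit cell with centre `b + m + n i` -/
def cell (b : ℂ) (m n : ℤ) : Set ℂ := {z | |z.re - b.re - m| < 1 / 2 ∧ |z.im - b.im - n| < 1 / 2}

theorem isOpen_cell (b : ℂ) (m n : ℤ) : IsOpen (cell b m n) := by
  have h1 : Continuous fun z : ℂ => |z.re - b.re - m| := by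
    have := Complex.continuous_re
    fun_prop
  have h2 : Continuous fun z : ℂ => |z.im - b.im - n| := by
    have := Complex.continuous_im
    fun_prop
  exact (isOpen_lt h1 continuous_const).inter (isOpen_lt h2 continuous_const)

theorem round_of_abs {x : ℝ} {m : ℤ} (h : |x - m| < 1 / 2) : round x = m := by
  rw [round_eq, Int.floor_eq_iff]
  obtain ⟨h1, h2⟩ := abs_lt.1 h
  constructor <;> linarith

/-- the index of the cell -/
def ix (b : ℂ) (z : ℂ) : ℤ × ℤ := (round (z.re - b.re), round (z.im - b.im))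

theorem ix_cell {b : ℂ} {m n : ℤ} {z : ℂ} (h : z ∈ cell b m n) : ix b z = (m, n) := by
  rw [ix, round_of_abs h.1, round_of_abs h.2]

/-- the glued map -/
def gl (b : ℂ) (v : ℤ → ℤ → ℂ → ℂ) (z : ℂ) : ℂ := v (ix b z).1 (ix b z).2 z

theorem gl_cell {b : ℂ} {v : ℤ → ℤ → ℂ → ℂ} {m n : ℤ} {z : ℂ} (h : z ∈ cell b m n) :
    gl b v z = v m n z := by
  rw [gl, ix_cell h]

theorem isClosed_supp {b : ℂ} {K : ℤ → ℤ → Set ℂ} (hK : ∀ m n, IsClosed (K m n))
    (hsub : ∀ m n, K m n ⊆ cell b m n) : IsClosed (⋃ p : ℤ × ℤ, K p.1 p.2) := by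
  apply LocallyFinite.isClosed_iUnion
  · intro z
    refine ⟨ball z 1, ball_mem_nhds z one_pos, ?_⟩
    apply ((Set.finite_Icc (⌊z.re - b.re⌋ - 2) (⌊z.re - b.re⌋ + 3)).prod
      (Set.finite_Icc (⌊z.im - b.im⌋ - 2) (⌊z.im - b.im⌋ + 3))).subset
    rintro ⟨m, n⟩ ⟨w, hw, hwz⟩
    obtain ⟨h1, h2⟩ := hsub m n hw
    obtain ⟨a1, a2⟩ := abs_lt.1 h1
    obtain ⟨a3, a4⟩ := abs_lt.1 h2
    rw [mem_ball, dist_eq_norm] at hwz
    have b1 := abs_lt.1 ((Complex.abs_re_le_norm (w - z)).trans_lt hwz)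
    have b2 := abs_lt.1 ((Complex.abs_im_le_norm (w - z)).trans_lt hwz)
    rw [Complex.sub_re] at b1
    rw [Complex.sub_im] at b2
    have c1 := Int.floor_le (z.re - b.re)
    have c2 := Int.lt_floor_add_one (z.re - b.re)
    have c3 := Int.floor_le (z.im - b.im)
    have c4 := Int.lt_floor_add_one (z.im - b.im)
    simp only [mem_prod, mem_Icc]
    refine ⟨⟨?_, ?_⟩, ?_, ?_⟩
    · have : ((⌊z.re - b.re⌋ - 2 : ℤ) : ℝ) < m := by push_cast; linarith [b1.1, b1.2]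
      exact_mod_cast this.le
    · have : (m : ℝ) < ((⌊z.re - b.re⌋ + 3 : ℤ) : ℝ) := by push_cast; linarith [b1.1, b1.2]
      exact_mod_cast this.le
    · have : ((⌊z.im - b.im⌋ - 2 : ℤ) : ℝ) < n := by push_cast; linarith [b2.1, b2.2]
      exact_mod_cast this.le
    · have : (n : ℝ) < ((⌊z.im - b.im⌋ + 3 : ℤ) : ℝ) := by push_cast; linarith [b2.1, b2.2]
      exact_mod_cast this.le
  · intro p
    exact hK p.1 p.2

theorem gl_off {b : ℂ} {v : ℤ → ℤ → ℂ → ℂ} {K : ℤ → ℤ → Set ℂ}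
    (hv : ∀ m n z, z ∉ K m n → v m n z = z) {z : ℂ} (h : z ∉ ⋃ p : ℤ × ℤ, K p.1 p.2) :
    gl b v z = z := by
  apply hv
  intro hz
  exact h (mem_iUnion.2 ⟨ix b z, hz⟩)

theorem gl_cont {b : ℂ} {v : ℤ → ℤ → ℂ → ℂ} {K : ℤ → ℤ → Set ℂ}
    (hc : ∀ m n, Continuous (v m n)) (hK : ∀ m n, IsClosed (K m n))
    (hsub : ∀ m n, K m n ⊆ cell b m n) (hv : ∀ m n z, z ∉ K m n → v m n z = z) :
    Continuous (gl b v) := by
  rw [continuous_iff_continuousAt]
  intro z
  by_cases h : z ∈ ⋃ p : ℤ × ℤ, K p.1 p.2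
  · obtain ⟨⟨m, n⟩, hz⟩ := mem_iUnion.1 h
    have h1 : gl b v =ᶠ[𝓝 z] v m n := by
      filter_upwards [(isOpen_cell b m n).mem_nhds (hsub m n hz)] with w hw
      exact gl_cell hw
    exact (hc m n).continuousAt.congr_of_eventuallyEq h1
  · have h1 : gl b v =ᶠ[𝓝 z] fun w => w := by
      filter_upwards [(isClosed_supp hK hsub).isOpen_compl.mem_nhds h] with w hw
      exact gl_off hv hw
    exact continuousAt_id.congr_of_eventuallyEq h1

theorem gl_inv {b : ℂ} {v w : ℤ → ℤ → ℂ → ℂ} {K : ℤ → ℤ → Set ℂ}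
    (hsub : ∀ m n, K m n ⊆ cell b m n) (hv : ∀ m n z, z ∉ K m n → v m n z = z)
    (hw : ∀ m n z, z ∉ K m n → w m n z = z)
    (hwv : ∀ m n z, w m n (v m n z) = z) (z : ℂ) :
    gl b w (gl b v z) = z ∧ ‖gl b v z - z‖ ≤ 2 := by
  by_cases h : z ∈ ⋃ p : ℤ × ℤ, K p.1 p.2
  · obtain ⟨⟨m, n⟩, hz⟩ := mem_iUnion.1 h
    have h1 : v m n z ∈ K m n := by
      by_contra hc
      have h2 := hwv m n z
      rw [hw m n _ hc] at h2
      rw [h2] at hc
      exact hc hz
    rw [gl_cell (hsub m n hz)]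
    refine ⟨by rw [gl_cell (hsub m n h1), hwv], ?_⟩
    obtain ⟨a1, a2⟩ := hsub m n hz
    obtain ⟨b1, b2⟩ := hsub m n h1
    obtain ⟨a3, a4⟩ := abs_lt.1 a1
    obtain ⟨a5, a6⟩ := abs_lt.1 a2
    obtain ⟨b3, b4⟩ := abs_lt.1 b1
    obtain ⟨b5, b6⟩ := abs_lt.1 b2
    refine (Complex.norm_le_abs_re_add_abs_im _).trans ?_
    have e1 : |(v m n z - z).re| ≤ 1 := by
      rw [Complex.sub_re, abs_le]
      constructor <;> linarith
    have e2 : |(v m n z - z).im| ≤ 1 := by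
      rw [Complex.sub_im, abs_le]
      constructor <;> linarith
    linarith
  · rw [gl_off hv h, gl_off hw h]
    simp

/-- gluing homeomorphisms with supports in the cells -/
theorem glue (b : ℂ) (v : ℤ → ℤ → ℂ ≃ₜ ℂ) (K : ℤ → ℤ → Set ℂ) (hK : ∀ m n, IsClosed (K m n))
    (hsub : ∀ m n, K m n ⊆ cell b m n) (hv : ∀ m n z, z ∉ K m n → v m n z = z) :
    ∃ V : ℂ ≃ₜ ℂ, (∀ m n z, z ∈ cell b m n → V z = v m n z) ∧
      (∀ z, (∀ m n, z ∉ K m n) → ∀ᶠ w in 𝓝 z, V w = w) ∧ ∀ z, ‖V z - z‖ ≤ 2 := by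
  have hw : ∀ m n z, z ∉ K m n → (v m n).symm z = z := by
    intro m n z hz
    have := hv m n z hz
    conv_lhs => rw [← this]
    exact (v m n).symm_apply_apply z
  have h1 := gl_inv (v := fun m n => v m n) (w := fun m n => (v m n).symm) hsub hv hw
    (fun m n z => (v m n).symm_apply_apply z)
  have h2 := gl_inv (v := fun m n => (v m n).symm) (w := fun m n => v m n) hsub hw hv
    (fun m n z => (v m n).apply_symm_apply z)
  refine ⟨⟨⟨gl b (fun m n => v m n), gl b (fun m n => (v m n).symm), fun z => (h1 z).1,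
    fun z => (h2 z).1⟩, gl_cont (fun m n => (v m n).continuous) hK hsub hv,
    gl_cont (fun m n => (v m n).symm.continuous) hK hsub hw⟩,
    fun m n z hz => gl_cell (v := fun m n => v m n) hz, ?_, fun z => (h1 z).2⟩
  intro z hz
  have hz' : z ∉ ⋃ p : ℤ × ℤ, K p.1 p.2 := by
    intro h
    obtain ⟨p, hp⟩ := mem_iUnion.1 h
    exact hz _ _ hp
  filter_upwards [(isClosed_supp hK hsub).isOpen_compl.mem_nhds hz'] with w hw'
  exact gl_off hv hw'

end Pool.Agent.D0H72.AP
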