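import Pool.Agent.D0H72.AP.Step1
import Pool.Agent.D0H72.AP.Cell
import Pool.Agent.D0H72.AP.Glue
import Pool.Agent.D0H72.AP.Ang

/-! Orientation preserving homeomorphisms of the plane are uniformly close to diffeomorphisms, in
the fine sense: `f ∘ u` is a diffeomorphism for a homeomorphism `u` close to the identity -/

set_option autoImplicit false

open Set Filter Topology Metric Function
open scoped ContDiff

noncomputable section

namespace Pool.Agent.D0H72.AP

/-- the point `m + n i` -/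
def lat (m n : ℤ) : ℂ := ⟨m, n⟩

@[simp] theorem lat_re (m n : ℤ) : (lat m n).re = m := rfl
@[simp] theorem lat_im (m n : ℤ) : (lat m n).im = n := rfl

theorem mem_cell_of_ball {b : ℂ} {m n : ℤ} {r : ℝ} (hr : r < 1 / 2) {z : ℂ}
    (hz : ‖z - (b + lat m n)‖ ≤ r) : z ∈ cell b m n := by
  have h1 := (Complex.abs_re_le_norm (z - (b + lat m n))).trans hz
  have h2 := (Complex.abs_im_le_norm (z - (b + lat m n))).trans hz
  simp only [Complex.sub_re, Complex.sub_im, Complex.add_re, Complex.add_im, lat_re, lat_im] at h1 h2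
  rw [← sub_sub] at h1 h2
  exact ⟨h1.trans_lt hr, h2.trans_lt hr⟩

theorem convex_cell (b : ℂ) (m n : ℤ) : Convex ℝ (cell b m n) := by
  have h : cell b m n = ({z : ℂ | b.re + m - 1 / 2 < z.re} ∩ {z : ℂ | z.re < b.re + m + 1 / 2}) ∩
      ({z : ℂ | b.im + n - 1 / 2 < z.im} ∩ {z : ℂ | z.im < b.im + n + 1 / 2}) := by
    ext z
    simp only [cell, mem_setOf_eq, mem_inter_iff, abs_lt]
    constructor
    · rintro ⟨⟨h1, h2⟩, h3, h4⟩
      refine ⟨⟨?_, ?_⟩, ?_, ?_⟩ <;> linarith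
    · rintro ⟨⟨h1, h2⟩, h3, h4⟩
      refine ⟨⟨?_, ?_⟩, ?_, ?_⟩ <;> linarith
  rw [h]
  exact ((convex_halfSpace_re_gt _).inter (convex_halfSpace_re_lt _)).inter
    ((convex_halfSpace_im_gt _).inter (convex_halfSpace_im_lt _))

theorem center_cell (b : ℂ) (m n : ℤ) : b + lat m n ∈ cell b m n :=
  mem_cell_of_ball (r := 0) (by norm_num) (by simp)

theorem bounded_cell (b : ℂ) (m n : ℤ) : Bornology.IsBounded (cell b m n) := by
  apply (Metric.isBounded_ball (x := b + lat m n) (r := 2)).subset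
  intro z hz
  rw [mem_ball, dist_eq_norm]
  have h1 := Complex.norm_le_abs_re_add_abs_im (z - (b + lat m n))
  simp only [Complex.sub_re, Complex.sub_im, Complex.add_re, Complex.add_im, lat_re, lat_im] at h1
  have h2 : z.re - (b.re + m) = z.re - b.re - m := by ring
  have h3 : z.im - (b.im + n) = z.im - b.im - n := by ring
  rw [h2, h3] at h1
  linarith [hz.1, hz.2]

/-- the whole step: support in closed balls about the centres of the cells -/
theorem glue_ball (b : ℂ) (r : ℝ) (hr : r < 1 / 2) (v : ℤ → ℤ → ℂ ≃ₜ ℂ)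
    (hv : ∀ m n z, r ≤ ‖z - (b + lat m n)‖ → v m n z = z) :
    ∃ V : ℂ ≃ₜ ℂ, (∀ m n z, z ∈ cell b m n → V z = v m n z) ∧
      (∀ z, (∀ m n, r < ‖z - (b + lat m n)‖) → ∀ᶠ w in 𝓝 z, V w = w) ∧
      ∀ z, ‖V z - z‖ ≤ 2 := by
  obtain ⟨V, h1, h2, h3⟩ := glue b v (fun m n => closedBall (b + lat m n) r)
    (fun m n => isClosed_closedBall) (fun m n z hz => mem_cell_of_ball hr (by
      rwa [mem_closedBall, dist_eq_norm] at hz)) (fun m n z hz => hv m n z (by
      rw [mem_closedBall, dist_eq_norm, not_le] at hz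
      exact hz.le))
  refine ⟨V, h1, fun z hz => h2 z fun m n => ?_, h3⟩
  rw [mem_closedBall, dist_eq_norm, not_le]
  exact hz m n

theorem good_cell {f V v : ℂ → ℂ} {b : ℂ} {m n : ℤ} (hV : ∀ z ∈ cell b m n, V z = v z) {z : ℂ}
    (hz : z ∈ cell b m n) (hg : Good (fun w => f (v w)) z) : Good (fun w => f (V w)) z := by
  apply hg.congr
  filter_upwards [(isOpen_cell b m n).mem_nhds hz] with w hw
  simp only [hV w hw]

theorem good_id {f V : ℂ → ℂ} {z : ℂ} (hV : ∀ᶠ w in 𝓝 z, V w = w)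
    (hg : Good f z) : Good (fun w => f (V w)) z := by
  apply hg.congr
  filter_upwards [hV] with w hw
  simp only [hw]

theorem re_le_norm {z c : ℂ} {r : ℝ} (h : r < |z.re - c.re|) : r < ‖z - c‖ := by
  have := Complex.abs_re_le_norm (z - c)
  rw [Complex.sub_re] at this
  linarith

theorem im_le_norm {z c : ℂ} {r : ℝ} (h : r < |z.im - c.im|) : r < ‖z - c‖ := by
  have := Complex.abs_im_le_norm (z - c)
  rw [Complex.sub_im] at this
  linarith

/-- a half integer is at distance at least `1/2` from an integer -/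
theorem half_dist (m n : ℤ) : (1 : ℝ) / 2 ≤ |(m : ℝ) - (1 / 2 + n)| := by
  rcases le_or_gt m n with h | h
  · have : (m : ℝ) ≤ n := by exact_mod_cast h
    rw [abs_sub_comm]
    have h2 := le_abs_self ((1 / 2 + n : ℝ) - m)
    linarith
  · have : (n : ℝ) + 1 ≤ m := by exact_mod_cast h
    have h2 := le_abs_self ((m : ℝ) - (1 / 2 + n))
    linarith

theorem half_dist' {x : ℝ} {m : ℤ} {d : ℝ} (hx : |x - m| ≤ d) (n : ℤ) :
    (1 : ℝ) / 2 - d ≤ |x - (1 / 2 + n)| := by
  have h1 := half_dist m n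
  have h2 : |(m : ℝ) - (1 / 2 + n)| ≤ |x - (1 / 2 + n)| + |x - m| := by
    have h3 : (m : ℝ) - (1 / 2 + n) = (x - (1 / 2 + n)) - (x - m) := by ring
    rw [h3]
    exact abs_sub _ _
  linarith

theorem frac_cases (x : ℝ) : (∃ m : ℤ, |x - m| < 7 / 20) ∨
    ∃ m : ℤ, |x - (1 / 2 + m)| ≤ 3 / 20 := by
  have h1 := Int.floor_le x
  have h2 := Int.lt_floor_add_one x
  by_cases h3 : x - ⌊x⌋ < 7 / 20
  · left
    refine ⟨⌊x⌋, ?_⟩
    rw [abs_lt]
    constructor <;> linarith
  · by_cases h4 : 13 / 20 < x - ⌊x⌋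
    · left
      refine ⟨⌊x⌋ + 1, ?_⟩
      push_cast
      rw [abs_lt]
      constructor <;> linarith
    · right
      refine ⟨⌊x⌋, ?_⟩
      rw [abs_le]
      constructor <;> linarith

theorem frontier_cell {m n : ℤ} {z : ℂ}
    (hz : z ∈ frontier (cell ((1 / 2 : ℝ) + (1 / 2 : ℝ) * Complex.I) m n)) :
    (∃ k : ℤ, z.re = k) ∨ ∃ k : ℤ, z.im = k := by
  have h0 : z ∉ cell ((1 / 2 : ℝ) + (1 / 2 : ℝ) * Complex.I) m n := by
    have h := (isOpen_cell ((1 / 2 : ℝ) + (1 / 2 : ℝ) * Complex.I) m n).frontier_eq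
    rw [h] at hz
    exact hz.2
  have h1 : z ∈ {z : ℂ | |z.re - 1 / 2 - m| ≤ 1 / 2 ∧ |z.im - 1 / 2 - n| ≤ 1 / 2} := by
    apply closure_minimal _ _ (frontier_subset_closure hz)
    · rintro w ⟨h1, h2⟩
      simp only [Complex.add_re, Complex.ofReal_re, Complex.mul_re, Complex.I_re, mul_zero,
        Complex.ofReal_im, Complex.I_im, mul_one, sub_zero, add_zero, Complex.add_im,
        Complex.mul_im, zero_add] at h1 h2
      exact ⟨h1.le, h2.le⟩
    · have h1 : Continuous fun z : ℂ => |z.re - 1 / 2 - m| := by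
        have := Complex.continuous_re
        fun_prop
      have h2 : Continuous fun z : ℂ => |z.im - 1 / 2 - n| := by
        have := Complex.continuous_im
        fun_prop
      exact (isClosed_le h1 continuous_const).inter (isClosed_le h2 continuous_const)
  obtain ⟨h2, h3⟩ := h1
  have key : ∀ (x : ℝ) (m : ℤ), |x - 1 / 2 - m| = 1 / 2 → ∃ k : ℤ, x = k := by
    intro x m h
    rcases (abs_eq (by norm_num)).1 h with h | h
    · exact ⟨m + 1, by push_cast; linarith⟩
    · exact ⟨m, by linarith⟩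
  rcases h2.lt_or_eq with h4 | h4
  · rcases h3.lt_or_eq with h5 | h5
    · exfalso
      apply h0
      constructor
      · simpa using h4
      · simpa using h5
    · exact Or.inr (key _ _ h5)
  · exact Or.inl (key _ _ h4)

theorem notMem_cell {z : ℂ}
    (hz : ∀ m n : ℤ, z ∉ cell ((1 / 2 : ℝ) + (1 / 2 : ℝ) * Complex.I) m n) :
    (∃ k : ℤ, z.re = k) ∨ ∃ k : ℤ, z.im = k := by
  by_contra hc
  push Not at hc
  obtain ⟨h1, h2⟩ := hc
  have key : ∀ x : ℝ, (∀ k : ℤ, x ≠ k) → |x - 1 / 2 - ⌊x⌋| < 1 / 2 := by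
    intro x hx
    have a1 := Int.floor_le x
    have a2 := Int.lt_floor_add_one x
    have a3 : (⌊x⌋ : ℝ) < x := lt_of_le_of_ne a1 (hx _).symm
    rw [abs_lt]
    constructor <;> linarith
  apply hz ⌊z.re⌋ ⌊z.im⌋
  constructor
  · simpa using key _ h1
  · simpa using key _ h2

theorem approx_one {f : ℂ ≃ₜ ℂ} (hf : OP f) : ∃ u : ℂ ≃ₜ ℂ, (∀ z, ‖u z - z‖ ≤ 8) ∧
    ∀ z, Good (fun w => f (u w)) z := by
  -- step 0
  choose v0 hv0 hv0' using fun m n : ℤ =>
    smooth0 hf ((0 : ℂ) + lat m n) (ρ := 9 / 20) (ρ' := 2 / 5) (by norm_num) (by norm_num)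
  obtain ⟨V0, a1, a2, a3⟩ := glue_ball 0 (9 / 20) (by norm_num) v0 hv0
  obtain ⟨f0, hf0⟩ : ∃ f0 : ℂ ≃ₜ ℂ, ∀ z, f0 z = f (V0 z) := ⟨V0.trans f, fun z => rfl⟩
  have op0 : OP f0 := OP.of_eq hf (OP.of_bdd a3) hf0
  have hol0 : ∀ m n : ℤ, DifferentiableOn ℂ f0 (ball (lat m n) (2 / 5)) := by
    intro m n
    have h1 := hv0' m n
    rw [zero_add] at h1
    refine h1.congr fun z hz => ?_
    rw [hf0, a1 m n z]
    apply mem_cell_of_ball (r := 2 / 5) (by norm_num)
    rw [zero_add]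
    rw [mem_ball, dist_eq_norm] at hz
    exact hz.le
  have good0 : ∀ (m n : ℤ) (z : ℂ), z ∈ ball (lat m n) (2 / 5) → Good f0 z := fun m n z hz =>
    Good.of_inj isOpen_ball (hol0 m n) f0.injective.injOn hz
  -- step 1, horizontal edges
  have e1 : ((3 / 20 : ℝ) : ℂ) ≠ 0 := by
    rw [Complex.ofReal_ne_zero]
    norm_num
  have n1 : ‖((3 / 20 : ℝ) : ℂ)‖ = 3 / 20 := by
    rw [Complex.norm_real]
    norm_num
  choose v1 b1 b2 b3 b4 using fun m n : ℤ =>
    smooth1 op0 (((1 / 2 : ℝ) : ℂ) + lat m n) (e := ((3 / 20 : ℝ) : ℂ)) e1 (δ := 1 / 20)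
      (by norm_num) ((hol0 (m + 1) n).mono (by
        apply ball_subset_ball'
        have h : dist (((1 / 2 : ℝ) : ℂ) + lat m n + ((3 / 20 : ℝ) : ℂ)) (lat (m + 1) n) =
            7 / 20 := by
          rw [dist_eq_norm]
          have h2 : ((1 / 2 : ℝ) : ℂ) + lat m n + ((3 / 20 : ℝ) : ℂ) - lat (m + 1) n =
              ((-(7 / 20) : ℝ) : ℂ) := by
            apply Complex.ext
            · simp
              ring
            · simp
          rw [h2, Complex.norm_real]
          norm_num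
        rw [h]
        norm_num)) ((hol0 m n).mono (by
        apply ball_subset_ball'
        have h : dist (((1 / 2 : ℝ) : ℂ) + lat m n - ((3 / 20 : ℝ) : ℂ)) (lat m n) =
            7 / 20 := by
          rw [dist_eq_norm]
          have h2 : ((1 / 2 : ℝ) : ℂ) + lat m n - ((3 / 20 : ℝ) : ℂ) - lat m n =
              ((7 / 20 : ℝ) : ℂ) := by
            apply Complex.ext
            · simp
              ring
            · simp
          rw [h2, Complex.norm_real]
          norm_num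
        rw [h]
        norm_num))
  rw [n1] at b1
  obtain ⟨V1, c1, c2, c3⟩ := glue_ball ((1 / 2 : ℝ) : ℂ) (3 / 20) (by norm_num) v1 b1
  obtain ⟨f1, hf1⟩ : ∃ f1 : ℂ ≃ₜ ℂ, ∀ z, f1 z = f0 (V1 z) := ⟨V1.trans f0, fun z => rfl⟩
  have op1 : OP f1 := OP.of_eq op0 (OP.of_bdd c3) hf1
  have hf1' : (f1 : ℂ → ℂ) = fun z => f0 (V1 z) := funext hf1
  have id1 : ∀ z : ℂ, (∃ m : ℤ, |z.re - m| ≤ 6 / 20) → ∀ᶠ w in 𝓝 z, V1 w = w := by
    rintro z ⟨m, hm⟩
    apply c2
    intro m' n'
    apply re_le_norm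
    have := half_dist' hm m'
    simp only [Complex.add_re, Complex.ofReal_re, lat_re]
    linarith
  have id1' : ∀ z : ℂ, (∃ m : ℤ, |z.re - m| < 7 / 20) → ∀ᶠ w in 𝓝 z, V1 w = w := by
    rintro z ⟨m, hm⟩
    apply c2
    intro m' n'
    apply re_le_norm
    have := half_dist' hm.le m'
    simp only [Complex.add_re, Complex.ofReal_re, lat_re]
    rcases (this.lt_or_eq) with h | h
    · linarith
    · exfalso
      have h2 : ∃ d : ℝ, |z.re - m| ≤ d ∧ d < 7 / 20 := ⟨|z.re - m|, le_refl _, hm⟩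
      obtain ⟨d, hd1, hd2⟩ := h2
      have := half_dist' hd1 m'
      linarith
  have good1 : ∀ z : ℂ, (∃ n : ℤ, z.im = n) → Good f1 z := by
    rintro z ⟨n, hn⟩
    rw [hf1']
    rcases frac_cases z.re with ⟨m, hm⟩ | ⟨m, hm⟩
    · apply good_id (id1' z ⟨m, hm⟩)
      apply good0 m n
      rw [mem_ball, dist_eq_norm]
      have h2 : z - lat m n = ((z.re - m : ℝ) : ℂ) := by
        apply Complex.ext
        · simp
        · simp [hn]
      rw [h2, Complex.norm_real, Real.norm_eq_abs]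
      linarith
    · have h2 : z = ((1 / 2 : ℝ) : ℂ) + lat m n +
          (((z.re - (1 / 2 + m)) / (3 / 20) : ℝ) : ℂ) * ((3 / 20 : ℝ) : ℂ) := by
        rw [← Complex.ofReal_mul, div_mul_cancel₀ _ (by norm_num)]
        apply Complex.ext
        · simp
        · simp [hn]
      apply good_cell (v := v1 m n) (c1 m n)
      · apply mem_cell_of_ball (r := 3 / 20) (by norm_num)
        have h3 : z - (((1 / 2 : ℝ) : ℂ) + lat m n) = ((z.re - (1 / 2 + m) : ℝ) : ℂ) := by
          apply Complex.ext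
          · simp
          · simp [hn]
        rw [h3, Complex.norm_real, Real.norm_eq_abs]
        exact hm
      · rw [h2]
        apply b4
        rw [abs_div, abs_of_pos (show (0 : ℝ) < 3 / 20 by norm_num)]
        rw [div_le_one (by norm_num)]
        exact hm
  have hol1 : ∀ (m n : ℤ) (t : ℝ), |t - n| = 7 / 20 →
      DifferentiableOn ℂ f1 (ball (⟨m, t⟩ : ℂ) (1 / 20)) := by
    intro m n t ht
    have h1 : DifferentiableOn ℂ f0 (ball (⟨m, t⟩ : ℂ) (1 / 20)) := by
      apply (hol0 m n).mono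
      apply ball_subset_ball'
      have h : dist (⟨m, t⟩ : ℂ) (lat m n) = 7 / 20 := by
        rw [dist_eq_norm]
        have h2 : (⟨m, t⟩ : ℂ) - lat m n = ((t - n : ℝ) : ℂ) * Complex.I := by
          apply Complex.ext
          · simp
          · simp
        rw [h2, norm_mul, Complex.norm_I, mul_one, Complex.norm_real, Real.norm_eq_abs, ht]
      rw [h]
      norm_num
    apply h1.congr
    intro z hz
    rw [hf1, (id1 z ⟨m, ?_⟩).self_of_nhds]
    rw [mem_ball, dist_eq_norm] at hz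
    have h2 := (Complex.abs_re_le_norm (z - ⟨m, t⟩)).trans hz.le
    rw [Complex.sub_re] at h2
    linarith
  -- step 1, vertical edges
  have e2 : ((3 / 20 : ℝ) : ℂ) * Complex.I ≠ 0 := mul_ne_zero e1 Complex.I_ne_zero
  have n2 : ‖((3 / 20 : ℝ) : ℂ) * Complex.I‖ = 3 / 20 := by
    rw [norm_mul, Complex.norm_I, mul_one, n1]
  choose v2 d1 d2 d3 d4 using fun m n : ℤ =>
    smooth1 op1 (((1 / 2 : ℝ) : ℂ) * Complex.I + lat m n) (e := ((3 / 20 : ℝ) : ℂ) * Complex.I)
      e2 (δ := 1 / 20) (by norm_num) (by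
        have h1 := hol1 m (n + 1) (n + 13 / 20) (by
          push_cast
          rw [show (n : ℝ) + 13 / 20 - (n + 1) = -(7 / 20) by ring, abs_neg, abs_of_pos]
          norm_num)
        have h2 : (⟨(m : ℝ), (n : ℝ) + 13 / 20⟩ : ℂ) =
            ((1 / 2 : ℝ) : ℂ) * Complex.I + lat m n + ((3 / 20 : ℝ) : ℂ) * Complex.I := by
          apply Complex.ext
          · simp
          · simp
            ring
        rwa [h2] at h1) (by
        have h1 := hol1 m n (n + 7 / 20) (by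
          rw [show (n : ℝ) + 7 / 20 - n = 7 / 20 by ring, abs_of_pos]
          norm_num)
        have h2 : (⟨(m : ℝ), (n : ℝ) + 7 / 20⟩ : ℂ) =
            ((1 / 2 : ℝ) : ℂ) * Complex.I + lat m n - ((3 / 20 : ℝ) : ℂ) * Complex.I := by
          apply Complex.ext
          · simp
          · simp
            ring
        rwa [h2] at h1)
  rw [n2] at d1
  obtain ⟨V2, g1, g2, g3⟩ := glue_ball (((1 / 2 : ℝ) : ℂ) * Complex.I) (3 / 20) (by norm_num)
    v2 d1
  obtain ⟨f2, hf2⟩ : ∃ f2 : ℂ ≃ₜ ℂ, ∀ z, f2 z = f1 (V2 z) := ⟨V2.trans f1, fun z => rfl⟩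
  have hf2' : (f2 : ℂ → ℂ) = fun z => f1 (V2 z) := funext hf2
  have id2 : ∀ z : ℂ, (∃ n : ℤ, |z.im - n| < 7 / 20) → ∀ᶠ w in 𝓝 z, V2 w = w := by
    rintro z ⟨m, hm⟩
    apply g2
    intro m' n'
    apply im_le_norm
    have h2 : ∃ d : ℝ, |z.im - m| ≤ d ∧ d < 7 / 20 := ⟨|z.im - m|, le_refl _, hm⟩
    obtain ⟨d, hd1, hd2⟩ := h2
    have := half_dist' hd1 n'
    simp only [Complex.add_im, Complex.mul_im, Complex.ofReal_re, Complex.I_im, mul_one,
      Complex.ofReal_im, Complex.I_re, mul_zero, add_zero, lat_im]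
    linarith
  have good2 : ∀ z : ℂ, ((∃ k : ℤ, z.re = k) ∨ ∃ k : ℤ, z.im = k) → Good f2 z := by
    rintro z (⟨m, hm⟩ | ⟨n, hn⟩)
    · rw [hf2']
      rcases frac_cases z.im with ⟨n, hn⟩ | ⟨n, hn⟩
      · apply good_id (id2 z ⟨n, hn⟩)
        rw [hf1']
        apply good_id (id1 z ⟨m, by rw [hm, sub_self, abs_zero]; norm_num⟩)
        apply good0 m n
        rw [mem_ball, dist_eq_norm]
        have h2 : z - lat m n = ((z.im - n : ℝ) : ℂ) * Complex.I := by
          apply Complex.ext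
          · simp [hm]
          · simp
        rw [h2, norm_mul, Complex.norm_I, mul_one, Complex.norm_real, Real.norm_eq_abs]
        linarith
      · have h2 : z = ((1 / 2 : ℝ) : ℂ) * Complex.I + lat m n +
            (((z.im - (1 / 2 + n)) / (3 / 20) : ℝ) : ℂ) * (((3 / 20 : ℝ) : ℂ) * Complex.I) := by
          rw [← mul_assoc, ← Complex.ofReal_mul, div_mul_cancel₀ _ (by norm_num)]
          apply Complex.ext
          · simp [hm]
          · simp
        apply good_cell (v := v2 m n) (g1 m n)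
        · apply mem_cell_of_ball (r := 3 / 20) (by norm_num)
          have h3 : z - (((1 / 2 : ℝ) : ℂ) * Complex.I + lat m n) =
              ((z.im - (1 / 2 + n) : ℝ) : ℂ) * Complex.I := by
            apply Complex.ext
            · simp [hm]
            · simp
          rw [h3, norm_mul, Complex.norm_I, mul_one, Complex.norm_real, Real.norm_eq_abs]
          exact hn
        · rw [h2]
          apply d4
          rw [abs_div, abs_of_pos (show (0 : ℝ) < 3 / 20 by norm_num)]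
          rw [div_le_one (by norm_num)]
          exact hn
    · rw [hf2']
      apply good_id (id2 z ⟨n, by rw [hn, sub_self, abs_zero]; norm_num⟩)
      exact good1 z ⟨n, hn⟩
  -- step 2
  choose v3 K3 k1 k2 k3 k4 using fun m n : ℤ =>
    smooth_cell (f := f2) (convex_cell ((1 / 2 : ℝ) + (1 / 2 : ℝ) * Complex.I) m n)
      (isOpen_cell _ m n) ⟨_, center_cell _ m n⟩ (bounded_cell _ m n)
      (fun z hz => good2 z (frontier_cell hz))
  obtain ⟨V3, l1, l2, l3⟩ := glue ((1 / 2 : ℝ) + (1 / 2 : ℝ) * Complex.I) v3 K3 k1 k2 k3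
  refine ⟨V3.trans (V2.trans (V1.trans V0)), fun z => ?_, fun z => ?_⟩
  · change ‖V0 (V1 (V2 (V3 z))) - z‖ ≤ 8
    have t1 := l3 z
    have t2 := g3 (V3 z)
    have t3 := c3 (V2 (V3 z))
    have t4 := a3 (V1 (V2 (V3 z)))
    have e : V0 (V1 (V2 (V3 z))) - z = (V0 (V1 (V2 (V3 z))) - V1 (V2 (V3 z))) +
        (V1 (V2 (V3 z)) - V2 (V3 z)) + (V2 (V3 z) - V3 z) + (V3 z - z) := by ring
    rw [e]
    have s1 := norm_add_le ((V0 (V1 (V2 (V3 z))) - V1 (V2 (V3 z))) +
        (V1 (V2 (V3 z)) - V2 (V3 z)) + (V2 (V3 z) - V3 z)) (V3 z - z)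
    have s2 := norm_add_le ((V0 (V1 (V2 (V3 z))) - V1 (V2 (V3 z))) +
        (V1 (V2 (V3 z)) - V2 (V3 z))) (V2 (V3 z) - V3 z)
    have s3 := norm_add_le (V0 (V1 (V2 (V3 z))) - V1 (V2 (V3 z)))
        (V1 (V2 (V3 z)) - V2 (V3 z))
    linarith
  · have h1 : (fun w => f ((V3.trans (V2.trans (V1.trans V0))) w)) = fun w => f2 (V3 w) := by
      funext w
      change f (V0 (V1 (V2 (V3 w)))) = _
      rw [hf2, hf1, hf0]
    rw [h1]
    by_cases h : ∃ m n : ℤ, z ∈ cell ((1 / 2 : ℝ) + (1 / 2 : ℝ) * Complex.I) m n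
    · obtain ⟨m, n, h⟩ := h
      exact good_cell (v := v3 m n) (l1 m n) h (k4 m n z h)
    · push Not at h
      apply good_id (l2 z fun m n hz => h m n (k2 m n hz))
      exact good2 z (notMem_cell h)

/-- Orientation preserving homeomorphisms of the plane: precomposing with a homeomorphism close to
the identity gives a diffeomorphism -/
theorem approx {f : ℂ ≃ₜ ℂ} (hf : OP f) {κ : ℝ} (hκ : 0 < κ) : ∃ u : ℂ ≃ₜ ℂ,
    (∀ z, ‖u z - z‖ ≤ κ) ∧ ContDiff ℝ ∞ (fun z => f (u z)) ∧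
    ∀ z, 0 < (fderiv ℝ (fun z => f (u z)) z).det := by
  have hS : ((κ / 8 : ℝ) : ℂ) ≠ 0 := by
    rw [Complex.ofReal_ne_zero]
    positivity
  obtain ⟨A, hA⟩ : ∃ A : ℂ ≃ₜ ℂ, A = aff ((κ / 8 : ℝ) : ℂ) 0 hS := ⟨_, rfl⟩
  have hA1 : ∀ z, A z = ((κ / 8 : ℝ) : ℂ) * z := by
    intro z
    rw [hA, aff_apply, add_zero]
  have hA2 : ∀ z, A.symm z = z / ((κ / 8 : ℝ) : ℂ) := by
    intro z
    rw [hA, aff_symm_apply, sub_zero]
  have hopA : OP A := by
    rw [hA]
    exact OP.aff _ _ _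
  obtain ⟨u, hu1, hu2⟩ := approx_one (f := A.trans f) (OP.comp hf hopA)
  have key : ∀ z, Good (fun w => f ((A.symm.trans (u.trans A)) w)) z := by
    intro z
    have h1 := hu2 (A.symm z)
    have h2 : Good A.symm z := by
      have e : (A.symm : ℂ → ℂ) = fun z => z / ((κ / 8 : ℝ) : ℂ) := funext hA2
      apply Good.of_inj (U := univ) isOpen_univ _ A.symm.injective.injOn (mem_univ _)
      rw [e]
      intro w _
      exact ((differentiableAt_id).div_const _).differentiableWithinAt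
    exact Good.comp (f := fun w => f (A (u w))) (g := A.symm) h1 h2
  refine ⟨A.symm.trans (u.trans A), fun z => ?_, ?_, fun z => (key z).sm.2⟩
  · change ‖A (u (A.symm z)) - z‖ ≤ κ
    have e : A (u (A.symm z)) - z = ((κ / 8 : ℝ) : ℂ) * (u (A.symm z) - A.symm z) := by
      rw [hA1, mul_sub, ← hA1 (A.symm z), A.apply_symm_apply]
    rw [e, norm_mul, Complex.norm_real, Real.norm_of_nonneg (by positivity)]
    have h1 := hu1 (A.symm z)
    nlinarith
  · rw [contDiff_iff_contDiffAt]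
    exact fun z => (key z).sm.1

end Pool.Agent.D0H72.AP
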