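import Pool.Agent.D0H72.AP.Shear

/-! A diffeomorphism with given Jacobian, close to the identity -/

set_option autoImplicit false

open Set Filter Topology Metric Function MeasureTheory
open scoped ContDiff Interval

noncomputable section

namespace Pool.Agent.D0H72.AP

open Pool.Agent.N550.KH Pool.Agent.Helper186

/-- the mean over a unit square -/
def box2 (D : ℂ → ℝ) (z : ℂ) : ℝ := ∫ t in (0:ℝ)..1, box D (z - (t : ℂ) * Complex.I)

theorem box2_smooth {D : ℂ → ℝ} (hD : ContDiff ℝ ∞ D) : ContDiff ℝ ∞ (box2 D) := by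
  have hks : ContDiff ℝ ∞ (fun q : ℝ × ℂ => box D (q.2 - (q.1 : ℂ) * Complex.I)) :=
    (box_smooth hD).comp (contDiff_snd.sub
      ((Complex.ofRealCLM.contDiff.comp contDiff_fst).mul contDiff_const))
  rw [← contDiffOn_univ]
  exact contDiffOn_paramInt isOpen_univ 1 hks.contDiffOn

theorem box_pos {D : ℂ → ℝ} (hD : Continuous D) (hpos : ∀ z, 0 < D z) (z : ℂ) : 0 < box D z := by
  apply intervalIntegral.intervalIntegral_pos_of_pos
  · exact (hD.comp (by fun_prop)).intervalIntegrable _ _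
  · intro s
    exact hpos _
  · exact one_pos

theorem norm_le_of_im {z w : ℂ} (h : w.im = z.im) (h1 : z.re ≤ w.re) (h2 : w.re ≤ z.re + 1) :
    ‖w - z‖ ≤ 1 := by
  have : w - z = ((w.re - z.re : ℝ) : ℂ) := by
    apply Complex.ext <;> simp [h]
  rw [this, Complex.norm_real, Real.norm_eq_abs, abs_of_nonneg (by linarith)]
  linarith

theorem rot_det {H : ℂ → ℂ} (hH : ContDiff ℝ ∞ H) (z : ℂ) :
    (fderiv ℝ (fun z => Complex.I * H (-Complex.I * z)) z).det =
      (fderiv ℝ H (-Complex.I * z)).det := by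
  have hc : ∀ c : ℂ, ContDiff ℝ ∞ (fun z : ℂ => c * z) := fun c => contDiff_const.mul contDiff_id
  have hdet : ∀ (c : ℂ) (z : ℂ), (fderiv ℝ (fun z : ℂ => c * z) z).det = ‖c‖ ^ 2 := by
    intro c z
    have h1 : HasFDerivAt (fun z : ℂ => c * z) (c • (1 : ℂ →L[ℝ] ℂ)) z :=
      (hasFDerivAt_id (𝕜 := ℝ) z).const_mul c
    rw [h1.fderiv]
    exact Mod.det_mul_one c
  have h1 := det_comp_fderiv (hc Complex.I) (hH.comp (hc (-Complex.I))) z
  have h2 := det_comp_fderiv hH (hc (-Complex.I)) z
  simp only [Function.comp_def] at h1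
  rw [h1, hdet, h2, hdet]
  simp

/-- a diffeomorphism with given Jacobian -/
theorem exists_T {J : ℂ → ℝ} (hJ : ContDiff ℝ ∞ J) (hpos : ∀ z, 0 < J z) {τ : ℝ}
    (h1 : τ ≤ 1 / 2) (hbox : ∀ z, |box2 J z - 1| ≤ τ) :
    ∃ T : ℂ → ℂ, Bijective T ∧ ContDiff ℝ ∞ T ∧ (∀ z, (fderiv ℝ T z).det = J z) ∧
      ∀ z, ‖T z - z‖ ≤ 2 + 2 * τ * ‖T z‖ := by
  have hτ0 : 0 ≤ τ := (abs_nonneg _).trans (hbox 0)
  -- step 1
  have hF := prim_smooth hJ
  obtain ⟨H1, b1, s1, i1, r1, d1⟩ := rearr hF (fun z => by rw [prim_fderiv hJ]; exact hpos z)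
  have e1 : ∀ w, fderiv ℝ (box (prim J)) w 1 = box J w := by
    intro w
    rw [box_fderiv hF]
    congr 1
    funext w
    rw [prim_fderiv hJ]
  have hD1 := box_smooth hJ
  have hD1p := box_pos hJ.continuous hpos
  -- step 2
  have hD1' : ContDiff ℝ ∞ (fun w => box J (Complex.I * w)) :=
    hD1.comp (contDiff_const.mul contDiff_id)
  have hF' := prim_smooth hD1'
  obtain ⟨H2, b2, s2, i2, r2, d2⟩ := rearr hF' (fun z => by rw [prim_fderiv hD1']; exact hD1p _)
  have e2 : ∀ w, fderiv ℝ (box (prim (fun w => box J (Complex.I * w)))) w 1 =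
      box2 J (Complex.I * w) := by
    intro w
    rw [box_fderiv hF']
    have : (fun w => fderiv ℝ (prim (fun w => box J (Complex.I * w))) w 1) =
        fun w => box J (Complex.I * w) := by
      funext w
      rw [prim_fderiv hD1']
    rw [this, box, box2]
    refine intervalIntegral.integral_congr fun s _ => ?_
    congr 1
    ring
  -- step 3
  have hD2 := box2_smooth hJ
  have hD2p : ∀ z, 0 < box2 J z := by
    intro z
    have := (abs_le.1 (hbox z)).1
    linarith
  have hF2 := prim_smooth hD2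
  have hprim : ∀ z, |prim (box2 J) z - z.re| ≤ τ * |z.re| := by
    intro z
    have h2 : prim (box2 J) z - z.re = ∫ x in (0:ℝ)..z.re,
        (box2 J (x + z.im * Complex.I) - 1) := by
      rw [intervalIntegral.integral_sub]
      · simp [prim]
      · exact (hD2.continuous.comp (by fun_prop)).intervalIntegrable _ _
      · exact continuous_const.intervalIntegrable _ _
    rw [h2]
    have h3 := intervalIntegral.norm_integral_le_of_norm_le_const (a := 0) (b := z.re)
      (f := fun x : ℝ => box2 J (x + z.im * Complex.I) - 1) (C := τ) (fun x _ => hbox _)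
    rw [sub_zero] at h3
    exact h3
  have b3 : Bijective (sh (prim (box2 J))) := by
    refine ⟨sh_inj hF2 (fun z => by rw [prim_fderiv hD2]; exact hD2p z), fun w => ?_⟩
    have hc : ContinuousOn (fun t : ℝ => prim (box2 J) ((w.im : ℂ) * Complex.I + (t : ℂ)))
        (Icc (-(2 * |w.re|)) (2 * |w.re|)) :=
      (hF2.continuous.comp (by fun_prop)).continuousOn
    have h2 := intermediate_value_Icc (by have := abs_nonneg w.re; linarith) hc
    have h3 : w.re ∈ Icc (prim (box2 J) ((w.im : ℂ) * Complex.I + ((-(2 * |w.re|) : ℝ) : ℂ)))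
        (prim (box2 J) ((w.im : ℂ) * Complex.I + ((2 * |w.re| : ℝ) : ℂ))) := by
      have h0 := abs_nonneg w.re
      have ha := abs_le.1 (hprim ((w.im : ℂ) * Complex.I + ((-(2 * |w.re|) : ℝ) : ℂ)))
      have hb := abs_le.1 (hprim ((w.im : ℂ) * Complex.I + ((2 * |w.re| : ℝ) : ℂ)))
      have ea : ((w.im : ℂ) * Complex.I + ((-(2 * |w.re|) : ℝ) : ℂ)).re = -(2 * |w.re|) := by simp
      have eb : ((w.im : ℂ) * Complex.I + ((2 * |w.re| : ℝ) : ℂ)).re = 2 * |w.re| := by simp
      rw [ea, abs_neg, abs_of_nonneg (by positivity : (0:ℝ) ≤ 2 * |w.re|)] at ha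
      rw [eb, abs_of_nonneg (by positivity : (0:ℝ) ≤ 2 * |w.re|)] at hb
      have hτ1 : τ * (2 * |w.re|) ≤ 1 / 2 * (2 * |w.re|) := by gcongr
      constructor
      · have := neg_abs_le w.re
        linarith
      · have := le_abs_self w.re
        linarith
    obtain ⟨t, -, ht⟩ := h2 h3
    refine ⟨(w.im : ℂ) * Complex.I + (t : ℂ), ?_⟩
    apply Complex.ext
    · simpa using ht
    · simp
  have hV : ∀ z, ‖Complex.I * H2 (-Complex.I * z) - z‖ ≤ 1 := by
    intro z
    have h2 : Complex.I * H2 (-Complex.I * z) - z =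
        Complex.I * (H2 (-Complex.I * z) - (-Complex.I * z)) := by
      linear_combination (-z) * Complex.I_mul_I
    rw [h2, norm_mul, Complex.norm_I, one_mul]
    exact norm_le_of_im (i2 _) (r2 _).1 (r2 _).2
  have sV : ContDiff ℝ ∞ (fun z => Complex.I * H2 (-Complex.I * z)) :=
    contDiff_const.mul (s2.comp (contDiff_const.mul contDiff_id))
  have bV : Bijective (fun z => Complex.I * H2 (-Complex.I * z)) := by
    have h2 : Bijective (fun z : ℂ => Complex.I * z) := by
      refine ⟨fun x y h => mul_left_cancel₀ Complex.I_ne_zero h, fun w => ⟨-Complex.I * w, ?_⟩⟩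
      simp only
      linear_combination (-w) * Complex.I_mul_I
    have h3 : Bijective (fun z : ℂ => -Complex.I * z) := by
      refine ⟨fun x y h => mul_left_cancel₀ (neg_ne_zero.2 Complex.I_ne_zero) h,
        fun w => ⟨Complex.I * w, ?_⟩⟩
      simp only
      linear_combination (-w) * Complex.I_mul_I
    exact h2.comp (b2.comp h3)
  refine ⟨fun z => sh (prim (box2 J)) (Complex.I * H2 (-Complex.I * H1 z)),
    b3.comp (bV.comp b1), (sh_smooth hF2).comp (sV.comp s1), fun z => ?_, fun z => ?_⟩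
  · have c1 := det_comp_fderiv (sh_smooth hF2) (sV.comp s1) z
    have c2 := det_comp_fderiv sV s1 z
    simp only [Function.comp_def] at c1
    rw [c1, c2, sh_det hF2, prim_fderiv hD2, rot_det s2]
    have c3 := d2 (-Complex.I * H1 z)
    rw [e2, prim_fderiv hD1'] at c3
    have c4 := d1 z
    rw [e1, prim_fderiv hJ] at c4
    have c5 : Complex.I * (-Complex.I * H1 z) = H1 z := by
      linear_combination (-(H1 z)) * Complex.I_mul_I
    simp only [c5] at c3
    rw [← mul_assoc, c3, c4]
  · set w := Complex.I * H2 (-Complex.I * H1 z) with hw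
    have a1 : ‖H1 z - z‖ ≤ 1 := norm_le_of_im (i1 _) (r1 _).1 (r1 _).2
    have a2 : ‖w - H1 z‖ ≤ 1 := hV _
    have a3 : ‖sh (prim (box2 J)) w - w‖ ≤ 2 * τ * ‖sh (prim (box2 J)) w‖ := by
      have h2 : sh (prim (box2 J)) w - w = ((prim (box2 J) w - w.re : ℝ) : ℂ) := by
        apply Complex.ext <;> simp
      rw [h2, Complex.norm_real, Real.norm_eq_abs]
      have h3 := hprim w
      have h4 : |prim (box2 J) w| ≤ ‖sh (prim (box2 J)) w‖ := by
        have := Complex.abs_re_le_norm (sh (prim (box2 J)) w)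
        simpa using this
      have h5 : |w.re| ≤ |prim (box2 J) w - w.re| + |prim (box2 J) w| := by
        have := abs_sub_abs_le_abs_sub w.re (prim (box2 J) w)
        rw [abs_sub_comm] at this
        linarith
      have h6 : τ * |w.re| ≤ 1 / 2 * |w.re| := by gcongr
      have h7 : |w.re| ≤ 2 * ‖sh (prim (box2 J)) w‖ := by linarith
      calc |prim (box2 J) w - w.re| ≤ τ * |w.re| := h3
        _ ≤ τ * (2 * ‖sh (prim (box2 J)) w‖) := by gcongr
        _ = _ := by ring
    calc ‖sh (prim (box2 J)) w - z‖ = ‖(sh (prim (box2 J)) w - w) + (w - H1 z) + (H1 z - z)‖ := by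
          congr 1; ring
      _ ≤ ‖sh (prim (box2 J)) w - w‖ + ‖w - H1 z‖ + ‖H1 z - z‖ := norm_add₃_le
      _ ≤ _ := by linarith

end Pool.Agent.D0H72.AP
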