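import Pool.Agent.D0H72.AP.Ang

/-! Homeomorphisms of the closed unit disc -/

set_option autoImplicit false

open Set Filter Topology Metric Function

noncomputable section

namespace Pool.Agent.D0H72.AP

open Pool.Agent.Helper984_CP

/-- homeomorphisms of the closed unit disc, with inverse -/
structure DIso (F Fi : ℂ → ℂ) : Prop where
  map : DiscMap F
  inv : DiscMap Fi
  right : ∀ z, ‖z‖ ≤ 1 → F (Fi z) = z
  left : ∀ z, ‖z‖ ≤ 1 → Fi (F z) = z

theorem DIso.symm {F Fi : ℂ → ℂ} (h : DIso F Fi) : DIso Fi F := ⟨h.inv, h.map, h.left, h.right⟩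

theorem DMap.comp {F G : ℂ → ℂ} (hF : DiscMap F) (hG : DiscMap G) :
    DiscMap (fun z => F (G z)) where
  cont := hF.cont.comp hG.cont fun z hz =>
    mem_closedBall_zero_iff.2 (hG.le (mem_closedBall_zero_iff.1 hz))
  inner z hz := hF.inner _ (hG.inner z hz)
  bdry z hz := hF.bdry _ (hG.bdry z hz)

theorem DIso.comp {F Fi G Gi : ℂ → ℂ} (hF : DIso F Fi) (hG : DIso G Gi) :
    DIso (fun z => F (G z)) (fun z => Gi (Fi z)) where
  map := DMap.comp hF.map hG.map
  inv := DMap.comp hG.inv hF.inv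
  right z hz := by rw [hG.right _ (hF.inv.le hz), hF.right z hz]
  left z hz := by rw [hF.left _ (hG.map.le hz), hG.left z hz]

/-- homeomorphisms of the plane which preserve the disc -/
theorem DIso.of_homeo {Q : ℂ ≃ₜ ℂ} (h1 : ∀ z, 1 ≤ ‖z‖ → ‖Q z‖ = ‖z‖)
    (h2 : ∀ z, ‖z‖ < 1 → ‖Q z‖ < 1) : DIso Q Q.symm where
  map := ⟨Q.continuous.continuousOn, h2, fun z hz => by rw [h1 z hz.ge, hz]⟩
  inv := by
    refine ⟨Q.symm.continuous.continuousOn, fun z hz => ?_, fun z hz => ?_⟩
    · by_contra hc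
      have h3 := h1 _ (not_lt.1 hc)
      rw [Q.apply_symm_apply] at h3
      rw [h3] at hz
      exact hc hz
    · by_contra hc
      rcases lt_or_gt_of_ne hc with h3 | h3
      · have h4 := h2 _ h3
        rw [Q.apply_symm_apply, hz] at h4
        exact lt_irrefl _ h4
      · have h4 := h1 _ h3.le
        rw [Q.apply_symm_apply, hz] at h4
        rw [← h4] at h3
        exact lt_irrefl _ h3
  right z _ := Q.apply_symm_apply z
  left z _ := Q.symm_apply_apply z

/-- the retraction onto the closed disc -/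
def rt (z : ℂ) : ℂ := z / ((max 1 ‖z‖ : ℝ) : ℂ)

theorem rt_cont : Continuous rt := by
  unfold rt
  apply Continuous.div
  · fun_prop
  · fun_prop
  · intro z
    have : (0 : ℝ) < max 1 ‖z‖ := lt_max_of_lt_left one_pos
    exact_mod_cast this.ne'

theorem rt_in {z : ℂ} (h : ‖z‖ ≤ 1) : rt z = z := by
  rw [rt, max_eq_left h]
  simp

theorem rt_out {z : ℂ} (h : 1 ≤ ‖z‖) : ‖rt z‖ = 1 := by
  have : (0 : ℝ) < ‖z‖ := by linarith
  rw [rt, max_eq_right h, norm_div, Complex.norm_real, norm_norm, div_self this.ne']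

theorem rt_le (z : ℂ) : ‖rt z‖ ≤ 1 := by
  rcases le_total ‖z‖ 1 with h | h
  · rw [rt_in h]; exact h
  · rw [rt_out h]

/-- extension by the identity -/
theorem DIso.extend {V Vi : ℂ → ℂ} (h : DIso V Vi) (h1 : ∀ z, ‖z‖ = 1 → V z = z) :
    ∃ v : ℂ ≃ₜ ℂ, (∀ z, ‖z‖ ≤ 1 → v z = V z) ∧ ∀ z, 1 ≤ ‖z‖ → v z = z := by
  have h1' : ∀ z, ‖z‖ = 1 → Vi z = z := by
    intro z hz
    have := h.left z hz.le
    rwa [h1 z hz] at this
  have key : ∀ {V Vi : ℂ → ℂ}, DIso V Vi → (∀ z, ‖z‖ = 1 → V z = z) →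
      Continuous (fun z => V (rt z) + (z - rt z)) ∧
      (∀ z, ‖z‖ ≤ 1 → V (rt z) + (z - rt z) = V z) ∧
      ∀ z, 1 ≤ ‖z‖ → V (rt z) + (z - rt z) = z := by
    intro V Vi h h1
    refine ⟨?_, fun z hz => ?_, fun z hz => ?_⟩
    · apply Continuous.add
      · exact h.map.cont.comp_continuous rt_cont fun z => mem_closedBall_zero_iff.2 (rt_le z)
      · exact continuous_id.sub rt_cont
    · rw [rt_in hz]
      ring
    · rw [h1 _ (rt_out hz)]
      ring
  obtain ⟨c1, c2, c3⟩ := key h h1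
  obtain ⟨d1, d2, d3⟩ := key h.symm h1'
  refine ⟨⟨⟨fun z => V (rt z) + (z - rt z), fun z => Vi (rt z) + (z - rt z), ?_, ?_⟩, c1, d1⟩,
    c2, c3⟩
  · intro z
    simp only
    rcases le_total ‖z‖ 1 with hz | hz
    · rw [c2 z hz, d2 _ (h.map.le hz), h.left z hz]
    · rw [c3 z hz, d3 z hz]
  · intro z
    simp only
    rcases le_total ‖z‖ 1 with hz | hz
    · rw [d2 z hz, c2 _ (h.inv.le hz), h.right z hz]
    · rw [d3 z hz, c3 z hz]

/-- a disc homeomorphism which is the identity near two opposite points of the circle can be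
replaced by one which is the identity near the diameter -/
theorem DIso.straight {g gi : ℂ → ℂ} (h : DIso g gi) {δ : ℝ} (hδ : 0 < δ)
    (h1 : ∀ z, ‖z‖ = 1 → ‖z - 1‖ < δ → g z = z) (h2 : ∀ z, ‖z‖ = 1 → ‖z + 1‖ < δ → g z = z) :
    ∃ δ' : ℝ, 0 < δ' ∧ ∀ η : ℝ, 0 < η → ∃ G : ℂ ≃ₜ ℂ, (∀ z, ‖G z‖ = ‖z‖) ∧
      (∀ z, ‖z‖ = 1 → G z = g z) ∧ (∀ z, ‖z‖ ≤ 1 - η → G z = z) ∧
      (∀ z, ‖z - 1‖ < δ' → G z = z) ∧ ∀ z, ‖z + 1‖ < δ' → G z = z := by
  have hhom := isHomeo_radial_path h.map h.inv h.right h.left 1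
  obtain ⟨A, hA⟩ : ∃ A, A = slice (radialC g h.map) 1 := ⟨_, rfl⟩
  rw [← hA] at hhom
  have hAn : ∀ z, ‖A z‖ = ‖z‖ := by rw [hA]; exact radial_one_norm h.map
  have hAh : ∀ (r : ℝ) (z : ℂ), 0 < r → A (r * z) = r * A z := by
    rw [hA]; exact radial_one_hom h.map
  have hAg : ∀ z, ‖z‖ = 1 → A z = g z := by
    intro z hz
    rw [hA, slice_apply, radialC_apply]
    simp only [unitInterval.symm_one, Icc.coe_zero, radial]
    rw [max_eq_right (norm_nonneg z), hz]
    simp
  have hA0 : A 0 = 0 := by rw [← norm_eq_zero, hAn, norm_zero]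
  -- the lift
  obtain ⟨α, hα1, hα2, hα3, hα4⟩ : ∃ α : ℝ → ℝ, Continuous α ∧ StrictMono α ∧
      (∀ x, α (x + 1) = α x + 1) ∧ ∀ z, A z = cone α z := by
    rcases lift_or hhom hA0 with ⟨M, hM⟩ | ⟨M, hM⟩
    · exact exists_cone hAn hhom.injective hAh hM
    · exfalso
      obtain ⟨β, hβ1, hβ2, hβ3, hβ4⟩ := exists_cone (A := A.comp conjC) (fun z => by
        simp only [ContinuousMap.comp_apply, conjC_apply]
        rw [hAn, Complex.norm_conj]) ((hhom.comp isHomeo_conjC).injective) (fun r z hr => by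
        simp only [ContinuousMap.comp_apply, conjC_apply]
        rw [map_mul, Complex.conj_ofReal, hAh r _ hr]) (M := M) hM
      -- near 1 the map `A ∘ conj` is conjugation
      have key : ∀ x : ℝ, ‖Complex.exp (tpi * (x : ℂ)) - 1‖ < δ →
          Complex.exp (tpi * ((β x : ℝ) : ℂ)) = Complex.exp (tpi * ((-x : ℝ) : ℂ)) := by
        intro x hx
        have e1 := hβ4 (Complex.exp (tpi * (x : ℂ)))
        rw [cone_exp hβ3] at e1
        have e2 : circM β (tpi * (x : ℂ)) = tpi * ((β x : ℝ) : ℂ) := by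
          apply Complex.ext
          · rw [circM_re, tpi_eq]; simp
          · rw [circM_im]
            have : (tpi * (x : ℂ)).im / (2 * Real.pi) = x := by
              have := two_pi_ne
              rw [tpi_eq]
              simp
            rw [this, tpi_eq]
            simp
        rw [e2] at e1
        rw [← e1]
        simp only [ContinuousMap.comp_apply, conjC_apply]
        have e3 : (starRingEnd ℂ) (Complex.exp (tpi * (x : ℂ))) =
            Complex.exp (tpi * ((-x : ℝ) : ℂ)) := by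
          rw [← Complex.exp_conj]
          congr 1
          rw [map_mul, Complex.conj_ofReal, tpi_eq, map_mul, Complex.conj_ofReal, Complex.conj_I]
          push_cast
          ring
        have e4 : ‖Complex.exp (tpi * ((-x : ℝ) : ℂ))‖ = 1 := by
          rw [Complex.norm_exp, tpi_eq]
          simp
        rw [e3, hAg _ e4, h1 _ e4]
        rw [← e3]
        rw [← map_one (starRingEnd ℂ), ← map_sub, Complex.norm_conj]
        simpa using hx
      -- so β x + x is an integer near 0, contradiction with monotonicity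
      have hcont : ContinuousAt (fun x : ℝ => Complex.exp (tpi * (x : ℂ)) - 1) 0 := by
        fun_prop
      obtain ⟨ε, hε, hεx⟩ := Metric.continuousAt_iff.1 hcont δ hδ
      simp only [dist_eq_norm, Complex.ofReal_zero, mul_zero, Complex.exp_zero, sub_self,
        sub_zero] at hεx
      have hint : ∀ x : ℝ, |x| < ε → ∃ n : ℤ, β x + x = n := by
        intro x hx
        obtain ⟨n, hn⟩ := Complex.exp_eq_exp_iff_exists_int.1 (key x (hεx hx))
        refine ⟨n, ?_⟩
        have h3 : (tpi : ℂ) * ((β x + x : ℝ) : ℂ) = tpi * (n : ℂ) := by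
          have : (2 * (Real.pi : ℂ) * Complex.I) = tpi := rfl
          rw [this] at hn
          push_cast at hn ⊢
          linear_combination hn
        exact_mod_cast mul_left_cancel₀ tpi_ne h3
      -- continuity at 0
      have hc2 : ContinuousAt (fun x : ℝ => β x + x) 0 := (hβ1.add continuous_id).continuousAt
      obtain ⟨ε2, hε2, hε2x⟩ := Metric.continuousAt_iff.1 hc2 1 one_pos
      have hx0 : (0 : ℝ) < min ε ε2 / 2 := by positivity
      have h3 : min ε ε2 / 2 < ε := by
        have := min_le_left ε ε2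
        linarith
      have h4 : min ε ε2 / 2 < ε2 := by
        have := min_le_right ε ε2
        linarith
      obtain ⟨n, hn⟩ := hint (min ε ε2 / 2) (by rw [abs_of_pos hx0]; exact h3)
      obtain ⟨m, hm⟩ := hint 0 (by simpa using hε)
      have h5 := hε2x (x := min ε ε2 / 2) (by
        rw [Real.dist_eq, sub_zero, abs_of_pos hx0]
        exact h4)
      rw [Real.dist_eq, hn, hm] at h5
      have h6 : n = m := by
        have h7 : |n - m| < 1 := by exact_mod_cast h5
        have := Int.abs_lt_one_iff.1 h7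
        omega
      have h8 := hβ2 hx0
      rw [h6] at hn
      linarith
  -- exponentials
  have hexp : ∀ x : ℝ, A (Complex.exp (tpi * (x : ℂ))) = Complex.exp (tpi * ((α x : ℝ) : ℂ)) := by
    intro x
    rw [hα4, cone_exp hα3]
    congr 1
    apply Complex.ext
    · rw [circM_re, tpi_eq]; simp
    · rw [circM_im]
      have : (tpi * (x : ℂ)).im / (2 * Real.pi) = x := by
        have := two_pi_ne
        rw [tpi_eq]
        simp
      rw [this, tpi_eq]
      simp
  -- integers
  have hint : ∀ (a : ℝ) (x : ℝ), Complex.exp (tpi * ((α x : ℝ) : ℂ)) =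
      Complex.exp (tpi * (x : ℂ)) → ∃ n : ℤ, α x - x = n := by
    intro a x hx
    obtain ⟨n, hn⟩ := Complex.exp_eq_exp_iff_exists_int.1 hx
    refine ⟨n, ?_⟩
    have h3 : (tpi : ℂ) * ((α x - x : ℝ) : ℂ) = tpi * (n : ℂ) := by
      have : (2 * (Real.pi : ℂ) * Complex.I) = tpi := rfl
      rw [this] at hn
      push_cast at hn ⊢
      linear_combination hn
    exact_mod_cast mul_left_cancel₀ tpi_ne h3
  have hnorm : ∀ x : ℝ, ‖Complex.exp (tpi * (x : ℂ))‖ = 1 := by
    intro x
    rw [Complex.norm_exp, tpi_eq]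
    simp
  have hloc : ∀ x0 : ℝ, (∀ᶠ x in 𝓝 x0, ∃ n : ℤ, α x - x = n) → ∃ n : ℤ, ∀ᶠ x in 𝓝 x0,
      α x - x = n := by
    intro x0 hx0
    obtain ⟨n, hn⟩ := hx0.self_of_nhds
    refine ⟨n, ?_⟩
    have hc : ContinuousAt (fun x : ℝ => α x - x) x0 := (hα1.sub continuous_id).continuousAt
    have h3 := hc.eventually (ball_mem_nhds _ (one_pos : (0:ℝ) < 1))
    filter_upwards [hx0, h3] with x ⟨m, hm⟩ hx
    rw [Real.dist_eq, hm, hn] at hx
    have h7 : |m - n| < 1 := by exact_mod_cast hx
    have := Int.abs_lt_one_iff.1 h7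
    rw [hm]
    congr 1
    omega
  have hce : ∀ x0 : ℝ, ContinuousAt (fun x : ℝ => Complex.exp (tpi * (x : ℂ))) x0 := by
    intro x0
    fun_prop
  have hhalf : Complex.exp (tpi * ((1 / 2 : ℝ) : ℂ)) = -1 := by
    have : (tpi : ℂ) * ((1 / 2 : ℝ) : ℂ) = Real.pi * Complex.I := by
      rw [tpi_eq]
      push_cast
      ring
    rw [this, Complex.exp_pi_mul_I]
  obtain ⟨n0, hn0⟩ := hloc 0 (by
    have h3 := (hce 0).eventually (ball_mem_nhds _ hδ)
    filter_upwards [h3] with x hx
    apply hint 0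
    rw [← hexp, hAg _ (hnorm x), h1 _ (hnorm x)]
    rw [dist_eq_norm] at hx
    simpa using hx)
  obtain ⟨n1, hn1⟩ := hloc (1 / 2) (by
    have h3 := (hce (1 / 2)).eventually (ball_mem_nhds _ hδ)
    filter_upwards [h3] with x hx
    apply hint 0
    rw [← hexp, hAg _ (hnorm x), h2 _ (hnorm x)]
    rw [dist_eq_norm, hhalf, sub_neg_eq_add] at hx
    exact hx)
  have hn01 : n1 = n0 := by
    have a0 := hn0.self_of_nhds
    have a1 := hn1.self_of_nhds
    have m1 := hα2 (show (0 : ℝ) < 1 / 2 by norm_num)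
    have m2 := hα2 (show (1 / 2 : ℝ) < 0 + 1 by norm_num)
    rw [hα3] at m2
    have b1 : (n0 : ℝ) - 1 < n1 := by linarith
    have b2 : (n1 : ℝ) < n0 + 1 := by linarith
    have c1 : n0 - 1 < n1 := by exact_mod_cast b1
    have c2 : n1 < n0 + 1 := by exact_mod_cast b2
    omega
  rw [hn01] at hn1
  obtain ⟨α', hα'⟩ : ∃ α' : ℝ → ℝ, α' = fun x => α x - n0 := ⟨_, rfl⟩
  have k1 : Continuous α' := by rw [hα']; exact hα1.sub continuous_const
  have k2 : StrictMono α' := by
    rw [hα']
    intro x y hxy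
    have := hα2 hxy
    simp only
    linarith
  have k3 : ∀ x, α' (x + 1) = α' x + 1 := by
    intro x
    rw [hα']
    simp only [hα3]
    ring
  have k4 : ∀ z, cone α' z = cone α z := by
    intro z
    by_cases hz : z = 0
    · rw [hz, cone_zero, cone_zero]
    · obtain ⟨w, rfl⟩ : ∃ w, Complex.exp w = z := ⟨Complex.log z, Complex.exp_log hz⟩
      rw [cone_exp k3, cone_exp hα3]
      have e2 : circM α w = circM α' w + n0 * tpi := by
        simp only [circM, hα']
        push_cast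
        ring
      rw [e2, Complex.exp_add, exp_int_tpi, mul_one]
  have k5 : ∀ᶠ x in 𝓝 (0 : ℝ), α' x = x := by
    filter_upwards [hn0] with x hx
    rw [hα']
    simp only
    linarith
  have k6 : ∀ᶠ x in 𝓝 (1 / 2 : ℝ), α' x = x := by
    filter_upwards [hn1] with x hx
    rw [hα']
    simp only
    linarith
  have harg : ContinuousAt (fun z : ℂ => (Complex.log z).im / (2 * Real.pi)) 1 := by
    have : ContinuousAt (fun z : ℂ => (Complex.log z).im) 1 :=
      Complex.continuous_im.continuousAt.comp (continuousAt_clog (by simp))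
    exact this.div_const _
  have harg0 : (Complex.log (1 : ℂ)).im / (2 * Real.pi) = 0 := by simp
  have k5' : ∀ᶠ z in 𝓝 (1 : ℂ), z ≠ 0 ∧ α' ((Complex.log z).im / (2 * Real.pi)) =
      (Complex.log z).im / (2 * Real.pi) := by
    have h3 := harg.eventually (p := fun x => α' x = x) (by simp only [harg0]; exact k5)
    filter_upwards [h3, isOpen_ne.mem_nhds (one_ne_zero : (1 : ℂ) ≠ 0)] with z hz hz'
    exact ⟨hz', hz⟩
  have k6' : ∀ᶠ z in 𝓝 (1 : ℂ), z ≠ 0 ∧ α' ((Complex.log z).im / (2 * Real.pi) + 1 / 2) =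
      (Complex.log z).im / (2 * Real.pi) + 1 / 2 := by
    have h4 : ContinuousAt (fun z : ℂ => (Complex.log z).im / (2 * Real.pi) + 1 / 2) 1 :=
      harg.add continuousAt_const
    have h3 := h4.eventually (p := fun x => α' x = x) (by
      simp only [harg0, zero_add]
      exact k6)
    filter_upwards [h3, isOpen_ne.mem_nhds (one_ne_zero : (1 : ℂ) ≠ 0)] with z hz hz'
    exact ⟨hz', hz⟩
  obtain ⟨δ', hδ', hδ1⟩ := Metric.eventually_nhds_iff.1 (k5'.and k6')
  refine ⟨δ', hδ', fun η hη => ?_⟩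
  obtain ⟨G, g1, g2, g3, g4⟩ := interp k1 k2 k3 hη
  refine ⟨G, g1, fun z hz => ?_, g3, fun z hz => ?_, fun z hz => ?_⟩
  · rw [g2 z hz.ge, k4, ← hα4, hAg z hz]
  · obtain ⟨⟨h3, h4⟩, -⟩ := hδ1 (y := z) (by rw [dist_eq_norm]; exact hz)
    have h5 := g4 (Complex.log z) h4
    rwa [Complex.exp_log h3] at h5
  · obtain ⟨-, ⟨h3, h4⟩⟩ := hδ1 (y := -z) (by
      rw [dist_eq_norm, ← norm_neg]
      have : -(-z - 1) = z + 1 := by ring
      rw [this]
      exact hz)
    have e1 : Complex.exp (Complex.log (-z) + Real.pi * Complex.I) = z := by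
      rw [Complex.exp_add, Complex.exp_log h3, Complex.exp_pi_mul_I]
      ring
    have h5 := g4 (Complex.log (-z) + Real.pi * Complex.I) (by
      have e2 : (Complex.log (-z) + Real.pi * Complex.I).im / (2 * Real.pi) =
          (Complex.log (-z)).im / (2 * Real.pi) + 1 / 2 := by
        simp only [Complex.add_im, Complex.mul_im, Complex.ofReal_re, Complex.I_im, mul_one,
          Complex.ofReal_im, Complex.I_re, mul_zero, add_zero]
        have := Real.pi_ne_zero
        field_simp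
      rw [e2]
      exact h4)
    rwa [e1] at h5

end Pool.Agent.D0H72.AP
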