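import Pool.Agent.D0H72.AP.Strip

/-! From the strip to the disc -/

set_option autoImplicit false

open Set Filter Topology Metric Function
open scoped ContDiff

noncomputable section

namespace Pool.Agent.D0H72.AP

open Pool.Agent.Helper984_CP Pool.Agent.N550.KH

/-- the disc map of a strip map -/
def dt (T : ℂ → ℂ) (z : ℂ) : ℂ :=
  if z = 1 ∨ z = -1 then z else cy (Complex.exp (-T (-Complex.log (cy z))))

theorem cy_ne_zero {z : ℂ} (h1 : z ≠ 1) (h2 : 1 + z ≠ 0) : cy z ≠ 0 := by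
  rw [cy]
  refine div_ne_zero ?_ h2
  intro h
  apply h1
  linear_combination -h

/-- the data of a point of the closed disc -/
theorem pt {z : ℂ} (hz : ‖z‖ ≤ 1) (h1 : z ≠ 1) (h2 : z ≠ -1) :
    1 + z ≠ 0 ∧ 0 ≤ (cy z).re ∧ cy z ≠ 0 ∧ |(-Complex.log (cy z)).im| ≤ Real.pi / 2 ∧
      Complex.exp (-(-Complex.log (cy z))) = cy z ∧
      (‖z‖ < 1 → 0 < (cy z).re ∧ |(-Complex.log (cy z)).im| < Real.pi / 2) ∧
      (‖z‖ = 1 → |(-Complex.log (cy z)).im| = Real.pi / 2) := by
  have h3 : 1 + z ≠ 0 := fun h => h2 (by linear_combination h)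
  have h4 : 0 < ‖1 + z‖ ^ 2 := by
    have := norm_pos_iff.2 h3
    positivity
  have h5 : cy z ≠ 0 := cy_ne_zero h1 h3
  have h6 : ‖z‖ ^ 2 ≤ 1 := pow_le_one₀ (norm_nonneg z) hz
  have h7 : 0 ≤ (cy z).re := by
    rw [cy_re]
    exact div_nonneg (by linarith) h4.le
  have h8 : (-Complex.log (cy z)).im = -(cy z).arg := by
    rw [Complex.neg_im, Complex.log_im]
  refine ⟨h3, h7, h5, ?_, ?_, fun h => ?_, fun h => ?_⟩
  · rw [h8, abs_neg]
    exact Complex.abs_arg_le_pi_div_two_iff.2 h7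
  · rw [neg_neg, Complex.exp_log h5]
  · have h9 : 0 < (cy z).re := by
      rw [cy_re]
      exact div_pos (by
        have : ‖z‖ ^ 2 < 1 := pow_lt_one₀ (norm_nonneg z) h two_ne_zero
        linarith) h4
    refine ⟨h9, ?_⟩
    rw [h8, abs_neg]
    exact Complex.abs_arg_lt_pi_div_two_iff.2 (Or.inl h9)
  · have h9 : (cy z).re = 0 := by
      rw [cy_re, h]
      simp
    rw [h8, abs_neg]
    refine le_antisymm (Complex.abs_arg_le_pi_div_two_iff.2 h7) ?_
    by_contra hc
    push Not at hc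
    rcases Complex.abs_arg_lt_pi_div_two_iff.1 hc with h10 | h10
    · linarith
    · exact h5 h10

theorem exp_re_nonneg {s : ℂ} (h : |s.im| ≤ Real.pi / 2) : 0 ≤ (Complex.exp (-s)).re := by
  rw [Complex.exp_re, Complex.neg_im, Real.cos_neg]
  have h1 := abs_le.1 h
  exact mul_nonneg (Real.exp_pos _).le (Real.cos_nonneg_of_neg_pi_div_two_le_of_le h1.1 h1.2)

theorem exp_re_pos {s : ℂ} (h : |s.im| < Real.pi / 2) : 0 < (Complex.exp (-s)).re := by
  rw [Complex.exp_re, Complex.neg_im, Real.cos_neg]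
  have h1 := abs_lt.1 h
  exact mul_pos (Real.exp_pos _) (Real.cos_pos_of_mem_Ioo ⟨h1.1, h1.2⟩)

theorem exp_re_zero {s : ℂ} (h : |s.im| = Real.pi / 2) : (Complex.exp (-s)).re = 0 := by
  rw [Complex.exp_re, Complex.neg_im, Real.cos_neg, ← Real.cos_abs, h, Real.cos_pi_div_two,
    mul_zero]

/-- the image of a point of the strip -/
theorem cy_exp_ne {s : ℂ} (h : |s.im| ≤ Real.pi / 2) : cy (Complex.exp (-s)) ≠ 1 ∧
    cy (Complex.exp (-s)) ≠ -1 ∧ -Complex.log (cy (cy (Complex.exp (-s)))) = s := by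
  have h1 := exp_re_nonneg h
  have h2 := one_add_ne h1
  refine ⟨fun h3 => ?_, fun h3 => ?_, ?_⟩
  · rw [cy, div_eq_one_iff_eq h2] at h3
    apply Complex.exp_ne_zero (-s)
    linear_combination (-1 / 2 : ℂ) * h3
  · rw [cy, div_eq_iff h2] at h3
    have : (2 : ℂ) = 0 := by linear_combination h3
    norm_num at this
  · rw [cy_cy h2]
    have h3 := abs_le.1 h
    have hpi := Real.pi_pos
    rw [Complex.log_exp]
    · ring
    · rw [Complex.neg_im]
      linarith [h3.2]
    · rw [Complex.neg_im]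
      linarith [h3.1]

theorem dt_of_ne {T : ℂ → ℂ} {z : ℂ} (h1 : z ≠ 1) (h2 : z ≠ -1) :
    dt T z = cy (Complex.exp (-T (-Complex.log (cy z)))) := by
  rw [dt, if_neg]
  rintro (h | h)
  · exact h1 h
  · exact h2 h

theorem dt_one (T : ℂ → ℂ) : dt T 1 = 1 := by simp [dt]
theorem dt_neg_one (T : ℂ → ℂ) : dt T (-1) = -1 := by simp [dt]

theorem dt_comp {T T' : ℂ → ℂ} {B : ℝ} (hT : StripMap T B) (h : ∀ s, T' (T s) = s) {z : ℂ}
    (hz : ‖z‖ ≤ 1) : dt T' (dt T z) = z := by
  by_cases h1 : z = 1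
  · rw [h1, dt_one, dt_one]
  by_cases h2 : z = -1
  · rw [h2, dt_neg_one, dt_neg_one]
  obtain ⟨p1, p2, p3, p4, p5, -, -⟩ := pt hz h1 h2
  obtain ⟨q1, q2, q3⟩ := cy_exp_ne (hT.le p4)
  rw [dt_of_ne h1 h2, dt_of_ne q1 q2, q3, h, p5, cy_cy p1]

theorem cy_neg {z : ℂ} (h1 : z ≠ 1) (h2 : 1 + z ≠ 0) : cy (-z) = (cy z)⁻¹ := by
  have h3 : 1 - z ≠ 0 := fun h => h1 (by linear_combination -h)
  rw [cy, cy, inv_div]
  congr 1
  ring

theorem cy_inv {E : ℂ} (h : E ≠ 0) (h1 : 1 + E ≠ 0) : cy E⁻¹ = -cy E := by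
  have h2 : 1 + E⁻¹ ≠ 0 := by
    intro h3
    apply h1
    have : 1 + E = (1 + E⁻¹) * E := by
      field_simp
      ring
    rw [this, h3, zero_mul]
  rw [cy, cy, div_eq_iff h2]
  field_simp
  ring

/-- symmetry -/
theorem dt_neg {T : ℂ → ℂ} {B : ℝ} (hT : StripMap T B) {z : ℂ} (hz : ‖z‖ ≤ 1) :
    dt T z = -dt (fun s => -T (-s)) (-z) := by
  by_cases h1 : z = 1
  · rw [h1, dt_one, dt_neg_one, neg_neg]
  by_cases h2 : z = -1
  · rw [h2, neg_neg, dt_one, dt_neg_one]
  obtain ⟨p1, p2, p3, p4, p5, -, -⟩ := pt hz h1 h2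
  have h1' : -z ≠ 1 := fun h => h2 (by rw [← h, neg_neg])
  have h2' : -z ≠ -1 := fun h => h1 (by simpa using h)
  have hl : Complex.log (cy (-z)) = -Complex.log (cy z) := by
    rw [cy_neg h1 p1, Complex.log_inv]
    intro h
    have h3 := Complex.abs_arg_le_pi_div_two_iff.2 p2
    rw [h] at h3
    have hpi := Real.pi_pos
    rw [abs_of_pos hpi] at h3
    linarith
  rw [dt_of_ne h1 h2, dt_of_ne h1' h2', hl]
  simp only [neg_neg]
  rw [Complex.exp_neg]
  have h3 := exp_re_nonneg (hT.le p4)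
  rw [Complex.exp_neg] at h3
  have h4 := one_add_ne h3
  have h5 := Complex.exp_ne_zero (T (-Complex.log (cy z)))
  have h6 : 1 + Complex.exp (T (-Complex.log (cy z))) ≠ 0 := by
    intro h
    apply h4
    have : 1 + (Complex.exp (T (-Complex.log (cy z))))⁻¹ =
        (1 + Complex.exp (T (-Complex.log (cy z)))) * (Complex.exp (T (-Complex.log (cy z))))⁻¹ := by
      field_simp
      ring
    rw [this, h, zero_mul]
  exact cy_inv h5 h6

theorem dt_at_one {T : ℂ → ℂ} {B : ℝ} (hT : StripMap T B) :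
    ContinuousWithinAt (dt T) (closedBall 0 1) 1 := by
  have hcy : Tendsto cy (𝓝 0) (𝓝 1) := by
    have := (cy_cont (q := 0) (by simp)).tendsto
    rwa [show cy 0 = 1 by simp [cy]] at this
  have hcy1 : Tendsto cy (𝓝 1) (𝓝 0) := by
    have := (cy_cont (q := 1) (by norm_num)).tendsto
    rwa [show cy 1 = 0 by simp [cy]] at this
  -- the bound
  have hb : ∀ z : ℂ, ‖z‖ ≤ 1 → z ≠ 1 → z ≠ -1 →
      ‖Complex.exp (-T (-Complex.log (cy z)))‖ ≤ Real.exp B * ‖cy z‖ := by
    intro z hz h1 h2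
    obtain ⟨p1, p2, p3, p4, p5, -, -⟩ := pt hz h1 h2
    rw [Complex.norm_exp, Complex.neg_re]
    have h3 := (Complex.abs_re_le_norm _).trans (hT.bdd (-Complex.log (cy z)))
    rw [Complex.sub_re] at h3
    have h4 := (abs_le.1 h3).1
    have h5 : (-Complex.log (cy z)).re = -Real.log ‖cy z‖ := by
      rw [Complex.neg_re, Complex.log_re]
    calc Real.exp (-(T (-Complex.log (cy z))).re) ≤ Real.exp (B + Real.log ‖cy z‖) := by
          apply Real.exp_le_exp.2
          linarith
      _ = Real.exp B * ‖cy z‖ := by rw [Real.exp_add, Real.exp_log (norm_pos_iff.2 p3)]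
  rw [ContinuousWithinAt, dt_one]
  -- a function which tends to zero
  have hN : Tendsto (fun z : ℂ => if z = 1 ∨ z = -1 then (0 : ℂ) else
      Complex.exp (-T (-Complex.log (cy z)))) (𝓝[closedBall 0 1] 1) (𝓝 0) := by
    rw [tendsto_zero_iff_norm_tendsto_zero]
    have h1 : Tendsto (fun z : ℂ => Real.exp B * ‖cy z‖) (𝓝[closedBall 0 1] 1) (𝓝 0) := by
      have h2 := ((hcy1.norm).const_mul (Real.exp B)).mono_left
        (nhdsWithin_le_nhds (s := closedBall (0 : ℂ) 1))
      simpa using h2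
    refine squeeze_zero' (Eventually.of_forall fun z => norm_nonneg _) ?_ h1
    filter_upwards [self_mem_nhdsWithin] with z hz
    split_ifs with h
    · rw [norm_zero]
      positivity
    · rw [not_or] at h
      exact hb z (mem_closedBall_zero_iff.1 hz) h.1 h.2
  refine (hcy.comp hN).congr' ?_
  have hne : ∀ᶠ z in 𝓝[closedBall 0 1] (1 : ℂ), z ≠ -1 := by
    have h3 : (1 : ℂ) ≠ -1 := by norm_num
    exact nhdsWithin_le_nhds (isOpen_ne.mem_nhds h3)
  filter_upwards [hne] with z hz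
  simp only [Function.comp_apply]
  by_cases h1 : z = 1
  · rw [h1, dt_one, if_pos (Or.inl rfl)]
    simp [cy]
  · rw [dt_of_ne h1 hz, if_neg]
    rintro (h | h)
    · exact h1 h
    · exact hz h

theorem dt_map {T : ℂ → ℂ} {B : ℝ} (hT : StripMap T B) : DiscMap (dt T) where
  cont := by
    intro z hz
    have hz' := mem_closedBall_zero_iff.1 hz
    by_cases h1 : z = 1
    · rw [h1]
      exact dt_at_one hT
    by_cases h2 : z = -1
    · have h3 := dt_at_one hT.neg
      have h4 : ContinuousWithinAt (fun z : ℂ => -dt (fun s => -T (-s)) (-z))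
          (closedBall 0 1) (-1) := by
        apply ContinuousWithinAt.neg
        refine ContinuousWithinAt.comp (t := closedBall 0 1) (g := dt (fun s => -T (-s)))
          (f := fun z : ℂ => -z) (x := -1) (by rw [neg_neg]; exact h3)
          continuous_neg.continuousWithinAt ?_
        intro w hw
        rw [mem_closedBall_zero_iff] at hw ⊢
        rwa [norm_neg]
      rw [h2]
      refine h4.congr (fun w hw => dt_neg hT (mem_closedBall_zero_iff.1 hw)) ?_
      exact dt_neg hT (by simp)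
    · obtain ⟨p1, p2, p3, p4, p5, -, -⟩ := pt hz' h1 h2
      apply ContinuousAt.continuousWithinAt
      have hsl : cy z ∈ Complex.slitPlane := by
        rcases p2.lt_or_eq with h | h
        · left; exact h
        · right
          intro h3
          exact p3 (Complex.ext h.symm h3)
      have c1 : ContinuousAt (fun z => -Complex.log (cy z)) z := ((cy_cont p1).clog hsl).neg
      have c2 : ContinuousAt (fun z => T (-Complex.log (cy z))) z :=
        ContinuousAt.comp (g := T) (f := fun z => -Complex.log (cy z)) hT.cont.continuousAt c1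
      have c3 : ContinuousAt (fun z => Complex.exp (-T (-Complex.log (cy z)))) z := c2.neg.cexp
      have c4 : ContinuousAt (fun z => cy (Complex.exp (-T (-Complex.log (cy z))))) z :=
        ContinuousAt.comp (g := cy) (f := fun z => Complex.exp (-T (-Complex.log (cy z))))
          (cy_cont (one_add_ne (exp_re_nonneg (hT.le p4)))) c3
      refine c4.congr ?_
      filter_upwards [isOpen_ne.mem_nhds h1, isOpen_ne.mem_nhds h2] with w hw1 hw2
      exact (dt_of_ne hw1 hw2).symm
  inner z hz := by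
    have h1 : z ≠ 1 := by
      intro h
      rw [h, norm_one] at hz
      exact lt_irrefl _ hz
    have h2 : z ≠ -1 := by
      intro h
      rw [h, norm_neg, norm_one] at hz
      exact lt_irrefl _ hz
    obtain ⟨p1, p2, p3, p4, p5, p6, -⟩ := pt hz.le h1 h2
    rw [dt_of_ne h1 h2]
    exact cy_lt (exp_re_pos (hT.inner _ (p6 hz).2))
  bdry z hz := by
    by_cases h1 : z = 1
    · rw [h1, dt_one, norm_one]
    by_cases h2 : z = -1
    · rw [h2, dt_neg_one, norm_neg, norm_one]
    obtain ⟨p1, p2, p3, p4, p5, -, p7⟩ := pt hz.le h1 h2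
    rw [dt_of_ne h1 h2]
    exact cy_eq_one (exp_re_zero (hT.bdry _ (p7 hz)))

theorem dt_iso {T : ℂ ≃ₜ ℂ} {B : ℝ} (hT : StripMap T B) (hT' : StripMap T.symm B) :
    DIso (dt T) (dt T.symm) where
  map := dt_map hT
  inv := dt_map hT'
  right z hz := dt_comp hT' (fun s => T.apply_symm_apply s) hz
  left z hz := dt_comp hT (fun s => T.symm_apply_apply s) hz

/-- `cy` is a local diffeomorphism -/
theorem cy_sm {q : ℂ} (h : 1 + q ≠ 0) : Sm cy q := by
  have ho : IsOpen {q : ℂ | 1 + q ≠ 0} := isOpen_ne_fun (by fun_prop) (by fun_prop)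
  refine (Good.of_inj ho (fun w hw => (cy_diff hw).differentiableWithinAt) ?_ h).sm
  intro a ha b hb hab
  have := congrArg cy hab
  rwa [cy_cy ha, cy_cy hb] at this

theorem neg_sm (z : ℂ) : Sm (fun z => -z) z := by
  refine (Good.of_inj isOpen_univ (by fun_prop) ?_ (mem_univ z)).sm
  intro a _ b _ h
  simpa using h

theorem dt_sm {T : ℂ → ℂ} {B : ℝ} (hT : StripMap T B) (hs : ContDiff ℝ ∞ T)
    (hd : ∀ s, 0 < (fderiv ℝ T s).det) {z : ℂ} (hz : ‖z‖ < 1) : Sm (dt T) z := by
  have h1 : z ≠ 1 := by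
    intro h
    rw [h, norm_one] at hz
    exact lt_irrefl _ hz
  have h2 : z ≠ -1 := by
    intro h
    rw [h, norm_neg, norm_one] at hz
    exact lt_irrefl _ hz
  obtain ⟨p1, p2, p3, p4, p5, p6, -⟩ := pt hz.le h1 h2
  have hsl : cy z ∈ Complex.slitPlane := Or.inl (p6 hz).1
  have hlog : Sm Complex.log (cy z) := by
    apply Sm.of_hol (analyticAt_clog hsl)
    rw [(Complex.hasStrictDerivAt_log hsl).hasDerivAt.deriv]
    exact inv_ne_zero p3
  have hexp : ∀ w, Sm Complex.exp w := by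
    intro w
    apply Sm.of_hol analyticAt_cexp
    rw [Complex.deriv_exp]
    exact Complex.exp_ne_zero w
  have s1 := (neg_sm _).comp (hlog.comp (cy_sm p1))
  have s2 := Sm.comp (f := T) (g := fun z => -Complex.log (cy z)) ⟨hs.contDiffAt, hd _⟩ s1
  have s3 := (hexp _).comp ((neg_sm _).comp s2)
  have s4 := Sm.comp (f := cy) (g := fun z => Complex.exp (-T (-Complex.log (cy z))))
    (cy_sm (one_add_ne (exp_re_nonneg (hT.le p4)))) s3
  refine s4.congr ?_
  filter_upwards [isOpen_ne.mem_nhds h1, isOpen_ne.mem_nhds h2] with w hw1 hw2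
  exact dt_of_ne hw1 hw2

end Pool.Agent.D0H72.AP
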