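import Mathlib

/-! Small perturbations of the identity of the strip with given ends -/

set_option autoImplicit false

open Set Filter Topology Metric Function
open scoped ContDiff

noncomputable section

namespace Pool.Agent.D0H72.AP

theorem st_deriv_bound : ∃ M : ℝ, 0 ≤ M ∧ ∀ x, |deriv Real.smoothTransition x| ≤ M := by
  have hc : Continuous (deriv Real.smoothTransition) :=
    (Real.smoothTransition.contDiff (n := 1)).continuous_deriv (by simp)
  obtain ⟨M, hM⟩ := (isCompact_Icc (a := (0 : ℝ)) (b := 1)).exists_bound_of_continuousOn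
    hc.continuousOn
  refine ⟨max M 0, le_max_right _ _, fun x => ?_⟩
  by_cases hx : x ∈ Icc (0 : ℝ) 1
  · exact (hM x hx).trans (le_max_left _ _)
  · have h0 : deriv Real.smoothTransition x = 0 := by
      rw [mem_Icc, not_and_or, not_le, not_le] at hx
      rcases hx with hx | hx
      · have h1 : Real.smoothTransition =ᶠ[𝓝 x] fun _ => 0 := by
          filter_upwards [gt_mem_nhds hx] with y hy
          exact Real.smoothTransition.zero_of_nonpos hy.le
        rw [h1.deriv_eq, deriv_const]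
      · have h1 : Real.smoothTransition =ᶠ[𝓝 x] fun _ => 1 := by
          filter_upwards [lt_mem_nhds hx] with y hy
          exact Real.smoothTransition.one_of_one_le hy.le
        rw [h1.deriv_eq, deriv_const]
    rw [h0, abs_zero]
    exact le_max_right _ _

theorem st_re {N L : ℝ} {M : ℝ} (hM : ∀ x, |deriv Real.smoothTransition x| ≤ M) (hN : 0 < N)
    (s : ℂ) : ∃ A : ℂ →L[ℝ] ℝ, ‖A‖ ≤ M / N ∧
      HasFDerivAt (fun s : ℂ => Real.smoothTransition ((s.re - L) / N)) A s := by
  have h1 : HasFDerivAt (fun s : ℂ => (s.re - L) / N) ((1 / N) • Complex.reCLM) s := by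
    have h2 : HasFDerivAt (fun s : ℂ => s.re) Complex.reCLM s := Complex.reCLM.hasFDerivAt
    have h3 := (h2.sub_const L).const_mul (1 / N)
    have e : (fun s : ℂ => (s.re - L) / N) = fun s : ℂ => 1 / N * (s.re - L) := by
      funext s
      ring
    rw [e]
    exact h3
  have h2 : HasDerivAt Real.smoothTransition (deriv Real.smoothTransition ((s.re - L) / N))
      ((s.re - L) / N) :=
    ((Real.smoothTransition.contDiff (n := 1)).differentiable (by simp) _).hasDerivAt
  have h4 := HasDerivAt.comp_hasFDerivAt s h2 h1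
  refine ⟨_, ?_, h4⟩
  rw [norm_smul, norm_smul]
  have h3 : ‖Complex.reCLM‖ = 1 := Complex.reCLM_norm
  rw [h3, mul_one, Real.norm_eq_abs, Real.norm_eq_abs, abs_of_pos (by positivity : 0 < 1 / N)]
  rw [div_eq_mul_one_div M N]
  gcongr
  exact hM _

theorem st_smooth (N L : ℝ) : ContDiff ℝ ∞ (fun s : ℂ => Real.smoothTransition ((s.re - L) / N)) :=
  Real.smoothTransition.contDiff.comp ((Complex.reCLM.contDiff.sub contDiff_const).div_const _)

/-- the end correction -/
theorem exists_ec {κ : ℂ → ℂ} {δ : ℝ} (hδ : 0 < δ) (hκ : DifferentiableOn ℂ κ (ball 0 δ))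
    (hκr : ∀ q, ‖q‖ < δ → q.re = 0 → (κ q).im = 0) {ε : ℝ} (hε : 0 < ε) :
    ∃ E : ℂ → ℂ, ContDiff ℝ ∞ E ∧ (∀ s, ‖fderiv ℝ E s‖ ≤ ε) ∧ (∀ s : ℂ, s.re ≤ 0 → E s = 0) ∧
      (∃ L : ℝ, 0 ≤ L ∧ ∀ s : ℂ, L ≤ s.re → E s = κ (Complex.exp (-s))) ∧
      (∀ s : ℂ, |s.im| = Real.pi / 2 → (E s).im = 0) ∧ ∃ B : ℝ, ∀ s, ‖E s‖ ≤ B := by
  obtain ⟨M, hM0, hM⟩ := st_deriv_bound
  have hc0 : (κ 0).im = 0 := hκr 0 (by simpa using hδ) (by simp)
  obtain ⟨N, hN0, hN⟩ : ∃ N : ℝ, 0 < N ∧ ‖κ 0‖ * (M / N) ≤ ε / 2 := by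
    refine ⟨2 * (‖κ 0‖ * M) / ε + 1, by positivity, ?_⟩
    rw [← mul_div_assoc, div_le_iff₀ (by positivity)]
    have h1 : ε / 2 * (2 * (‖κ 0‖ * M) / ε + 1) = ‖κ 0‖ * M + ε / 2 := by
      field_simp
    rw [h1]
    linarith
  obtain ⟨m, hm⟩ : ∃ m : ℂ → ℂ, m = fun q => κ q - κ 0 := ⟨_, rfl⟩
  have hmd : DifferentiableOn ℂ m (ball 0 δ) := by
    rw [hm]
    exact hκ.sub_const _
  have hma : AnalyticAt ℂ m 0 := hmd.analyticAt (ball_mem_nhds 0 hδ)
  obtain ⟨ε₁, hε₁, hε₁'⟩ : ∃ ε₁ : ℝ, 0 < ε₁ ∧ ε₁ + M * ε₁ ≤ ε / 2 := by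
    refine ⟨ε / (2 * (1 + M)), by positivity, ?_⟩
    have : ε / (2 * (1 + M)) + M * (ε / (2 * (1 + M))) = ε / 2 := by
      field_simp
    rw [this]
  have hev : ∀ᶠ q in 𝓝 (0 : ℂ), (‖m q‖ < ε₁ ∧ ‖deriv m q * q‖ < ε₁) ∧ q ∈ ball (0 : ℂ) δ := by
    have c1 : ContinuousAt (fun q => ‖m q‖) 0 := hma.continuousAt.norm
    have c2 : ContinuousAt (fun q => ‖deriv m q * q‖) 0 :=
      (hma.deriv.continuousAt.mul continuousAt_id).norm
    have e1 : ‖m 0‖ = 0 := by rw [hm]; simp
    have e2 : ‖deriv m 0 * 0‖ = 0 := by simp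
    exact ((c1.eventually (gt_mem_nhds (by simp only [e1]; exact hε₁))).and
      (c2.eventually (gt_mem_nhds (by simp only [e2]; exact hε₁)))).and (ball_mem_nhds 0 hδ)
  obtain ⟨r, hr, hrq⟩ := Metric.eventually_nhds_iff.1 hev
  obtain ⟨L', hL'0, hL'N, hL'r⟩ : ∃ L' : ℝ, 0 ≤ L' ∧ N ≤ L' ∧ Real.exp (-L') < r := by
    refine ⟨max N (-Real.log r + 1), hN0.le.trans (le_max_left _ _), le_max_left _ _, ?_⟩
    have h1 : -Real.log r + 1 ≤ max N (-Real.log r + 1) := le_max_right _ _
    calc Real.exp (-max N (-Real.log r + 1)) < Real.exp (Real.log r) := by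
          apply Real.exp_lt_exp.2
          linarith
      _ = r := Real.exp_log hr
  have hnr : ∀ s : ℂ, L' < s.re → ‖Complex.exp (-s)‖ < r := by
    intro s hs
    rw [Complex.norm_exp, Complex.neg_re]
    calc Real.exp (-s.re) < Real.exp (-L') := Real.exp_lt_exp.2 (by linarith)
      _ < r := hL'r
  have hq : ∀ s : ℂ, L' < s.re → ‖m (Complex.exp (-s))‖ < ε₁ ∧
      ‖deriv m (Complex.exp (-s)) * Complex.exp (-s)‖ < ε₁ ∧ ‖Complex.exp (-s)‖ < δ := by
    intro s hs
    obtain ⟨⟨h1, h2⟩, h3⟩ := hrq (y := Complex.exp (-s)) (by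
      rw [dist_zero_right]
      exact hnr s hs)
    exact ⟨h1, h2, mem_ball_zero_iff.1 h3⟩
  obtain ⟨E1, hE1⟩ : ∃ E1 : ℂ → ℂ, E1 = fun s =>
    ((Real.smoothTransition ((s.re - 0) / N) : ℝ) : ℂ) * κ 0 := ⟨_, rfl⟩
  obtain ⟨E2, hE2⟩ : ∃ E2 : ℂ → ℂ, E2 = fun s =>
    Real.smoothTransition ((s.re - (L' + 1)) / 1) • m (Complex.exp (-s)) := ⟨_, rfl⟩
  have hE1s : ContDiff ℝ ∞ E1 := by
    rw [hE1]
    exact (Complex.ofRealCLM.contDiff.comp (st_smooth N 0)).mul contDiff_const
  have hE2z : ∀ s : ℂ, s.re < L' + 1 → E2 =ᶠ[𝓝 s] fun _ => 0 := by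
    intro s hs
    filter_upwards [(isOpen_lt Complex.continuous_re continuous_const).mem_nhds hs] with w hw
    have hw' : w.re < L' + 1 := hw
    rw [hE2]
    simp only
    rw [Real.smoothTransition.zero_of_nonpos (by linarith), zero_smul]
  have hk : ∀ s : ℂ, L' < s.re → HasDerivAt (fun s => m (Complex.exp (-s)))
      (-(deriv m (Complex.exp (-s)) * Complex.exp (-s))) s := by
    intro s hs
    have h1 : HasDerivAt m (deriv m (Complex.exp (-s))) (Complex.exp (-s)) :=
      (hmd.differentiableAt (isOpen_ball.mem_nhds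
        (mem_ball_zero_iff.2 (hq s hs).2.2))).hasDerivAt
    have h2 : HasDerivAt (fun s : ℂ => Complex.exp (-s)) (Complex.exp (-s) * (-1)) s :=
      (hasDerivAt_neg s).cexp
    have h3 := h1.comp s h2
    rw [mul_neg_one, mul_neg] at h3
    exact h3
  have hE2s : ContDiff ℝ ∞ E2 := by
    rw [contDiff_iff_contDiffAt]
    intro s
    rcases lt_or_ge s.re (L' + 1) with hs | hs
    · exact contDiffAt_const.congr_of_eventuallyEq (hE2z s hs)
    · have hs' : L' < s.re := by linarith
      rw [hE2]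
      refine ContDiffAt.smul (f := fun s : ℂ => Real.smoothTransition ((s.re - (L' + 1)) / 1))
        (g := fun s => m (Complex.exp (-s))) ?_ ?_
      · exact (st_smooth 1 (L' + 1)).contDiffAt
      · have h1 : AnalyticAt ℂ (fun s => m (Complex.exp (-s))) s := by
          have ho : IsOpen {w : ℂ | L' < w.re} := isOpen_lt continuous_const Complex.continuous_re
          exact DifferentiableOn.analyticAt (s := {w : ℂ | L' < w.re})
            (fun w hw => (hk w hw).differentiableAt.differentiableWithinAt) (ho.mem_nhds hs')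
        exact h1.contDiffAt.restrict_scalars ℝ
  have hE2d : ∀ s, ‖fderiv ℝ E2 s‖ ≤ ε / 2 := by
    intro s
    rcases lt_or_ge s.re (L' + 1) with hs | hs
    · rw [(hE2z s hs).fderiv_eq]
      simp only [fderiv_fun_const, Pi.zero_apply, norm_zero]
      positivity
    · have hs' : L' < s.re := by linarith
      obtain ⟨A, hA1, hA2⟩ := st_re (N := 1) (L := L' + 1) hM one_pos s
      rw [div_one] at hA1
      have h1 : HasFDerivAt (fun s => m (Complex.exp (-s)))
          ((ContinuousLinearMap.toSpanSingleton ℂ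
            (-(deriv m (Complex.exp (-s)) * Complex.exp (-s)))).restrictScalars ℝ) s :=
        ((hk s hs').hasFDerivAt).restrictScalars ℝ
      have h2 := hA2.smul h1
      rw [hE2]
      have h3 : HasFDerivAt (fun s : ℂ => Real.smoothTransition ((s.re - (L' + 1)) / 1) •
          m (Complex.exp (-s))) _ s := h2
      rw [h3.fderiv]
      refine (norm_add_le _ _).trans ?_
      rw [norm_smul, ContinuousLinearMap.norm_smulRight_apply]
      have n1 : ‖Real.smoothTransition ((s.re - (L' + 1)) / 1)‖ ≤ 1 := by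
        rw [Real.norm_eq_abs, abs_of_nonneg (Real.smoothTransition.nonneg _)]
        exact Real.smoothTransition.le_one _
      have n2 : ‖(ContinuousLinearMap.toSpanSingleton ℂ
          (-(deriv m (Complex.exp (-s)) * Complex.exp (-s)))).restrictScalars ℝ‖ ≤ ε₁ := by
        rw [ContinuousLinearMap.norm_restrictScalars, ContinuousLinearMap.norm_toSpanSingleton,
          norm_neg]
        exact (hq s hs').2.1.le
      have n3 := (hq s hs').1.le
      calc _ ≤ 1 * ε₁ + M * ε₁ := by gcongr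
        _ ≤ ε / 2 := by rw [one_mul]; exact hε₁'
  have hE1d : ∀ s, ‖fderiv ℝ E1 s‖ ≤ ε / 2 := by
    intro s
    obtain ⟨A, hA1, hA2⟩ := st_re (N := N) (L := 0) hM hN0 s
    have h1 : HasFDerivAt (fun s : ℂ => ((Real.smoothTransition ((s.re - 0) / N) : ℝ) : ℂ))
        (Complex.ofRealCLM.comp A) s := Complex.ofRealCLM.hasFDerivAt.comp s hA2
    have h2 := h1.mul_const (κ 0)
    have h3 : fderiv ℝ E1 s = κ 0 • Complex.ofRealCLM.comp A := by
      rw [hE1]
      exact h2.fderiv
    rw [h3, norm_smul]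
    refine le_trans ?_ hN
    gcongr
    refine (ContinuousLinearMap.opNorm_comp_le _ _).trans ?_
    rw [Complex.ofRealCLM_norm, one_mul]
    exact hA1
  refine ⟨fun s => E1 s + E2 s, hE1s.add hE2s, fun s => ?_, fun s hs => ?_, ⟨L' + 2, by linarith,
    fun s hs => ?_⟩, fun s hs => ?_, ⟨‖κ 0‖ + ε₁, fun s => ?_⟩⟩
  · have h1 := (hE1s.differentiable (by simp) s)
    have h2 := (hE2s.differentiable (by simp) s)
    rw [fderiv_fun_add h1 h2]
    refine (norm_add_le _ _).trans ?_
    linarith [hE1d s, hE2d s]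
  · simp only
    rw [(hE2z s (by linarith)).self_of_nhds, hE1]
    simp only
    rw [Real.smoothTransition.zero_of_nonpos (by
      rw [sub_zero]
      exact div_nonpos_of_nonpos_of_nonneg hs hN0.le)]
    simp
  · rw [hE1, hE2, hm]
    simp only
    rw [Real.smoothTransition.one_of_one_le (by
      rw [sub_zero, one_le_div hN0]
      linarith), Real.smoothTransition.one_of_one_le (by
      rw [div_one]
      linarith)]
    simp
  · have hz : (E1 s).im = 0 := by
      rw [hE1]
      simp only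
      rw [Complex.im_ofReal_mul, hc0, mul_zero]
    rw [Complex.add_im, hz, zero_add]
    rcases lt_or_ge s.re (L' + 1) with hs' | hs'
    · rw [(hE2z s hs').self_of_nhds]
      simp
    · rw [hE2, hm]
      simp only
      rw [Complex.smul_im, Complex.sub_im, hc0, sub_zero, hκr _ (hq s (by linarith)).2.2, smul_zero]
      rw [Complex.exp_re, Complex.neg_im]
      have : Real.cos (-s.im) = 0 := by
        rw [← Real.cos_abs, abs_neg, hs, Real.cos_pi_div_two]
      rw [this, mul_zero]
  · refine (norm_add_le _ _).trans ?_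
    gcongr
    · rw [hE1]
      simp only
      rw [norm_mul, Complex.norm_real, Real.norm_of_nonneg (Real.smoothTransition.nonneg _)]
      exact mul_le_of_le_one_left (norm_nonneg _) (Real.smoothTransition.le_one _)
    · rcases lt_or_ge s.re (L' + 1) with hs' | hs'
      · rw [(hE2z s hs').self_of_nhds, norm_zero]
        exact hε₁.le
      · rw [hE2]
        simp only
        rw [norm_smul, Real.norm_of_nonneg (Real.smoothTransition.nonneg _)]
        calc _ ≤ 1 * ε₁ := by
              gcongr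
              · exact Real.smoothTransition.le_one _
              · exact (hq s (by linarith)).1.le
          _ = ε₁ := one_mul _

end Pool.Agent.D0H72.AP
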