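import Pool.Agent.D0H72.AP.Area

/-! Area of images of squares, and area preserving diffeomorphisms near area preserving
homeomorphisms -/

set_option autoImplicit false

open Set Filter Topology Metric Function MeasureTheory
open scoped ContDiff Interval

noncomputable section

namespace Pool.Agent.D0H72.AP

open Pool.Agent.N550.KH Pool.Agent.Helper186

/-- the closed square with lower left corner `z` and side `r` -/
def Sq (z : ℂ) (r : ℝ) : Set ℂ :=
  {w | (z.re ≤ w.re ∧ w.re ≤ z.re + r) ∧ (z.im ≤ w.im ∧ w.im ≤ z.im + r)}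

theorem Sq_eq (z : ℂ) (r : ℝ) : Sq z r = Complex.measurableEquivRealProd ⁻¹'
    (Icc z.re (z.re + r) ×ˢ Icc z.im (z.im + r)) := by
  ext w
  simp only [Sq, mem_setOf_eq, mem_preimage, Complex.measurableEquivRealProd_apply, mem_prod,
    mem_Icc]

theorem isClosed_Sq (z : ℂ) (r : ℝ) : IsClosed (Sq z r) := by
  have : Sq z r = {w : ℂ | z.re ≤ w.re} ∩ {w | w.re ≤ z.re + r} ∩
      ({w | z.im ≤ w.im} ∩ {w | w.im ≤ z.im + r}) := by
    ext w; simp [Sq]
  rw [this]
  refine IsClosed.inter (IsClosed.inter ?_ ?_) (IsClosed.inter ?_ ?_)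
  · exact isClosed_le continuous_const Complex.continuous_re
  · exact isClosed_le Complex.continuous_re continuous_const
  · exact isClosed_le continuous_const Complex.continuous_im
  · exact isClosed_le Complex.continuous_im continuous_const

theorem volume_Sq (z : ℂ) (r : ℝ) (hr : 0 ≤ r) : volume (Sq z r) = ENNReal.ofReal (r ^ 2) := by
  rw [Sq_eq, Complex.volume_preserving_equiv_real_prod.measure_preimage_equiv, 
    Measure.volume_eq_prod, Measure.prod_prod, Real.volume_Icc, Real.volume_Icc]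
  rw [← ENNReal.ofReal_mul (by linarith)]
  congr 1
  ring

theorem isCompact_Sq (z : ℂ) (r : ℝ) : IsCompact (Sq z r) := by
  have h : Sq z r = (fun q : ℝ × ℝ => (q.1 : ℂ) + (q.2 : ℂ) * Complex.I) ''
      (Icc z.re (z.re + r) ×ˢ Icc z.im (z.im + r)) := by
    ext w
    simp only [Sq, mem_setOf_eq, mem_image, mem_prod, mem_Icc, Prod.exists]
    constructor
    · rintro ⟨h1, h2⟩
      exact ⟨w.re, w.im, ⟨h1, h2⟩, Complex.re_add_im w⟩
    · rintro ⟨a, b, ⟨h1, h2⟩, rfl⟩
      simpa using ⟨h1, h2⟩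
  rw [h]
  exact (isCompact_Icc.prod isCompact_Icc).image (by fun_prop)

/-- the double mean is the integral over a unit square -/
theorem box2_eq {J : ℂ → ℝ} (hJ : Continuous J) (z : ℂ) :
    box2 J z = ∫ w in Sq (z - 1 - Complex.I) 1, J w := by
  have e1 : ∀ t : ℝ, box J (z - (t : ℂ) * Complex.I) =
      ∫ x in (z.re - 1)..z.re, J ((x : ℂ) + ((z.im - t : ℝ) : ℂ) * Complex.I) := by
    intro t
    have h := intervalIntegral.integral_comp_sub_left
      (fun x : ℝ => J ((x : ℂ) + ((z.im - t : ℝ) : ℂ) * Complex.I)) (a := 0) (b := 1) z.re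
    rw [sub_zero] at h
    rw [← h, box]
    refine intervalIntegral.integral_congr fun s _ => ?_
    congr 1
    apply Complex.ext <;> simp
  have e2 : box2 J z = ∫ y in (z.im - 1)..z.im, ∫ x in (z.re - 1)..z.re,
      J ((x : ℂ) + (y : ℂ) * Complex.I) := by
    have h := intervalIntegral.integral_comp_sub_left
      (fun y : ℝ => ∫ x in (z.re - 1)..z.re, J ((x : ℂ) + (y : ℂ) * Complex.I))
      (a := 0) (b := 1) z.im
    rw [sub_zero] at h
    rw [← h, box2]
    refine intervalIntegral.integral_congr fun s _ => ?_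
    exact e1 s
  have hc : Continuous (fun q : ℝ × ℝ => J ((q.2 : ℂ) + (q.1 : ℂ) * Complex.I)) :=
    hJ.comp (by fun_prop)
  have e3 : (∫ y in (z.im - 1)..z.im, ∫ x in (z.re - 1)..z.re,
      J ((x : ℂ) + (y : ℂ) * Complex.I)) = ∫ q in Icc (z.im - 1) z.im ×ˢ Icc (z.re - 1) z.re,
      J ((q.2 : ℂ) + (q.1 : ℂ) * Complex.I) ∂(volume.prod volume) := by
    rw [setIntegral_prod]
    · rw [intervalIntegral.integral_of_le (by linarith), integral_Icc_eq_integral_Ioc]
      refine setIntegral_congr_fun measurableSet_Ioc fun y _ => ?_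
      simp only
      rw [intervalIntegral.integral_of_le (by linarith), integral_Icc_eq_integral_Ioc]
    · exact hc.continuousOn.integrableOn_compact (isCompact_Icc.prod isCompact_Icc)
  rw [e2, e3]
  have e4 := setIntegral_prod_swap (μ := (volume : Measure ℝ)) (ν := (volume : Measure ℝ))
    (Icc (z.re - 1) z.re) (Icc (z.im - 1) z.im)
    (fun p : ℝ × ℝ => J ((p.1 : ℂ) + (p.2 : ℂ) * Complex.I))
  simp only [Prod.fst_swap, Prod.snd_swap] at e4
  rw [e4, Sq_eq]
  have e5 := Complex.volume_preserving_equiv_real_prod.setIntegral_preimage_emb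
    Complex.measurableEquivRealProd.measurableEmbedding
    (fun p : ℝ × ℝ => J ((p.1 : ℂ) + (p.2 : ℂ) * Complex.I))
    (Icc (z - 1 - Complex.I).re ((z - 1 - Complex.I).re + 1) ×ˢ
      Icc (z - 1 - Complex.I).im ((z - 1 - Complex.I).im + 1))
  simp only [Complex.measurableEquivRealProd_apply, Complex.re_add_im] at e5
  rw [e5, ← Measure.volume_eq_prod]
  simp

/-- area of the image of a square under a homeomorphism near the identity -/
theorem volume_image_Sq {u : ℂ ≃ₜ ℂ} {κ : ℝ} (h0 : 0 ≤ κ) (h1 : κ ≤ 1 / 2)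
    (hu : ∀ z, ‖u z - z‖ ≤ κ) (z : ℂ) :
    ENNReal.ofReal ((1 - 2 * κ) ^ 2) ≤ volume (u '' Sq z 1) ∧
      volume (u '' Sq z 1) ≤ ENNReal.ofReal ((1 + 2 * κ) ^ 2) := by
  constructor
  · rw [← volume_Sq (z + κ + κ * Complex.I) (1 - 2 * κ) (by linarith)]
    apply measure_mono
    intro w hw
    refine ⟨u.symm w, ?_, u.apply_symm_apply w⟩
    have h2 := hu (u.symm w)
    rw [u.apply_symm_apply] at h2
    have h3 := (abs_le.1 ((Complex.abs_re_le_norm _).trans h2))
    have h4 := (abs_le.1 ((Complex.abs_im_le_norm _).trans h2))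
    rw [Complex.sub_re] at h3
    rw [Complex.sub_im] at h4
    simp only [Sq, mem_setOf_eq, Complex.add_re, Complex.ofReal_re, Complex.mul_re, Complex.I_re,
      mul_zero, Complex.ofReal_im, Complex.I_im, mul_one, sub_self, add_zero, Complex.add_im,
      Complex.mul_im, zero_add] at hw
    obtain ⟨⟨a1, a2⟩, a3, a4⟩ := hw
    refine ⟨⟨?_, ?_⟩, ?_, ?_⟩ <;> linarith [h3.1, h3.2, h4.1, h4.2]
  · rw [← volume_Sq (z - κ - κ * Complex.I) (1 + 2 * κ) (by linarith)]
    apply measure_mono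
    rintro _ ⟨w, hw, rfl⟩
    have h2 := hu w
    have h3 := (abs_le.1 ((Complex.abs_re_le_norm _).trans h2))
    have h4 := (abs_le.1 ((Complex.abs_im_le_norm _).trans h2))
    rw [Complex.sub_re] at h3
    rw [Complex.sub_im] at h4
    obtain ⟨⟨a1, a2⟩, a3, a4⟩ := hw
    simp only [Sq, mem_setOf_eq, Complex.sub_re, Complex.ofReal_re, Complex.mul_re, Complex.I_re,
      mul_zero, Complex.ofReal_im, Complex.I_im, mul_one, sub_self, sub_zero, Complex.sub_im,
      Complex.mul_im, zero_add, add_zero]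
    refine ⟨⟨?_, ?_⟩, ?_, ?_⟩ <;> linarith [h3.1, h3.2, h4.1, h4.2]

theorem box2_bound {f u : ℂ ≃ₜ ℂ} (hf : MeasurePreserving f) {κ : ℝ} (h0 : 0 ≤ κ)
    (h1 : κ ≤ 1 / 10) (hu : ∀ z, ‖u z - z‖ ≤ κ) (hg : ContDiff ℝ ∞ (fun z => f (u z)))
    (hd : ∀ z, 0 < (fderiv ℝ (fun z => f (u z)) z).det) (z : ℂ) :
    |box2 (fun z => (fderiv ℝ (fun z => f (u z)) z).det) z - 1| ≤ 5 * κ := by
  set g : ℂ → ℂ := fun z => f (u z) with hgdef
  set J : ℂ → ℝ := fun z => (fderiv ℝ g z).det with hJ
  have hJc : Continuous J := by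
    have : J = fun z => (fderiv ℝ g z 1).re * (fderiv ℝ g z Complex.I).im -
        (fderiv ℝ g z Complex.I).re * (fderiv ℝ g z 1).im := by
      funext z
      rw [hJ]
      exact Mod.det_eq _
    rw [this]
    have hc : ∀ v, Continuous (fun z => fderiv ℝ g z v) := fun v =>
      (hg.continuous_fderiv (by simp)).clm_apply continuous_const
    have c1 := hc 1
    have c2 := hc Complex.I
    exact ((Complex.continuous_re.comp c1).mul (Complex.continuous_im.comp c2)).sub
      ((Complex.continuous_re.comp c2).mul (Complex.continuous_im.comp c1))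
  rw [box2_eq hJc]
  set Q := Sq (z - 1 - Complex.I) 1 with hQ
  have hint : IntegrableOn J Q := hJc.continuousOn.integrableOn_compact (isCompact_Sq _ _)
  have e1 : ENNReal.ofReal (∫ w in Q, J w) = volume (g '' Q) := by
    rw [ofReal_integral_eq_lintegral_ofReal hint (ae_of_all _ fun w => (hd w).le)]
    rw [← lintegral_abs_det_fderiv_eq_addHaar_image volume (isClosed_Sq _ _).measurableSet
      (f' := fderiv ℝ g) (fun x _ =>
        ((hg.differentiable (by simp) x).hasFDerivAt).hasFDerivWithinAt)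
      ((f.injective.comp u.injective).injOn)]
    refine lintegral_congr fun w => ?_
    rw [abs_of_pos (hd w)]
  have e2 : volume (g '' Q) = volume (u '' Q) := by
    have h2 : g '' Q = f '' (u '' Q) := by rw [image_image]
    have h3 := hf.measure_preimage (s := g '' Q) (by
      have : g '' Q = f '' (u '' Q) := h2
      rw [this]
      exact (f.isClosedMap _ (u.isClosedMap _ (isClosed_Sq _ _))).measurableSet.nullMeasurableSet)
    rw [← h3, h2, f.preimage_image]
  have hnn : 0 ≤ ∫ w in Q, J w := integral_nonneg fun w => (hd w).le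
  obtain ⟨b1, b2⟩ := volume_image_Sq h0 (by linarith) hu (z - 1 - Complex.I)
  rw [← hQ, ← e2, ← e1] at b1 b2
  have b1' := (ENNReal.ofReal_le_ofReal_iff hnn).1 b1
  have b2' := (ENNReal.ofReal_le_ofReal_iff (by positivity)).1 b2
  rw [abs_le]
  constructor <;> nlinarith

theorem det_smooth {g : ℂ → ℂ} (hg : ContDiff ℝ ∞ g) :
    ContDiff ℝ ∞ (fun z => (fderiv ℝ g z).det) := by
  have : (fun z => (fderiv ℝ g z).det) = fun z => (fderiv ℝ g z 1).re *
      (fderiv ℝ g z Complex.I).im - (fderiv ℝ g z Complex.I).re * (fderiv ℝ g z 1).im := by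
    funext z
    exact Mod.det_eq _
  rw [this]
  have hc : ∀ v, ContDiff ℝ ∞ (fun z => fderiv ℝ g z v) := fun v =>
    (hg.fderiv_right (m := ∞) (by simp)).clm_apply contDiff_const
  have c1 := hc 1
  have c2 := hc Complex.I
  exact ((Complex.reCLM.contDiff.comp c1).mul (Complex.imCLM.contDiff.comp c2)).sub
      ((Complex.reCLM.contDiff.comp c2).mul (Complex.imCLM.contDiff.comp c1))

/-- an area preserving diffeomorphism near an area preserving homeomorphism which has a
diffeomorphism near it -/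
theorem exists_AP {f u : ℂ ≃ₜ ℂ} (hf : MeasurePreserving f) {κ : ℝ} (h0 : 0 ≤ κ)
    (h1 : κ ≤ 1 / 10) (hu : ∀ z, ‖u z - z‖ ≤ κ) (hg : ContDiff ℝ ∞ (fun z => f (u z)))
    (hd : ∀ z, 0 < (fderiv ℝ (fun z => f (u z)) z).det) :
    ∃ (h : ℂ ≃ₜ ℂ) (t : ℂ → ℂ), ContDiff ℝ ∞ h ∧ ContDiff ℝ ∞ h.symm ∧
      (∀ z, (fderiv ℝ h z).det = 1) ∧ (∀ z, h z = f (t z)) ∧
      ∀ z, ‖t z - z‖ ≤ 3 + 10 * κ * ‖z‖ := by
  obtain ⟨T, bT, sT, dT, nT⟩ := exists_T (det_smooth hg) hd (τ := 5 * κ) (by linarith)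
    (box2_bound hf h0 h1 hu hg hd)
  obtain ⟨Ti, i1, i2, sTi⟩ := Disc.inv_smooth sT bT (fun x => by rw [dT]; exact hd x)
  have hbij : Bijective (fun z => f (u (Ti z))) :=
    (f.bijective.comp u.bijective).comp
      ⟨fun x y h => by rw [← i2 x, ← i2 y, h], fun y => ⟨T y, i1 y⟩⟩
  have hsm : ContDiff ℝ ∞ (fun z => f (u (Ti z))) := hg.comp sTi
  have hdet : ∀ z, (fderiv ℝ (fun z => f (u (Ti z))) z).det = 1 := by
    intro z
    have c1 := det_comp_fderiv hsm sT (Ti z)
    have e1 : (fun x => f (u (Ti (T x)))) = fun x => f (u x) := by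
      funext x
      rw [i1]
    rw [e1, i2, dT] at c1
    have h2 := hd (Ti z)
    exact (mul_right_cancel₀ h2.ne' (by rw [one_mul]; exact c1)).symm
  obtain ⟨h, hh⟩ := A2C.homeo hbij hsm (fun x => by rw [hdet]; exact one_pos)
  have hhe : (⇑h : ℂ → ℂ) = fun z => f (u (Ti z)) := funext hh
  obtain ⟨B, B1, B2, sB⟩ := Disc.inv_smooth (A := h) (by rw [hhe]; exact hsm) h.bijective
    (fun x => by rw [hhe, hdet]; exact one_pos)
  refine ⟨h, fun z => u (Ti z), by rw [hhe]; exact hsm, ?_, fun z => by rw [hhe]; exact hdet z,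
    hh, fun z => ?_⟩
  · have : (⇑h.symm : ℂ → ℂ) = B := by
      funext z
      apply h.injective
      rw [h.apply_symm_apply, B2]
    rw [this]
    exact sB
  · have a1 := hu (Ti z)
    have a2 := nT (Ti z)
    rw [i2, norm_sub_rev] at a2
    calc ‖u (Ti z) - z‖ = ‖(u (Ti z) - Ti z) + (Ti z - z)‖ := by congr 1; ring
      _ ≤ ‖u (Ti z) - Ti z‖ + ‖Ti z - z‖ := norm_add_le _ _
      _ ≤ _ := by linarith

end Pool.Agent.D0H72.AP
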