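import Pool.Agent.D0H72.AP.Approx
import Pool.Agent.D0H72.AP.Meas
import Pool.Agent.Results.MP_cbfcf7_gt.MilnorWood

/-! Area preserving homeomorphisms of the plane are limits of area preserving diffeomorphisms -/

set_option autoImplicit false

open Set Filter Topology Metric Function MeasureTheory
open scoped ContDiff

noncomputable section

namespace Pool.Agent.D0H72.AP

open Pool.Agent.Results.MP_cbfcf7_gt.MilnorWood

/-- conjugation with a real homothety preserves the measure preserving maps -/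
theorem mp_scale {f : ℂ ≃ₜ ℂ} (hf : MeasurePreserving f) {S : ℝ} (hS : 0 < S) {A g : ℂ ≃ₜ ℂ}
    (hA : ∀ z, A z = (S : ℂ) * z) (hg : ∀ z, g z = A.symm (f (A z))) : MeasurePreserving g := by
  have hA' : (A : ℂ → ℂ) = fun z => S • z := by
    funext z
    rw [hA, Complex.real_smul]
  have h1 : ∀ s : Set ℂ, volume (A ⁻¹' s) = ENNReal.ofReal (|(S ^ 2)⁻¹|) * volume s := by
    intro s
    rw [hA']
    have := Measure.addHaar_preimage_smul (volume : Measure ℂ) hS.ne' s
    rwa [Complex.finrank_real_complex] at this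
  have hS2 : ENNReal.ofReal (|(S ^ 2)⁻¹|) ≠ 0 := by
    rw [Ne, ENNReal.ofReal_eq_zero, not_le]
    positivity
  refine ⟨g.continuous.measurable, ?_⟩
  ext s hs
  rw [Measure.map_apply g.continuous.measurable hs]
  have h2 : g ⁻¹' s = A ⁻¹' (f ⁻¹' (A '' s)) := by
    ext z
    simp only [mem_preimage, mem_image]
    rw [hg]
    constructor
    · intro h
      exact ⟨_, h, A.apply_symm_apply _⟩
    · rintro ⟨w, hw, hwz⟩
      rw [← hwz, A.symm_apply_apply]
      exact hw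
  have h3 : MeasurableSet (A '' s) := A.measurableEmbedding.measurableSet_image.2 hs
  rw [h2, h1, hf.measure_preimage h3.nullMeasurableSet, ← h1, preimage_image_eq _ A.injective]

theorem limit {f : ℂ ≃ₜ ℂ} (hf : MeasurePreserving f) (ho : OP f) : UniformLimit f := by
  intro r ε hε
  obtain ⟨R, hR1, hRr⟩ : ∃ R : ℝ, 1 ≤ R ∧ r ≤ R := ⟨max 1 r, le_max_left _ _, le_max_right _ _⟩
  have hR0 : 0 < R := by linarith
  have huc := (isCompact_closedBall (0 : ℂ) (R + 1)).uniformContinuousOn_of_continuous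
    f.continuous.continuousOn
  rw [Metric.uniformContinuousOn_iff] at huc
  obtain ⟨δ, hδ, hfδ⟩ := huc ε hε
  obtain ⟨S, hS0, hS1, hSδ⟩ : ∃ S : ℝ, 0 < S ∧ 4 * S ≤ 1 ∧ 4 * S < δ := by
    refine ⟨min (1 / 4) (δ / 8), by positivity, ?_, ?_⟩
    · linarith [min_le_left (1 / 4) (δ / 8)]
    · linarith [min_le_right (1 / 4) (δ / 8)]
  obtain ⟨κ, hκ0, hκ1, hκR⟩ : ∃ κ : ℝ, 0 < κ ∧ κ ≤ 1 / 10 ∧ 10 * κ * (R / S) ≤ 1 := by
    refine ⟨S / (10 * R), by positivity, ?_, ?_⟩
    · rw [div_le_iff₀ (by positivity)]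
      nlinarith
    · apply le_of_eq
      field_simp
  have hSc : (S : ℂ) ≠ 0 := by
    rw [Complex.ofReal_ne_zero]
    exact hS0.ne'
  obtain ⟨A, hA⟩ : ∃ A : ℂ ≃ₜ ℂ, A = aff (S : ℂ) 0 hSc := ⟨_, rfl⟩
  have hA1 : ∀ z, A z = (S : ℂ) * z := by
    intro z
    rw [hA, aff_apply, add_zero]
  have hA2 : ∀ z, A.symm z = (S : ℂ)⁻¹ * z := by
    intro z
    rw [hA, aff_symm_apply, sub_zero, div_eq_inv_mul]
  have hopA : OP A := by
    rw [hA]
    exact OP.aff _ _ _
  obtain ⟨g, hg⟩ : ∃ g : ℂ ≃ₜ ℂ, ∀ z, g z = A.symm (f (A z)) :=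
    ⟨A.trans (f.trans A.symm), fun z => rfl⟩
  have hgm : MeasurePreserving g := mp_scale hf hS0 hA1 hg
  have hgo : OP g := OP.of_eq (f := A.symm) (g := A.trans f) hopA.symm (OP.comp ho hopA) hg
  obtain ⟨u, hu1, hu2, hu3⟩ := approx hgo hκ0
  obtain ⟨h, t, h1, h2, h3, h4, h5⟩ := exists_AP hgm hκ0.le hκ1 hu1 hu2 hu3
  have hAc : ContDiff ℝ ∞ A := by
    have e : (A : ℂ → ℂ) = fun z => (S : ℂ) * z := funext hA1
    rw [e]
    fun_prop
  have hAsc : ContDiff ℝ ∞ A.symm := by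
    have e : (A.symm : ℂ → ℂ) = fun z => (S : ℂ)⁻¹ * z := funext hA2
    rw [e]
    fun_prop
  refine ⟨A.symm.trans (h.trans A), ⟨?_, ?_, ?_⟩, fun z hz => ?_⟩
  · exact hAc.comp (h1.comp hAsc)
  · exact hAc.comp (h2.comp hAsc)
  · intro z
    have e : ((A.symm.trans (h.trans A) : ℂ ≃ₜ ℂ) : ℂ → ℂ) =
        fun z => S • h (S⁻¹ • z) := by
      funext w
      change A (h (A.symm w)) = _
      rw [hA1, hA2, Complex.real_smul, Complex.real_smul, Complex.ofReal_inv]
    rw [e]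
    have d1 : HasFDerivAt (fun z : ℂ => S⁻¹ • z) (S⁻¹ • ContinuousLinearMap.id ℝ ℂ) z :=
      (hasFDerivAt_id z).const_smul S⁻¹
    have d2 : HasFDerivAt h (fderiv ℝ h (S⁻¹ • z)) (S⁻¹ • z) :=
      ((h1.differentiable (by simp)) _).hasFDerivAt
    have d3 := (d2.comp z d1).const_smul S
    have d4 : S • ((fderiv ℝ h (S⁻¹ • z)).comp (S⁻¹ • ContinuousLinearMap.id ℝ ℂ)) =
        fderiv ℝ h (S⁻¹ • z) := by
      ext w
      simp only [ContinuousLinearMap.smul_apply, ContinuousLinearMap.comp_apply,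
        ContinuousLinearMap.id_apply, map_smul]
      rw [smul_smul, mul_inv_cancel₀ hS0.ne', one_smul]
    rw [d4] at d3
    have d5 : fderiv ℝ (fun z => S • h (S⁻¹ • z)) z = fderiv ℝ h (S⁻¹ • z) := d3.fderiv
    rw [d5]
    exact h3 _
  · change ‖A (h (A.symm z)) - f z‖ < ε
    rw [h4, hg, A.apply_symm_apply, ← dist_eq_norm]
    have k1 : ‖A (t (A.symm z)) - z‖ ≤ 4 * S := by
      have e : A (t (A.symm z)) - z = (S : ℂ) * (t (A.symm z) - A.symm z) := by
        rw [hA1, mul_sub, ← hA1 (A.symm z), A.apply_symm_apply]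
      rw [e, norm_mul, Complex.norm_real, Real.norm_of_nonneg hS0.le]
      have k2 := h5 (A.symm z)
      have k3 : ‖A.symm z‖ ≤ R / S := by
        rw [hA2, norm_mul, norm_inv, Complex.norm_real, Real.norm_of_nonneg hS0.le,
          ← div_eq_inv_mul]
        gcongr
        linarith
      have k4 : 10 * κ * ‖A.symm z‖ ≤ 10 * κ * (R / S) := by gcongr
      have k5 : ‖t (A.symm z) - A.symm z‖ ≤ 4 := by linarith
      nlinarith
    apply hfδ
    · rw [mem_closedBall_zero_iff]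
      have k2 := norm_le_norm_add_norm_sub' (A (t (A.symm z))) z
      linarith
    · rw [mem_closedBall_zero_iff]
      linarith
    · rw [dist_eq_norm]
      linarith

end Pool.Agent.D0H72.AP
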