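import Pool.Agent.N550.KH.A2C
import Pool.Agent.N550.KH.Mod
import Pool.Agent.N550.KH.Disc

/-! Points near which a map is a local diffeomorphism -/

set_option autoImplicit false

open Set Filter Topology Metric Function
open scoped ContDiff

noncomputable section

namespace Pool.Agent.D0H72.AP

open Pool.Agent.N550.KH

/-- smooth with positive Jacobian at `z` -/
def Sm (g : ℂ → ℂ) (z : ℂ) : Prop := ContDiffAt ℝ ∞ g z ∧ 0 < (fderiv ℝ g z).det

/-- smooth with positive Jacobian near `z` -/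
def Good (g : ℂ → ℂ) (z : ℂ) : Prop := ∀ᶠ w in 𝓝 z, Sm g w

theorem Sm.comp {f g : ℂ → ℂ} {z : ℂ} (hf : Sm f (g z)) (hg : Sm g z) :
    Sm (fun w => f (g w)) z := by
  refine ⟨hf.1.comp z hg.1, ?_⟩
  have h1 : HasFDerivAt (fun x => f (g x)) ((fderiv ℝ f (g z)).comp (fderiv ℝ g z)) z :=
    ((hf.1.differentiableAt (by simp)).hasFDerivAt).comp z
      (hg.1.differentiableAt (by simp)).hasFDerivAt
  rw [h1.fderiv, A2C.det_comp']
  exact mul_pos hf.2 hg.2

theorem Sm.congr {f g : ℂ → ℂ} {z : ℂ} (hg : Sm g z) (h : f =ᶠ[𝓝 z] g) : Sm f z := by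
  refine ⟨hg.1.congr_of_eventuallyEq h, ?_⟩
  rw [h.fderiv_eq]
  exact hg.2

theorem Good.sm {g : ℂ → ℂ} {z : ℂ} (h : Good g z) : Sm g z := h.self_of_nhds

theorem Good.congr {f g : ℂ → ℂ} {z : ℂ} (hg : Good g z) (h : f =ᶠ[𝓝 z] g) : Good f z := by
  filter_upwards [hg, h.eventually_nhds] with w hw hw2
  exact hw.congr hw2

theorem Good.comp {f g : ℂ → ℂ} {z : ℂ} (hf : Good f (g z)) (hg : Good g z) :
    Good (fun w => f (g w)) z := by
  have hc : ContinuousAt g z := hg.sm.1.continuousAt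
  filter_upwards [hc.eventually hf, hg] with w hw hw2
  exact hw.comp hw2

theorem Sm.of_hol {g : ℂ → ℂ} {z : ℂ} (h : AnalyticAt ℂ g z) (h' : deriv g z ≠ 0) : Sm g z :=
  ⟨h.contDiffAt.restrict_scalars ℝ, A2C.det_hol h.differentiableAt h'⟩

theorem Good.of_inj {g : ℂ → ℂ} {U : Set ℂ} (hU : IsOpen U) (hg : DifferentiableOn ℂ g U)
    (hi : InjOn g U) {z : ℂ} (hz : z ∈ U) : Good g z := by
  filter_upwards [hU.mem_nhds hz] with w hw
  exact Sm.of_hol (hg.analyticAt (hU.mem_nhds hw)) (Disc.inj_deriv' hU hg hi hw)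

theorem Good.of_smooth {g : ℂ → ℂ} (hg : ContDiff ℝ ∞ g) (hd : ∀ z, 0 < (fderiv ℝ g z).det)
    (z : ℂ) : Good g z := Eventually.of_forall fun w => ⟨hg.contDiffAt, hd w⟩

theorem isOpen_good (g : ℂ → ℂ) : IsOpen {z | Good g z} := by
  rw [isOpen_iff_mem_nhds]
  intro z hz
  exact eventually_eventually_nhds.2 hz

end Pool.Agent.D0H72.AP
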