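import Pool.Agent.D0H72.AP.Mob
import Pool.Agent.H18R3.Refl

/-! Boundary behaviour of disc maps which are holomorphic near a boundary point -/

set_option autoImplicit false

open Set Filter Topology Metric Function

noncomputable section

namespace Pool.Agent.D0H72.AP

open Pool.Agent.Helper984_CP

theorem order_one {H : ℂ → ℂ} (hH : AnalyticAt ℂ H 0) (h0 : H 0 = 0)
    (hp : ∀ᶠ ζ in 𝓝 (0 : ℂ), 0 < ζ.im → 0 < (H ζ).im) :
    ∃ u : ℂ → ℂ, AnalyticAt ℂ u 0 ∧ 0 < (u 0).re ∧ (u 0).im = 0 ∧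
      ∀ᶠ z in 𝓝 (0 : ℂ), H z = z * u z := by
  have hray : ∀ θ : ℝ, Tendsto (fun r : ℝ => (r : ℂ) * Complex.exp (θ * Complex.I)) (𝓝[>] 0)
      (𝓝 0) := by
    intro θ
    have h1 : Continuous (fun r : ℝ => (r : ℂ) * Complex.exp (θ * Complex.I)) := by fun_prop
    have h2 := (h1.tendsto 0).mono_left (nhdsWithin_le_nhds (s := Ioi 0))
    simpa using h2
  have hray_im : ∀ θ r : ℝ, ((r : ℂ) * Complex.exp (θ * Complex.I)).im = r * Real.sin θ := by
    intro θ r
    rw [Complex.im_ofReal_mul, Complex.exp_ofReal_mul_I_im]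
  have hne : ¬ ∀ᶠ z in 𝓝 (0 : ℂ), H z = 0 := by
    intro h
    obtain ⟨t, ⟨ht1, ht2⟩, ht3⟩ := (((hray (Real.pi / 2)).eventually (h.and hp)).and
      self_mem_nhdsWithin).exists
    have h3 := ht2 (by
      rw [hray_im, Real.sin_pi_div_two, mul_one]
      exact ht3)
    rw [ht1] at h3
    simp at h3
  obtain ⟨k, u, hu, hu0, hk⟩ := hH.exists_eventuallyEq_pow_smul_nonzero_iff.2 hne
  simp only [sub_zero, smul_eq_mul] at hk
  have hk0 : 1 ≤ k := by
    by_contra hc
    have : k = 0 := by omega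
    have h1 := hk.self_of_nhds
    rw [this, h0, pow_zero, one_mul] at h1
    exact hu0 h1.symm
  have hkp : (0 : ℝ) < k := by exact_mod_cast hk0
  have key : ∀ φ : ℝ, 0 < φ → φ < k * Real.pi → 0 ≤ (Complex.exp (φ * Complex.I) * u 0).im := by
    intro φ h1 h2
    obtain ⟨θ, hθ⟩ : ∃ θ, θ = φ / k := ⟨_, rfl⟩
    have hθ0 : 0 < θ := by rw [hθ]; positivity
    have hθ1 : θ < Real.pi := by
      rw [hθ, div_lt_iff₀ hkp]
      linarith
    have hθφ : (k : ℝ) * θ = φ := by
      rw [hθ]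
      field_simp
    have hu' : Tendsto (fun r : ℝ => (Complex.exp (φ * Complex.I) *
        u ((r : ℂ) * Complex.exp (θ * Complex.I))).im) (𝓝[>] 0)
        (𝓝 ((Complex.exp (φ * Complex.I) * u 0).im)) := by
      have h3 := hu.continuousAt.tendsto.comp (hray θ)
      exact (Complex.continuous_im.tendsto _).comp (h3.const_mul _)
    refine ge_of_tendsto hu' ?_
    filter_upwards [(hray θ).eventually (hk.and hp), self_mem_nhdsWithin] with r ⟨a, b⟩ hr
    have hr' : (0 : ℝ) < r := hr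
    have h4 := b (by
      rw [hray_im]
      exact mul_pos hr' (Real.sin_pos_of_pos_of_lt_pi hθ0 hθ1))
    rw [a, mul_pow, ← Complex.exp_nat_mul] at h4
    have e1 : (k : ℂ) * (θ * Complex.I) = φ * Complex.I := by
      rw [← mul_assoc]
      congr 1
      exact_mod_cast hθφ
    rw [e1, mul_assoc, ← Complex.ofReal_pow, Complex.im_ofReal_mul] at h4
    have h5 : 0 < r ^ k := by positivity
    exact ((mul_pos_iff_of_pos_left h5).1 h4).le
  have hf : Continuous (fun φ : ℝ => (Complex.exp (φ * Complex.I) * u 0).im) := by fun_prop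
  have key' : ∀ φ ∈ Icc (0 : ℝ) (k * Real.pi), 0 ≤ (Complex.exp (φ * Complex.I) * u 0).im := by
    have h1 : closure (Ioo (0 : ℝ) (k * Real.pi)) ⊆
        {φ : ℝ | 0 ≤ (Complex.exp (φ * Complex.I) * u 0).im} :=
      closure_minimal (fun φ hφ => key φ hφ.1 hφ.2) (isClosed_le continuous_const hf)
    rw [closure_Ioo (by positivity)] at h1
    exact h1
  have hpi := Real.pi_pos
  have hkpi : Real.pi ≤ k * Real.pi := by
    have : (1 : ℝ) ≤ k := by exact_mod_cast hk0
    nlinarith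
  have b0 := key' 0 ⟨le_rfl, by positivity⟩
  have b1 := key' Real.pi ⟨hpi.le, hkpi⟩
  have b2 := key' (Real.pi / 2) ⟨by positivity, by linarith⟩
  have e0 : Complex.exp (((0 : ℝ) : ℂ) * Complex.I) = 1 := by simp
  have e1 : Complex.exp (((Real.pi : ℝ) : ℂ) * Complex.I) = -1 := Complex.exp_pi_mul_I
  have e2 : Complex.exp (((Real.pi / 2 : ℝ) : ℂ) * Complex.I) = Complex.I := by
    rw [Complex.ofReal_div, Complex.ofReal_ofNat, Complex.exp_pi_div_two_mul_I]
  rw [e0] at b0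
  rw [e1] at b1
  rw [e2] at b2
  simp only [one_mul, neg_mul, Complex.neg_im, Complex.I_mul_im] at b0 b1 b2
  have him : (u 0).im = 0 := by linarith
  have hre : 0 < (u 0).re := by
    refine lt_of_le_of_ne b2 ?_
    intro h
    exact hu0 (Complex.ext h.symm him)
  have hk1 : k = 1 := by
    by_contra hc
    have h2 : 2 ≤ k := by omega
    have h2' : (2 : ℝ) ≤ k := by exact_mod_cast h2
    have b3 := key' (Real.pi + Real.pi / 2) ⟨by positivity, by nlinarith⟩
    have e3 : Complex.exp (((Real.pi + Real.pi / 2 : ℝ) : ℂ) * Complex.I) = -Complex.I := by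
      rw [Complex.ofReal_add, add_mul, Complex.exp_add, e1, e2]
      ring
    rw [e3] at b3
    simp only [neg_mul, Complex.neg_im, Complex.I_mul_im] at b3
    linarith
  refine ⟨u, hu, hre, him, ?_⟩
  filter_upwards [hk] with z hz
  rw [hz, hk1, pow_one]

/-- the Cayley transform, an involution -/
def cy (q : ℂ) : ℂ := (1 - q) / (1 + q)

theorem cy_cy {q : ℂ} (h : 1 + q ≠ 0) : cy (cy q) = q := by
  have h2 : 1 + (1 - q) / (1 + q) ≠ 0 := by
    have : 1 + (1 - q) / (1 + q) = 2 / (1 + q) := by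
      field_simp
      ring
    rw [this]
    exact div_ne_zero two_ne_zero h
  rw [cy, cy, div_eq_iff h2]
  field_simp
  ring

theorem cy_re (z : ℂ) : (cy z).re = (1 - ‖z‖ ^ 2) / ‖1 + z‖ ^ 2 := by
  by_cases h : 1 + z = 0
  · simp [cy, h]
  · have h3 : cy z = (1 - z) * (starRingEnd ℂ) (1 + z) / ((Complex.normSq (1 + z) : ℝ) : ℂ) := by
      rw [cy, Complex.normSq_eq_conj_mul_self]
      have : (starRingEnd ℂ) (1 + z) ≠ 0 := by
        rw [Ne, map_eq_zero]
        exact h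
      field_simp
    rw [h3, Complex.div_ofReal_re, Complex.normSq_eq_norm_sq]
    congr 1
    rw [← Complex.normSq_eq_norm_sq, Complex.normSq_apply]
    simp
    ring

theorem cy_norm (q : ℂ) : ‖1 + q‖ ^ 2 * (1 - ‖cy q‖ ^ 2) = 4 * q.re ∨ 1 + q = 0 := by
  by_cases h : 1 + q = 0
  · right; exact h
  · left
    rw [cy, norm_div]
    have h1 : ‖1 + q‖ ≠ 0 := norm_ne_zero_iff.2 h
    have h2 : ‖1 + q‖ ^ 2 * (1 - (‖1 - q‖ / ‖1 + q‖) ^ 2) = ‖1 + q‖ ^ 2 - ‖1 - q‖ ^ 2 := by
      field_simp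
    rw [h2]
    simp only [← Complex.normSq_eq_norm_sq, Complex.normSq_apply]
    simp
    ring

theorem one_add_ne {q : ℂ} (h : 0 ≤ q.re) : 1 + q ≠ 0 := by
  intro hc
  have := congrArg Complex.re hc
  simp at this
  linarith

theorem cy_le {q : ℂ} (h : 0 ≤ q.re) : ‖cy q‖ ≤ 1 := by
  have h0 := one_add_ne h
  rcases cy_norm q with h1 | h1
  · have h2 : 0 < ‖1 + q‖ ^ 2 := by
      have := norm_pos_iff.2 h0
      positivity
    have h3 : 0 ≤ 1 - ‖cy q‖ ^ 2 := by
      by_contra hc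
      push Not at hc
      nlinarith
    have h4 : ‖cy q‖ ^ 2 ≤ 1 := by linarith
    exact (sq_le_one_iff₀ (norm_nonneg _)).1 h4
  · exact absurd h1 h0

theorem cy_lt {q : ℂ} (h : 0 < q.re) : ‖cy q‖ < 1 := by
  have h0 := one_add_ne h.le
  rcases cy_norm q with h1 | h1
  · have h2 : 0 < ‖1 + q‖ ^ 2 := by
      have := norm_pos_iff.2 h0
      positivity
    have h3 : 0 < 1 - ‖cy q‖ ^ 2 := by
      by_contra hc
      push Not at hc
      nlinarith
    have h4 : ‖cy q‖ ^ 2 < 1 := by linarith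
    exact (sq_lt_one_iff₀ (norm_nonneg _)).1 h4
  · exact absurd h1 h0

theorem cy_eq_one {q : ℂ} (h : q.re = 0) : ‖cy q‖ = 1 := by
  have h0 := one_add_ne h.ge
  rcases cy_norm q with h1 | h1
  · have h2 : ‖1 + q‖ ^ 2 ≠ 0 := by
      have := norm_pos_iff.2 h0
      positivity
    rw [h, mul_zero] at h1
    have h3 := (mul_eq_zero.1 h1).resolve_left h2
    have h4 : ‖cy q‖ ^ 2 = 1 := by linarith
    exact (pow_eq_one_iff_of_nonneg (norm_nonneg _) two_ne_zero).1 h4
  · exact absurd h1 h0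

theorem cy_cont {q : ℂ} (h : 1 + q ≠ 0) : ContinuousAt cy q := by
  unfold cy
  exact ContinuousAt.div (by fun_prop) (by fun_prop) h

theorem cy_diff {q : ℂ} (h : 1 + q ≠ 0) : DifferentiableAt ℂ cy q := by
  unfold cy
  exact DifferentiableAt.div (by fun_prop) (by fun_prop) h

/-- the logarithmic form of a disc map near the boundary point one -/
theorem exists_kap {F : ℂ → ℂ} (hF : DiscMap F) (h1 : F 1 = 1) {δ : ℝ} (hδ : 0 < δ)
    (hd : DifferentiableOn ℂ F {z | ‖z - 1‖ < δ ∧ ‖z‖ < 1}) :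
    ∃ (κ : ℂ → ℂ) (δ₁ : ℝ), 0 < δ₁ ∧ DifferentiableOn ℂ κ (ball 0 δ₁) ∧
      (∀ q, ‖q‖ < δ₁ → q.re = 0 → (κ q).im = 0) ∧
      ∀ q, ‖q‖ < δ₁ → 0 ≤ q.re → F (cy q) = cy (q * Complex.exp (κ q)) := by
  have hcy1 : cy 0 = 1 := by simp [cy]
  -- a small radius
  have hc1 : ContinuousWithinAt F (closedBall 0 1) 1 := hF.cont 1 (by simp)
  obtain ⟨δ₂, hδ₂, hδ₂F⟩ := Metric.continuousWithinAt_iff.1 hc1 1 one_pos
  have hcy : ContinuousAt cy 0 := cy_cont (by simp)
  obtain ⟨a, ha, haq⟩ := Metric.continuousAt_iff.1 hcy (min δ δ₂) (lt_min hδ hδ₂)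
  have hq1 : ∀ q : ℂ, ‖q‖ < a → ‖cy q - 1‖ < min δ δ₂ := by
    intro q hq
    have := haq (x := q) (by rw [dist_zero_right]; exact hq)
    rwa [hcy1, dist_eq_norm] at this
  have hFne : ∀ q : ℂ, ‖q‖ < a → 0 ≤ q.re → 1 + F (cy q) ≠ 0 := by
    intro q hq hq0 hc
    have h3 := hδ₂F (x := cy q) (mem_closedBall_zero_iff.2 (cy_le hq0)) (by
      rw [dist_eq_norm]
      exact (hq1 q hq).trans_le (min_le_right _ _))
    rw [h1, dist_eq_norm] at h3
    have h4 : F (cy q) - 1 = -2 := by linear_combination hc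
    rw [h4] at h3
    norm_num at h3
  -- the reflected function
  have hmI : ∀ ζ : ℂ, (-Complex.I * ζ).re = ζ.im := by
    intro ζ
    simp
  have hmn : ∀ ζ : ℂ, ‖-Complex.I * ζ‖ = ‖ζ‖ := by
    intro ζ
    simp
  obtain ⟨h, hh⟩ : ∃ h : ℂ → ℂ, h = fun ζ => Complex.I * cy (F (cy (-Complex.I * ζ))) := ⟨_, rfl⟩
  have him : ∀ ζ, (h ζ).im = (cy (F (cy (-Complex.I * ζ)))).re := by
    intro ζ
    rw [hh]
    simp
  have hcont : ContinuousOn h {ζ | ‖ζ‖ < a ∧ 0 ≤ ζ.im} := by
    rw [hh]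
    apply ContinuousOn.mul continuousOn_const
    intro ζ hζ
    have hq0 : 0 ≤ (-Complex.I * ζ).re := by rw [hmI]; exact hζ.2
    have c1 : ContinuousWithinAt (fun ζ : ℂ => cy (-Complex.I * ζ)) {ζ | ‖ζ‖ < a ∧ 0 ≤ ζ.im} ζ := by
      apply ContinuousAt.continuousWithinAt
      exact ContinuousAt.comp (g := cy) (f := fun ζ : ℂ => -Complex.I * ζ)
        (cy_cont (one_add_ne hq0)) (by fun_prop)
    have c2 : ContinuousWithinAt (fun ζ : ℂ => F (cy (-Complex.I * ζ)))
        {ζ | ‖ζ‖ < a ∧ 0 ≤ ζ.im} ζ := by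
      refine ContinuousWithinAt.comp (t := closedBall 0 1)
        (hF.cont _ (mem_closedBall_zero_iff.2 (cy_le hq0))) c1 ?_
      intro ξ hξ
      apply mem_closedBall_zero_iff.2 (cy_le _)
      rw [hmI]
      exact hξ.2
    exact ContinuousAt.comp_continuousWithinAt (g := cy)
      (cy_cont (hFne _ (by rw [hmn]; exact hζ.1) hq0)) c2
  have hdiff : DifferentiableOn ℂ h {ζ | ‖ζ‖ < a ∧ 0 < ζ.im} := by
    intro ζ hζ
    apply DifferentiableAt.differentiableWithinAt
    rw [hh]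
    have hq0 : 0 < (-Complex.I * ζ).re := by rw [hmI]; exact hζ.2
    have ho : IsOpen {z : ℂ | ‖z - 1‖ < δ ∧ ‖z‖ < 1} := by
      have o1 : IsOpen {z : ℂ | ‖z - 1‖ < δ} := isOpen_lt (by fun_prop) continuous_const
      have o2 : IsOpen {z : ℂ | ‖z‖ < 1} := isOpen_lt (by fun_prop) continuous_const
      exact o1.inter o2
    have d1 : DifferentiableAt ℂ (fun ζ : ℂ => cy (-Complex.I * ζ)) ζ :=
      DifferentiableAt.comp (g := cy) ζ (cy_diff (one_add_ne hq0.le)) (by fun_prop)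
    have d2 : DifferentiableAt ℂ (fun ζ : ℂ => F (cy (-Complex.I * ζ))) ζ := by
      refine DifferentiableAt.comp (g := F) ζ (hd.differentiableAt (ho.mem_nhds ⟨?_, ?_⟩)) d1
      · exact (hq1 _ (by rw [hmn]; exact hζ.1)).trans_le (min_le_left _ _)
      · exact cy_lt hq0
    exact (DifferentiableAt.comp (g := cy) ζ
      (cy_diff (hFne _ (by rw [hmn]; exact hζ.1) hq0.le)) d2).const_mul _
  have hreal : ∀ x : ℝ, |x| < a → (h x).im = 0 := by
    intro x hx
    rw [him, cy_re, hF.bdry]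
    · simp
    · apply cy_eq_one
      rw [hmI]
      simp
  obtain ⟨H, hH1, hH2⟩ := Pool.Agent.H18R3.refl hcont hdiff hreal
  have hH0 : H 0 = 0 := by
    rw [hH2 0 (by simpa using ha) (by simp), hh]
    simp only [mul_zero, hcy1, h1]
    simp [cy]
  have hHa : AnalyticAt ℂ H 0 := hH1.analyticAt (ball_mem_nhds 0 ha)
  obtain ⟨u, u1, u2, u3, u4⟩ := order_one hHa hH0 (by
    filter_upwards [ball_mem_nhds (0 : ℂ) ha] with ζ hζ hζ2
    rw [mem_ball_zero_iff] at hζ
    have hq0 : 0 < (-Complex.I * ζ).re := by rw [hmI]; exact hζ2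
    rw [hH2 ζ hζ hζ2.le, him, cy_re]
    have h3 := hF.inner _ (cy_lt hq0)
    have h4 := norm_pos_iff.2 (hFne _ (by rw [hmn]; exact hζ) hq0.le)
    have h5 := norm_nonneg (F (cy (-Complex.I * ζ)))
    apply div_pos _ (by positivity)
    nlinarith)
  -- real on the real axis
  have hreal2 : ∀ᶠ ζ in 𝓝 (0 : ℂ), ζ.im = 0 → (u ζ).im = 0 := by
    filter_upwards [u4, ball_mem_nhds (0 : ℂ) ha] with ζ hζ hζa hζ0
    rw [mem_ball_zero_iff] at hζa
    by_cases hz : ζ = 0
    · rw [hz]; exact u3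
    · have e1 : ζ = (ζ.re : ℂ) := Complex.ext (by simp) (by simp [hζ0])
      have e2 : (H ζ).im = 0 := by
        rw [hH2 ζ hζa hζ0.ge, e1]
        exact hreal _ (lt_of_le_of_lt (Complex.abs_re_le_norm ζ) hζa)
      rw [hζ, e1, Complex.im_ofReal_mul] at e2
      have e3 : ζ.re ≠ 0 := by
        intro hc
        apply hz
        rw [e1, hc, Complex.ofReal_zero]
      have e4 := (mul_eq_zero.1 e2).resolve_left e3
      rwa [← e1] at e4
  have hpos : ∀ᶠ ζ in 𝓝 (0 : ℂ), 0 < (u ζ).re :=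
    (Complex.continuous_re.continuousAt.comp u1.continuousAt).eventually
      (lt_mem_nhds (by simpa using u2))
  obtain ⟨δ₃, hδ₃, hall⟩ := Metric.eventually_nhds_iff.1
    (((u4.and hreal2).and hpos).and u1.eventually_analyticAt)
  have hI : ∀ q : ℂ, ‖Complex.I * q‖ = ‖q‖ := by
    intro q
    simp
  refine ⟨fun q => Complex.log (u (Complex.I * q)), min a δ₃, lt_min ha hδ₃, ?_, ?_, ?_⟩
  · intro q hq
    rw [mem_ball_zero_iff] at hq
    obtain ⟨⟨⟨b1, b2⟩, b3⟩, b4⟩ := hall (y := Complex.I * q) (by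
      rw [dist_zero_right, hI]
      exact hq.trans_le (min_le_right _ _))
    apply DifferentiableAt.differentiableWithinAt
    apply DifferentiableAt.clog
    · exact DifferentiableAt.comp (g := u) q b4.differentiableAt (by fun_prop)
    · left
      exact b3
  · intro q hq hq0
    obtain ⟨⟨⟨b1, b2⟩, b3⟩, b4⟩ := hall (y := Complex.I * q) (by
      rw [dist_zero_right, hI]
      exact hq.trans_le (min_le_right _ _))
    have b5 := b2 (by simpa using hq0)
    have b6 : u (Complex.I * q) = ((u (Complex.I * q)).re : ℂ) := Complex.ext (by simp)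
      (by simp [b5])
    simp only
    rw [b6, ← Complex.ofReal_log b3.le, Complex.ofReal_im]
  · intro q hq hq0
    obtain ⟨⟨⟨b1, b2⟩, b3⟩, b4⟩ := hall (y := Complex.I * q) (by
      rw [dist_zero_right, hI]
      exact hq.trans_le (min_le_right _ _))
    have hqa : ‖q‖ < a := hq.trans_le (min_le_left _ _)
    have b5 : u (Complex.I * q) ≠ 0 := by
      intro hc
      rw [hc] at b3
      simp at b3
    have b6 := hH2 (Complex.I * q) (by rw [hI]; exact hqa) (by simpa using hq0)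
    rw [b1, hh] at b6
    simp only at b6
    have b7 : -Complex.I * (Complex.I * q) = q := by
      linear_combination (-q) * Complex.I_mul_I
    rw [b7] at b6
    have b8 : q * u (Complex.I * q) = cy (F (cy q)) := by
      have h3 : Complex.I * (q * u (Complex.I * q)) = Complex.I * cy (F (cy q)) := by
        linear_combination b6
      exact mul_left_cancel₀ Complex.I_ne_zero h3
    simp only
    rw [Complex.exp_log b5, b8, cy_cy (hFne q hqa hq0)]

end Pool.Agent.D0H72.AP
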