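import Pool.Agent.D0H72.AP.DIso

/-! Moebius maps of the disc with given values at `1` and `-1` -/

set_option autoImplicit false

open Set Filter Topology Metric Function

noncomputable section

namespace Pool.Agent.D0H72.AP

open Pool.Agent.Helper984_CP

/-- parabolic Moebius maps with fixed point one -/
def par (t z : ℂ) : ℂ := (2 * z + t * (1 - z)) / (2 + t * (1 - z))

theorem par_norm {t : ℂ} (ht : t.re = 0) (z : ℂ) :
    ‖2 + t * (1 - z)‖ ^ 2 - ‖2 * z + t * (1 - z)‖ ^ 2 = 4 * (1 - ‖z‖ ^ 2) := by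
  simp only [← Complex.normSq_eq_norm_sq, Complex.normSq_apply, Complex.add_re, Complex.add_im,
    Complex.mul_re, Complex.mul_im, Complex.sub_re, Complex.sub_im, Complex.one_re, Complex.one_im,
    Complex.re_ofNat, Complex.im_ofNat, ht]
  ring

theorem par_den {t : ℂ} (ht : t.re = 0) {z : ℂ} (hz : ‖z‖ ≤ 1) : 2 + t * (1 - z) ≠ 0 := by
  intro h
  have h1 := par_norm ht z
  rw [h, norm_zero] at h1
  have h2 : ‖z‖ ^ 2 ≤ 1 := pow_le_one₀ (norm_nonneg z) hz
  have h3 : ‖2 * z + t * (1 - z)‖ ^ 2 = 0 := le_antisymm (by linarith) (by positivity)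
  have h4 : 2 * z + t * (1 - z) = 0 := by
    rw [← norm_eq_zero]
    exact pow_eq_zero_iff (two_ne_zero) |>.1 h3
  have h5 : z = 1 := by linear_combination (1 / 2 : ℂ) * h4 - (1 / 2 : ℂ) * h
  rw [h5] at h
  simp at h

theorem par_map {t : ℂ} (ht : t.re = 0) : DiscMap (par t) where
  cont := by
    refine ContinuousOn.div (by fun_prop) (by fun_prop) ?_
    intro z hz
    exact par_den ht (mem_closedBall_zero_iff.1 hz)
  inner z hz := by
    have hd := par_den ht hz.le
    have h1 := par_norm ht z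
    rw [par, norm_div, div_lt_one (norm_pos_iff.2 hd)]
    have h2 : ‖z‖ ^ 2 < 1 := pow_lt_one₀ (norm_nonneg z) hz two_ne_zero
    exact lt_of_pow_lt_pow_left₀ 2 (norm_nonneg _) (by linarith)
  bdry z hz := by
    have hd := par_den ht hz.le
    have h1 := par_norm ht z
    rw [hz] at h1
    have h2 : ‖2 * z + t * (1 - z)‖ = ‖2 + t * (1 - z)‖ := by
      have h3 : ‖2 * z + t * (1 - z)‖ ^ 2 = ‖2 + t * (1 - z)‖ ^ 2 := by linarith
      exact (pow_left_inj₀ (norm_nonneg _) (norm_nonneg _) two_ne_zero).1 h3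
    rw [par, norm_div, h2, div_self (norm_ne_zero_iff.2 hd)]

theorem par_inv {t : ℂ} (ht : t.re = 0) {z : ℂ} (hz : ‖z‖ ≤ 1) : par (-t) (par t z) = z := by
  have hd := par_den ht hz
  have hd' := par_den (t := -t) (by simpa using ht) ((par_map ht).le hz)
  have e1 : par t z * (2 + t * (1 - z)) = 2 * z + t * (1 - z) := by
    rw [par, div_mul_cancel₀ _ hd]
  rw [par, div_eq_iff hd']
  have h2 : (2 * par t z + -t * (1 - par t z) - z * (2 + -t * (1 - par t z))) *
      (2 + t * (1 - z)) = 0 := by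
    linear_combination (2 + t - z * t) * e1
  rcases mul_eq_zero.1 h2 with h | h
  · linear_combination h
  · exact absurd h hd

theorem par_iso {t : ℂ} (ht : t.re = 0) : DIso (par t) (par (-t)) where
  map := par_map ht
  inv := par_map (by simpa using ht)
  right z hz := by
    have := par_inv (t := -t) (by simpa using ht) hz
    rwa [neg_neg] at this
  left z hz := par_inv ht hz

theorem par_diff {t : ℂ} (ht : t.re = 0) {z : ℂ} (hz : ‖z‖ ≤ 1) :
    DifferentiableAt ℂ (par t) z := by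
  unfold par
  exact DifferentiableAt.div (by fun_prop) (by fun_prop) (par_den ht hz)

theorem rot_iso {c : ℂ} (hc : ‖c‖ = 1) : DIso (fun z => c * z) (fun z => c⁻¹ * z) := by
  have h0 : c ≠ 0 := by
    rw [← norm_ne_zero_iff, hc]
    exact one_ne_zero
  refine ⟨⟨by fun_prop, fun z hz => ?_, fun z hz => ?_⟩, ⟨by fun_prop, fun z hz => ?_,
    fun z hz => ?_⟩, fun z _ => ?_, fun z _ => ?_⟩
  · rwa [norm_mul, hc, one_mul]
  · rwa [norm_mul, hc, one_mul]
  · rwa [norm_mul, norm_inv, hc, inv_one, one_mul]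
  · rwa [norm_mul, norm_inv, hc, inv_one, one_mul]
  · field_simp
  · field_simp

/-- Moebius maps with given values at `1` and `-1` -/
theorem exists_mob {a₁ a₂ : ℂ} (h1 : ‖a₁‖ = 1) (h2 : ‖a₂‖ = 1) (hne : a₁ ≠ a₂) :
    ∃ B Bi : ℂ → ℂ, DIso B Bi ∧ B 1 = a₁ ∧ B (-1) = a₂ ∧
      (∀ z, ‖z‖ ≤ 1 → DifferentiableAt ℂ B z) ∧ ∀ z, ‖z‖ ≤ 1 → DifferentiableAt ℂ Bi z := by
  have h0 : a₁ ≠ 0 := by
    rw [← norm_ne_zero_iff, h1]
    exact one_ne_zero
  set b := a₂ / a₁ with hb
  have hb1 : ‖b‖ = 1 := by rw [hb, norm_div, h1, h2, div_one]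
  have hbne : 1 - b ≠ 0 := by
    intro h
    apply hne
    have : b = 1 := by linear_combination -h
    rw [hb, div_eq_one_iff_eq h0] at this
    exact this.symm
  set t := (1 + b) / (1 - b) with htd
  have ht : t.re = 0 := by
    have h3 : t = (1 + b) * (starRingEnd ℂ) (1 - b) / ((Complex.normSq (1 - b) : ℝ) : ℂ) := by
      rw [htd, Complex.normSq_eq_conj_mul_self]
      have : (starRingEnd ℂ) (1 - b) ≠ 0 := by
        rw [Ne, map_eq_zero]
        exact hbne
      field_simp
    rw [h3, Complex.div_ofReal_re]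
    have h4 : ((1 + b) * (starRingEnd ℂ) (1 - b)).re = 1 - ‖b‖ ^ 2 := by
      rw [← Complex.normSq_eq_norm_sq, Complex.normSq_apply]
      simp
      ring
    rw [h4, hb1]
    simp
  have hcomp := (rot_iso h1).comp (par_iso ht)
  refine ⟨_, _, hcomp, ?_, ?_, fun z hz => ?_, fun z hz => ?_⟩
  · simp [par]
  · have h5 : t + 1 ≠ 0 := by
      have : t + 1 = 2 / (1 - b) := by
        rw [htd]
        field_simp
        ring
      rw [this]
      exact div_ne_zero two_ne_zero hbne
    have h6 : par t (-1) = b := by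
      rw [par, div_eq_iff (par_den ht (by simp))]
      have h7 : t * (1 - b) = 1 + b := by rw [htd, div_mul_cancel₀ _ hbne]
      linear_combination 2 * h7
    rw [h6, hb]
    field_simp
  · exact (par_diff ht hz).const_mul a₁
  · have h8 : ‖a₁⁻¹ * z‖ ≤ 1 := by rwa [norm_mul, norm_inv, h1, inv_one, one_mul]
    exact DifferentiableAt.comp z (par_diff (t := -t) (by simpa using ht) h8) (by fun_prop)

end Pool.Agent.D0H72.AP
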