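import Pool.Agent.Helper186.ParamInt
import Pool.Agent.N550.KH.Rat
import Pool.Agent.N550.KH.A2C
import Pool.Agent.N550.KH.Mod
import Pool.Agent.N550.KH.Disc

/-! Rearrangement shears of the plane -/

set_option autoImplicit false

open Set Filter Topology Metric Function MeasureTheory
open scoped ContDiff Interval

noncomputable section

namespace Pool.Agent.D0H72.AP

open Pool.Agent.N550.KH Pool.Agent.Helper186

/-- derivative along horizontal lines -/
theorem hasDerivAt_line {F : ℂ → ℝ} (hF : ContDiff ℝ ∞ F) (z : ℂ) (t : ℝ) :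
    HasDerivAt (fun t : ℝ => F (z + (t : ℂ))) (fderiv ℝ F (z + (t : ℂ)) 1) t := by
  have h9 : HasFDerivAt F (fderiv ℝ F (z + (t : ℂ))) (z + (t : ℂ)) :=
    (hF.differentiable (by simp) _).hasFDerivAt
  have h10 : HasDerivAt (fun t : ℝ => z + (t : ℂ)) 1 t :=
    (Complex.ofRealCLM.hasDerivAt (x := t)).const_add z
  exact h9.comp_hasDerivAt t h10

/-- the primitive in the direction of the real axis -/
def prim (D : ℂ → ℝ) (z : ℂ) : ℝ := ∫ x in (0:ℝ)..z.re, D (x + z.im * Complex.I)

/-- the mean over a horizontal segment of length one -/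
def box (D : ℂ → ℝ) (z : ℂ) : ℝ := ∫ s in (0:ℝ)..1, D (z - (s : ℂ))

theorem prim_smooth {D : ℂ → ℝ} (hD : ContDiff ℝ ∞ D) : ContDiff ℝ ∞ (prim D) := by
  set k : ℝ × ℂ → ℝ := fun q => D ((q.1 * q.2.re : ℝ) + (q.2.im : ℂ) * Complex.I) * q.2.re with hk
  have hks : ContDiff ℝ ∞ k := by
    have h1 : ContDiff ℝ ∞ (fun q : ℝ × ℂ => ((q.1 * q.2.re : ℝ) : ℂ) +
        (q.2.im : ℂ) * Complex.I) := by
      refine ContDiff.add ?_ (ContDiff.mul ?_ contDiff_const)
      · exact Complex.ofRealCLM.contDiff.comp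
          (contDiff_fst.mul (Complex.reCLM.contDiff.comp contDiff_snd))
      · exact Complex.ofRealCLM.contDiff.comp (Complex.imCLM.contDiff.comp contDiff_snd)
    exact (hD.comp h1).mul (Complex.reCLM.contDiff.comp contDiff_snd)
  have hUs : ContDiff ℝ ∞ (fun z => ∫ s in (0:ℝ)..1, k (s, z)) := by
    rw [← contDiffOn_univ]
    exact contDiffOn_paramInt isOpen_univ 1 hks.contDiffOn
  have : prim D = fun z => ∫ s in (0:ℝ)..1, k (s, z) := by
    funext z
    have h2 := intervalIntegral.mul_integral_comp_mul_right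
      (f := fun x : ℝ => D ((x : ℂ) + (z.im : ℂ) * Complex.I)) (a := 0) (b := 1) z.re
    rw [zero_mul, one_mul] at h2
    rw [prim, ← h2, ← intervalIntegral.integral_const_mul]
    refine intervalIntegral.integral_congr fun s _ => ?_
    simp only [hk]
    ring
  rw [this]
  exact hUs

theorem prim_fderiv {D : ℂ → ℝ} (hD : ContDiff ℝ ∞ D) (z : ℂ) :
    fderiv ℝ (prim D) z 1 = D z := by
  have hc : Continuous (fun x : ℝ => D ((x : ℂ) + (z.im : ℂ) * Complex.I)) :=
    hD.continuous.comp (by fun_prop)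
  have h3 : HasDerivAt (fun u => ∫ x in (0:ℝ)..u, D ((x : ℂ) + (z.im : ℂ) * Complex.I))
      (D ((z.re : ℂ) + (z.im : ℂ) * Complex.I)) z.re :=
    (hc.integral_hasStrictDerivAt 0 z.re).hasDerivAt
  have h4 : HasDerivAt (fun t : ℝ => prim D (z + (t : ℂ))) (D z) 0 := by
    have h5 : (fun t : ℝ => prim D (z + (t : ℂ))) = fun t =>
        ∫ x in (0:ℝ)..(z.re + t), D ((x : ℂ) + (z.im : ℂ) * Complex.I) := by
      funext t
      simp [prim]
    rw [h5]
    rw [Complex.re_add_im] at h3
    have h6 : HasDerivAt (fun u => ∫ x in (0:ℝ)..u, D ((x : ℂ) + (z.im : ℂ) * Complex.I))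
      (D z) (z.re + 0) := by rw [add_zero]; exact h3
    have h7 := h6.comp (0:ℝ) ((hasDerivAt_id (0:ℝ)).const_add z.re)
    rw [mul_one] at h7
    exact h7
  have h8 := hasDerivAt_line (prim_smooth hD) z 0
  rw [Complex.ofReal_zero, add_zero] at h8
  exact h8.unique h4

theorem box_smooth {D : ℂ → ℝ} (hD : ContDiff ℝ ∞ D) : ContDiff ℝ ∞ (box D) := by
  have hks : ContDiff ℝ ∞ (fun q : ℝ × ℂ => D (q.2 - (q.1 : ℂ))) :=
    hD.comp (contDiff_snd.sub (Complex.ofRealCLM.contDiff.comp contDiff_fst))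
  rw [← contDiffOn_univ]
  exact contDiffOn_paramInt isOpen_univ 1 hks.contDiffOn

theorem box_fderiv {F : ℂ → ℝ} (hF : ContDiff ℝ ∞ F) (z : ℂ) :
    fderiv ℝ (box F) z 1 = box (fun w => fderiv ℝ F w 1) z := by
  have hks : ContDiff ℝ ∞ (fun q : ℝ × ℂ => F (q.2 - (q.1 : ℂ))) :=
    hF.comp (contDiff_snd.sub (Complex.ofRealCLM.contDiff.comp contDiff_fst))
  have h1 := hasFDerivAt_paramInt (k := fun q : ℝ × ℂ => F (q.2 - (q.1 : ℂ))) isOpen_univ
    (hks.contDiffOn.of_le (by simp)) 1 (mem_univ z)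
  have h2 : fderiv ℝ (box F) z = _ := h1.fderiv
  rw [h2, box]
  have hcf : Continuous (fderiv ℝ (fun q : ℝ × ℂ => F (q.2 - (q.1 : ℂ)))) :=
    hks.continuous_fderiv (by simp)
  rw [ContinuousLinearMap.intervalIntegral_apply]
  · refine intervalIntegral.integral_congr fun s _ => ?_
    simp only [ContinuousLinearMap.comp_apply, ContinuousLinearMap.inr_apply]
    have e1 : HasFDerivAt (fun q : ℝ × ℂ => F (q.2 - (q.1 : ℂ)))
        ((fderiv ℝ F (z - (s : ℂ))).comp (ContinuousLinearMap.snd ℝ ℝ ℂ -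
          Complex.ofRealCLM.comp (ContinuousLinearMap.fst ℝ ℝ ℂ))) (s, z) := by
      have a1 : HasFDerivAt F (fderiv ℝ F (z - (s : ℂ))) (z - (s : ℂ)) :=
        (hF.differentiable (by simp) _).hasFDerivAt
      have a2 : HasFDerivAt (fun q : ℝ × ℂ => q.2 - (q.1 : ℂ))
          (ContinuousLinearMap.snd ℝ ℝ ℂ -
            Complex.ofRealCLM.comp (ContinuousLinearMap.fst ℝ ℝ ℂ)) (s, z) :=
        (hasFDerivAt_snd).sub (Complex.ofRealCLM.hasFDerivAt.comp _ hasFDerivAt_fst)
      exact HasFDerivAt.comp (s, z) (f := fun q : ℝ × ℂ => q.2 - (q.1 : ℂ)) a1 a2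
    rw [e1.fderiv]
    simp
  · apply Continuous.intervalIntegrable
    exact (hcf.comp (by fun_prop)).clm_comp continuous_const

/-- the shear with first coordinate `F` -/
def sh (F : ℂ → ℝ) (z : ℂ) : ℂ := (F z : ℂ) + (z.im : ℂ) * Complex.I

@[simp] theorem sh_re (F : ℂ → ℝ) (z : ℂ) : (sh F z).re = F z := by simp [sh]
@[simp] theorem sh_im (F : ℂ → ℝ) (z : ℂ) : (sh F z).im = z.im := by simp [sh]

theorem sh_smooth {F : ℂ → ℝ} (hF : ContDiff ℝ ∞ F) : ContDiff ℝ ∞ (sh F) :=
  (Complex.ofRealCLM.contDiff.comp hF).add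
    ((Complex.ofRealCLM.contDiff.comp Complex.imCLM.contDiff).mul contDiff_const)

theorem sh_det {F : ℂ → ℝ} (hF : ContDiff ℝ ∞ F) (z : ℂ) :
    (fderiv ℝ (sh F) z).det = fderiv ℝ F z 1 := by
  have h1 : HasFDerivAt (fun z => ((F z : ℝ) : ℂ)) (Complex.ofRealCLM.comp (fderiv ℝ F z)) z :=
    Complex.ofRealCLM.hasFDerivAt.comp z (hF.differentiable (by simp) z).hasFDerivAt
  have h2 : HasFDerivAt (fun z : ℂ => (z.im : ℂ)) (Complex.ofRealCLM.comp Complex.imCLM) z :=
    (Complex.ofRealCLM.comp Complex.imCLM).hasFDerivAt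
  have h3 : HasFDerivAt (sh F) _ z := h1.add (h2.mul_const Complex.I)
  rw [Mod.det_eq, h3.fderiv]
  simp

theorem det_comp_fderiv {f g : ℂ → ℂ} (hf : ContDiff ℝ ∞ f) (hg : ContDiff ℝ ∞ g) (z : ℂ) :
    (fderiv ℝ (fun x => f (g x)) z).det = (fderiv ℝ f (g z)).det * (fderiv ℝ g z).det := by
  have h1 : HasFDerivAt (fun x => f (g x)) ((fderiv ℝ f (g z)).comp (fderiv ℝ g z)) z :=
    ((hf.differentiable (by simp) _).hasFDerivAt).comp z
      (hg.differentiable (by simp) _).hasFDerivAt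
  rw [h1.fderiv, A2C.det_comp']

theorem line_strictMono {F : ℂ → ℝ} (hF : ContDiff ℝ ∞ F) (hpos : ∀ z, 0 < fderiv ℝ F z 1)
    (z : ℂ) : StrictMono (fun t : ℝ => F (z + (t : ℂ))) := by
  apply strictMono_of_deriv_pos
  intro t
  rw [(hasDerivAt_line hF z t).deriv]
  exact hpos _

theorem sh_inj {F : ℂ → ℝ} (hF : ContDiff ℝ ∞ F) (hpos : ∀ z, 0 < fderiv ℝ F z 1) :
    Injective (sh F) := by
  intro z w h
  have him : z.im = w.im := by
    have := congrArg Complex.im h
    simpa using this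
  have hre : F z = F w := by
    have := congrArg Complex.re h
    simpa using this
  have hz : z = w + ((z.re - w.re : ℝ) : ℂ) := by
    apply Complex.ext <;> simp [him]
  have h0 : F (w + ((z.re - w.re : ℝ) : ℂ)) = F (w + ((0 : ℝ) : ℂ)) := by
    rw [← hz, hre]
    simp
  have h1 := (line_strictMono hF hpos w).injective h0
  rw [hz, h1]
  simp

/-- the rearrangement -/
theorem rearr {F : ℂ → ℝ} (hF : ContDiff ℝ ∞ F) (hpos : ∀ z, 0 < fderiv ℝ F z 1) :
    ∃ H : ℂ → ℂ, Bijective H ∧ ContDiff ℝ ∞ H ∧ (∀ z, (H z).im = z.im) ∧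
      (∀ z, z.re ≤ (H z).re ∧ (H z).re ≤ z.re + 1) ∧
      ∀ z, fderiv ℝ (box F) (H z) 1 * (fderiv ℝ H z).det = fderiv ℝ F z 1 := by
  have hF1 := box_smooth hF
  have hpos1 : ∀ z, 0 < fderiv ℝ (box F) z 1 := by
    intro z
    rw [box_fderiv hF, box]
    apply intervalIntegral.intervalIntegral_pos_of_pos
    · apply Continuous.intervalIntegrable
      have : Continuous (fun w => fderiv ℝ F w 1) :=
        (hF.continuous_fderiv (by simp)).clm_apply continuous_const
      exact this.comp (by fun_prop)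
    · intro s
      exact hpos _
    · exact one_pos
  have hmono : ∀ z : ℂ, ∀ s t : ℝ, s ≤ t → F (z + s) ≤ F (z + t) := fun z s t h =>
    (line_strictMono hF hpos z).monotone h
  have hub : ∀ z, box F z ≤ F z := by
    intro z
    have h1 : box F z ≤ ∫ s in (0:ℝ)..1, F z := by
      apply intervalIntegral.integral_mono_on zero_le_one
      · exact (hF.continuous.comp (by fun_prop)).intervalIntegrable _ _
      · exact continuous_const.intervalIntegrable _ _
      · intro s hs
        have := hmono z (-s) 0 (by linarith [hs.1])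
        simpa [sub_eq_add_neg] using this
    simpa using h1
  have hlb : ∀ z, F (z - 1) ≤ box F z := by
    intro z
    have h1 : (∫ s in (0:ℝ)..1, F (z - 1)) ≤ box F z := by
      apply intervalIntegral.integral_mono_on zero_le_one
      · exact continuous_const.intervalIntegrable _ _
      · exact (hF.continuous.comp (by fun_prop)).intervalIntegrable _ _
      · intro s hs
        have := hmono z (-1) (-s) (by linarith [hs.2])
        simpa [sub_eq_add_neg] using this
    simpa using h1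
  have hex : ∀ z, ∃ w, w.im = z.im ∧ z.re ≤ w.re ∧ w.re ≤ z.re + 1 ∧ box F w = F z := by
    intro z
    have hc : ContinuousOn (fun t : ℝ => box F (z + (t : ℂ))) (Icc 0 1) :=
      (hF1.continuous.comp (by fun_prop)).continuousOn
    have h1 := intermediate_value_Icc zero_le_one hc
    have h2 : F z ∈ Icc (box F (z + ((0 : ℝ) : ℂ))) (box F (z + ((1 : ℝ) : ℂ))) := by
      constructor
      · simpa using hub z
      · have := hlb (z + 1)
        simpa using this
    obtain ⟨t, ht, hte⟩ := h1 h2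
    refine ⟨z + t, by simp, by simpa using ht.1, by simpa using ht.2, hte⟩
  choose H hHim hH1 hH2 hHe using hex
  have hcomp : ∀ z, sh (box F) (H z) = sh F z := by
    intro z
    apply Complex.ext
    · simp [hHe]
    · simp [hHim]
  have hinj1 := sh_inj hF1 hpos1
  obtain ⟨g, -, hg, hgl⟩ := Rat.inv_smooth (sh (box F)) univ isOpen_univ
    (sh_smooth hF1).contDiffOn hinj1.injOn (fun x _ => by rw [sh_det hF1]; exact hpos1 x)
  have hHg : H = fun z => g (sh F z) := by
    funext z
    rw [← hcomp z, hgl _ (mem_univ _)]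
  have hHs : ContDiff ℝ ∞ H := by
    rw [hHg, ← contDiffOn_univ]
    refine hg.comp (sh_smooth hF).contDiffOn ?_
    intro z _
    exact ⟨H z, mem_univ _, hcomp z⟩
  refine ⟨H, ⟨?_, ?_⟩, hHs, hHim, fun z => ⟨hH1 z, hH2 z⟩, ?_⟩
  · intro z w h
    apply sh_inj hF hpos
    rw [← hcomp, ← hcomp, h]
  · intro w
    have hc : ContinuousOn (fun t : ℝ => F ((w - 1) + (t : ℂ))) (Icc 0 1) :=
      (hF.continuous.comp (by fun_prop)).continuousOn
    have h1 := intermediate_value_Icc zero_le_one hc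
    have h2 : box F w ∈ Icc (F ((w - 1) + ((0 : ℝ) : ℂ))) (F ((w - 1) + ((1 : ℝ) : ℂ))) := by
      constructor
      · simpa using hlb w
      · simpa using hub w
    obtain ⟨t, ht, hte⟩ := h1 h2
    refine ⟨w - 1 + t, ?_⟩
    apply hinj1
    rw [hcomp]
    apply Complex.ext
    · simpa using hte
    · simp
  · intro z
    have h1 := det_comp_fderiv (sh_smooth hF1) hHs z
    have h2 : (fun x => sh (box F) (H x)) = sh F := funext hcomp
    rw [h2, sh_det hF, sh_det hF1] at h1
    exact h1.symm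

end Pool.Agent.D0H72.AP
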