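import Pool.Agent.D0H72.AP.DT

/-! Smoothing along a diameter -/

set_option autoImplicit false

open Set Filter Topology Metric Function
open scoped ContDiff

noncomputable section

namespace Pool.Agent.D0H72.AP

open Pool.Agent.Helper984_CP Pool.Agent.N550.KH

/-- the disc map agrees with `F` near one -/
theorem match_one {T F κ : ℂ → ℂ} {L δ₁ : ℝ} (hδ₁ : 0 < δ₁)
    (hT : ∀ s : ℂ, L ≤ s.re → T s = s - κ (Complex.exp (-s))) (h1 : F 1 = 1)
    (hF : ∀ q, ‖q‖ < δ₁ → 0 ≤ q.re → F (cy q) = cy (q * Complex.exp (κ q))) :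
    ∃ δ : ℝ, 0 < δ ∧ ∀ z, ‖z‖ ≤ 1 → ‖z - 1‖ < δ → dt T z = F z := by
  have hcy1 : Tendsto cy (𝓝 1) (𝓝 0) := by
    have := (cy_cont (q := 1) (by norm_num)).tendsto
    rwa [show cy 1 = 0 by simp [cy]] at this
  have hev : ∀ᶠ z in 𝓝 (1 : ℂ), ‖cy z‖ < min δ₁ (Real.exp (-L)) ∧ z ≠ -1 := by
    have h2 := hcy1.norm
    rw [norm_zero] at h2
    have h3 : (1 : ℂ) ≠ -1 := by norm_num
    exact (h2.eventually (gt_mem_nhds (lt_min hδ₁ (Real.exp_pos _)))).and (isOpen_ne.mem_nhds h3)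
  obtain ⟨δ, hδ, hδz⟩ := Metric.eventually_nhds_iff.1 hev
  refine ⟨δ, hδ, fun z hz hz1 => ?_⟩
  obtain ⟨a1, a2⟩ := hδz (y := z) (by rw [dist_eq_norm]; exact hz1)
  by_cases hz2 : z = 1
  · rw [hz2, dt_one, h1]
  obtain ⟨p1, p2, p3, p4, p5, -, -⟩ := pt hz hz2 a2
  have e1 : L ≤ (-Complex.log (cy z)).re := by
    rw [Complex.neg_re, Complex.log_re]
    have h2 : ‖cy z‖ < Real.exp (-L) := a1.trans_le (min_le_right _ _)
    have h3 := Real.log_le_log (norm_pos_iff.2 p3) h2.le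
    rw [Real.log_exp] at h3
    linarith
  rw [dt_of_ne hz2 a2, hT _ e1, p5]
  have e2 : Complex.exp (-(-Complex.log (cy z) - κ (cy z))) = cy z * Complex.exp (κ (cy z)) := by
    have h2 : -(-Complex.log (cy z) - κ (cy z)) = Complex.log (cy z) + κ (cy z) := by ring
    rw [h2, Complex.exp_add, Complex.exp_log p3]
  rw [e2, ← hF _ (a1.trans_le (min_le_left _ _)) p2, cy_cy p1]

theorem neg_disc {F : ℂ → ℂ} (hF : DiscMap F) : DiscMap (fun z => -F (-z)) where
  cont := by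
    apply ContinuousOn.neg
    refine hF.cont.comp continuous_neg.continuousOn ?_
    intro w hw
    rw [mem_closedBall_zero_iff] at hw ⊢
    rwa [norm_neg]
  inner z hz := by
    rw [norm_neg]
    exact hF.inner _ (by rwa [norm_neg])
  bdry z hz := by
    rw [norm_neg]
    exact hF.bdry _ (by rwa [norm_neg])

/-- a diffeomorphism of the disc with given ends -/
theorem exists_dt {F : ℂ → ℂ} (hF : DiscMap F) (h1 : F 1 = 1) (h2 : F (-1) = -1) {δ : ℝ}
    (hδ : 0 < δ) (hd1 : DifferentiableOn ℂ F {z | ‖z - 1‖ < δ ∧ ‖z‖ < 1})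
    (hd2 : DifferentiableOn ℂ F {z | ‖z + 1‖ < δ ∧ ‖z‖ < 1}) :
    ∃ D Di : ℂ → ℂ, DIso D Di ∧ (∀ z, ‖z‖ < 1 → Sm D z) ∧ ∃ δ' : ℝ, 0 < δ' ∧
      (∀ z, ‖z‖ ≤ 1 → ‖z - 1‖ < δ' → D z = F z) ∧
      ∀ z, ‖z‖ ≤ 1 → ‖z + 1‖ < δ' → D z = F z := by
  obtain ⟨κ₁, δ₁, a1, a2, a3, a4⟩ := exists_kap hF h1 hδ hd1
  have hd2' : DifferentiableOn ℂ (fun z => -F (-z)) {z | ‖z - 1‖ < δ ∧ ‖z‖ < 1} := by
    apply DifferentiableOn.neg
    refine hd2.comp differentiable_neg.differentiableOn ?_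
    intro z hz
    refine ⟨?_, by rw [norm_neg]; exact hz.2⟩
    have : -z + 1 = -(z - 1) := by ring
    rw [this, norm_neg]
    exact hz.1
  obtain ⟨κ₂, δ₂, b1, b2, b3, b4⟩ := exists_kap (neg_disc hF) (by simp [h2]) hδ hd2'
  obtain ⟨E₁, c1, c2, c3, ⟨L₁, c4, c5⟩, c6, B₁, c7⟩ := exists_ec a1 a2 a3 (ε := 1 / 8) (by norm_num)
  obtain ⟨E₂, d1, d2, d3, ⟨L₂, d4, d5⟩, d6, B₂, d7⟩ := exists_ec b1 b2 b3 (ε := 1 / 8) (by norm_num)
  have hH : ContDiff ℝ ∞ (fun s => -E₁ s + E₂ (-s)) := c1.neg.add (d1.comp contDiff_neg)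
  obtain ⟨T, t1, t2, t3, t4, t5⟩ := exists_strip hH (fun s => by
    have k1 : HasFDerivAt E₁ (fderiv ℝ E₁ s) s := (c1.differentiable (by simp) s).hasFDerivAt
    have k2 : HasFDerivAt E₂ (fderiv ℝ E₂ (-s)) (-s) :=
      (d1.differentiable (by simp) (-s)).hasFDerivAt
    have k3 : HasFDerivAt (fun s : ℂ => -s) (-(ContinuousLinearMap.id ℝ ℂ)) s :=
      (hasFDerivAt_id s).neg
    have k4 : HasFDerivAt (fun s => E₂ (-s))
        ((fderiv ℝ E₂ (-s)).comp (-(ContinuousLinearMap.id ℝ ℂ))) s := k2.comp s k3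
    have k5 : HasFDerivAt (fun s => -E₁ s + E₂ (-s)) (-(fderiv ℝ E₁ s) +
        (fderiv ℝ E₂ (-s)).comp (-(ContinuousLinearMap.id ℝ ℂ))) s := k1.neg.add k4
    rw [k5.fderiv]
    refine (norm_add_le _ _).trans ?_
    have n1 : ‖(fderiv ℝ E₂ (-s)).comp (-(ContinuousLinearMap.id ℝ ℂ))‖ ≤ 1 / 8 := by
      refine (ContinuousLinearMap.opNorm_comp_le _ _).trans ?_
      rw [norm_neg]
      calc ‖fderiv ℝ E₂ (-s)‖ * ‖ContinuousLinearMap.id ℝ ℂ‖ ≤ 1 / 8 * 1 :=
            mul_le_mul (d2 _) ContinuousLinearMap.norm_id_le (norm_nonneg _) (by norm_num)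
        _ = 1 / 8 := by norm_num
    rw [norm_neg]
    linarith [c2 s]) (fun s hs => by
    rw [Complex.add_im, Complex.neg_im, c6 s hs, d6 (-s) (by rwa [Complex.neg_im, abs_neg])]
    simp) (B := B₁ + B₂) (fun s => by
    refine (norm_add_le _ _).trans ?_
    rw [norm_neg]
    linarith [c7 s, d7 (-s)])
  obtain ⟨δ₃, e1, e2⟩ := match_one (T := T) (F := F) (κ := κ₁) (L := L₁) a1 (fun s hs => by
    rw [t1, d3 (-s) (by rw [Complex.neg_re]; linarith), c5 s hs]
    ring) h1 a4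
  obtain ⟨δ₄, e3, e4⟩ := match_one (T := fun s => -T (-s)) (F := fun z => -F (-z)) (κ := κ₂)
    (L := L₂) b1 (fun s hs => by
    rw [t1, c3 (-s) (by rw [Complex.neg_re]; linarith), neg_neg, d5 s hs]
    ring) (by simp [h2]) b4
  refine ⟨dt T, dt T.symm, dt_iso t4 t5, fun z hz => dt_sm t4 t2 t3 hz, min δ₃ δ₄,
    lt_min e1 e3, fun z hz hz1 => e2 z hz (hz1.trans_le (min_le_left _ _)), fun z hz hz1 => ?_⟩
  rw [dt_neg t4 hz, e4 (-z) (by rwa [norm_neg]) (by
    have : -z - 1 = -(z + 1) := by ring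
    rw [this, norm_neg]
    exact hz1.trans_le (min_le_right _ _))]
  simp

/-- smoothing along the real diameter of the unit disc -/
theorem smooth1_unit {f : ℂ ≃ₜ ℂ} (hf : OP f) {δ : ℝ} (hδ : 0 < δ)
    (h1 : DifferentiableOn ℂ f (ball 1 δ)) (h2 : DifferentiableOn ℂ f (ball (-1) δ)) :
    ∃ v : ℂ ≃ₜ ℂ, (∀ z, 1 ≤ ‖z‖ → v z = z) ∧ (∀ᶠ z in 𝓝 1, v z = z) ∧
      (∀ᶠ z in 𝓝 (-1), v z = z) ∧ ∀ x : ℝ, |x| ≤ 1 → Good (fun z => f (v z)) x := by
  obtain ⟨Φ, Q, α, q1, q2, q3, q4, q5, q6, q7, q8⟩ := dec hf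
  have hQn : ∀ z, 1 ≤ ‖z‖ → ‖Q z‖ = ‖z‖ := fun z hz => by rw [q7 z hz, norm_cone]
  have hQ : DIso Q Q.symm := DIso.of_homeo hQn q8
  obtain ⟨B, Bi, m1, m2, m3, m4, m5⟩ := exists_mob (a₁ := Q 1) (a₂ := Q (-1))
    (hQ.map.bdry _ (by simp)) (hQ.map.bdry _ (by simp)) (fun h => by
      have := Q.injective h
      norm_num at this)
  have hF := m1.symm.comp hQ
  have hF1 : Bi (Q 1) = 1 := by rw [← m2, m1.left 1 (by simp)]
  have hF2 : Bi (Q (-1)) = -1 := by rw [← m3, m1.left (-1) (by simp)]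
  have hFd : ∀ (c : ℂ), DifferentiableOn ℂ f (ball c δ) →
      DifferentiableOn ℂ (fun z => Bi (Q z)) {z | ‖z - c‖ < δ ∧ ‖z‖ < 1} := by
    intro c hc z hz
    have hzb : z ∈ ball (0 : ℂ) 1 := mem_ball_zero_iff.2 hz.2
    have ho : IsOpen (f '' ball 0 1) := f.isOpenMap _ isOpen_ball
    have e1 : (fun z => Bi (Q z)) = fun z => Bi (Φ.symm (f z)) := by
      funext w
      rw [q1 w, Φ.symm_apply_apply]
    rw [e1]
    apply DifferentiableAt.differentiableWithinAt
    have d1 : DifferentiableAt ℂ f z := hc.differentiableAt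
      (isOpen_ball.mem_nhds (by rw [mem_ball, dist_eq_norm]; exact hz.1))
    have d2 : DifferentiableAt ℂ Φ.symm (f z) := q3.differentiableAt
      (ho.mem_nhds ⟨z, hzb, rfl⟩)
    have d3 : DifferentiableAt ℂ Bi (Φ.symm (f z)) := by
      apply m5
      rw [q1 z, Φ.symm_apply_apply]
      exact (q8 z hz.2).le
    exact d3.comp z (d2.comp z d1)
  have hFd1 := hFd 1 h1
  have hFd2 := hFd (-1) h2
  simp only [sub_neg_eq_add] at hFd2
  obtain ⟨D, Di, n1, n2, δ', n3, n4, n5⟩ := exists_dt hF.map hF1 hF2 hδ hFd1 hFd2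
  have hg := n1.symm.comp hF
  obtain ⟨δ₁, k1, k2⟩ := hg.straight n3 (fun z hz hz1 => by
    rw [← n4 z hz.le hz1, n1.left z hz.le]) (fun z hz hz1 => by
    rw [← n5 z hz.le hz1, n1.left z hz.le])
  obtain ⟨G, g1, g2, g3, g4, g5⟩ := k2 (δ₁ / 2) (by positivity)
  have hG : DIso G G.symm := DIso.of_homeo (fun z _ => g1 z) (fun z hz => by rw [g1]; exact hz)
  have hV := hF.symm.comp (n1.comp hG)
  obtain ⟨v, v1, v2⟩ := hV.extend (fun z hz => by
    rw [g2 z hz, n1.right _ (hF.map.le hz.le)]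
    exact hF.left z hz.le)
  have hnear : ∀ z, ‖z‖ ≤ 1 → G z = z → D z = Bi (Q z) → v z = z := by
    intro z hz hz1 hz2
    rw [v1 z hz]
    rw [hz1, hz2]
    exact hF.left z hz
  have hid1 : ∀ᶠ z in 𝓝 1, v z = z := by
    filter_upwards [ball_mem_nhds (1 : ℂ) (lt_min k1 n3)] with z hz
    rw [mem_ball, dist_eq_norm] at hz
    rcases le_total ‖z‖ 1 with h | h
    · exact hnear z h (g4 z (hz.trans_le (min_le_left _ _)))
        (n4 z h (hz.trans_le (min_le_right _ _)))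
    · exact v2 z h
  have hid2 : ∀ᶠ z in 𝓝 (-1), v z = z := by
    filter_upwards [ball_mem_nhds (-1 : ℂ) (lt_min k1 n3)] with z hz
    rw [mem_ball, dist_eq_norm, sub_neg_eq_add] at hz
    rcases le_total ‖z‖ 1 with h | h
    · exact hnear z h (g5 z (hz.trans_le (min_le_left _ _)))
        (n5 z h (hz.trans_le (min_le_right _ _)))
    · exact v2 z h
  refine ⟨v, v2, hid1, hid2, fun x hx => ?_⟩
  rcases hx.lt_or_eq with hx | hx
  · -- interior points
    have hxn : ‖(x : ℂ)‖ < 1 := by rwa [Complex.norm_real, Real.norm_eq_abs]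
    have hGid : ∀ᶠ w in 𝓝 (x : ℂ), G w = w := by
      by_cases hc : |x| < 1 - δ₁ / 2
      · filter_upwards [isOpen_ball.mem_nhds (show (x : ℂ) ∈ ball (0 : ℂ) (1 - δ₁ / 2) by
          rw [mem_ball_zero_iff, Complex.norm_real, Real.norm_eq_abs]; exact hc)] with w hw
        exact g3 w (mem_ball_zero_iff.1 hw).le
      · push Not at hc
        rcases le_total 0 x with h0 | h0
        · rw [abs_of_nonneg h0] at hc hx
          have h3 : (x : ℂ) ∈ ball (1 : ℂ) δ₁ := by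
            rw [mem_ball, dist_eq_norm, ← Complex.ofReal_one, ← Complex.ofReal_sub,
              Complex.norm_real, Real.norm_eq_abs, abs_of_neg (by linarith)]
            linarith
          filter_upwards [isOpen_ball.mem_nhds h3] with w hw
          rw [mem_ball, dist_eq_norm] at hw
          exact g4 w hw
        · rw [abs_of_nonpos h0] at hc hx
          have h3 : (x : ℂ) ∈ ball (-1 : ℂ) δ₁ := by
            rw [mem_ball, dist_eq_norm, sub_neg_eq_add, ← Complex.ofReal_one, ← Complex.ofReal_add,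
              Complex.norm_real, Real.norm_eq_abs, abs_of_pos (by linarith)]
            linarith
          filter_upwards [isOpen_ball.mem_nhds h3] with w hw
          rw [mem_ball, dist_eq_norm, sub_neg_eq_add] at hw
          exact g5 w hw
    have hDg : Good D x := by
      filter_upwards [isOpen_ball.mem_nhds (mem_ball_zero_iff.2 hxn)] with w hw
      exact n2 w (mem_ball_zero_iff.1 hw)
    have hBg : Good B (D x) := by
      refine Good.of_inj (U := ball 0 1) isOpen_ball (fun w hw =>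
        (m4 w (mem_ball_zero_iff.1 hw).le).differentiableWithinAt) ?_
        (mem_ball_zero_iff.2 (n1.map.inner _ hxn))
      intro a ha b hb hab
      rw [← m1.left a (mem_ball_zero_iff.1 ha).le, hab, m1.left b (mem_ball_zero_iff.1 hb).le]
    have hΦg : Good Φ (B (D x)) := Good.of_inj isOpen_ball q2 Φ.injective.injOn
      (mem_ball_zero_iff.2 (m1.map.inner _ (n1.map.inner _ hxn)))
    have hall : Good (fun w => Φ (B (D w))) x := Good.comp (f := Φ) (g := fun w => B (D w)) hΦg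
      (Good.comp (f := B) (g := D) hBg hDg)
    refine hall.congr ?_
    filter_upwards [hGid, isOpen_ball.mem_nhds (mem_ball_zero_iff.2 hxn)] with w hw hw1
    rw [v1 w (mem_ball_zero_iff.1 hw1).le]
    rw [hw, q1, Q.apply_symm_apply]
  · -- the end points
    have hfg : ∀ c : ℂ, DifferentiableOn ℂ f (ball c δ) → Good f c := fun c hc =>
      Good.of_inj isOpen_ball hc f.injective.injOn (mem_ball_self hδ)
    have hcg : ∀ c : ℂ, DifferentiableOn ℂ f (ball c δ) → (∀ᶠ z in 𝓝 c, v z = z) →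
        Good (fun z => f (v z)) c := by
      intro c hc hv
      refine (hfg c hc).congr ?_
      filter_upwards [hv] with z hz
      rw [hz]
    rcases (abs_eq (zero_le_one)).1 hx with h | h
    · rw [h, Complex.ofReal_one]
      exact hcg 1 h1 hid1
    · rw [h, Complex.ofReal_neg, Complex.ofReal_one]
      exact hcg (-1) h2 hid2

/-- smoothing along a diameter of a disc -/
theorem smooth1 {f : ℂ ≃ₜ ℂ} (hf : OP f) (c : ℂ) {e : ℂ} (he : e ≠ 0) {δ : ℝ} (hδ : 0 < δ)
    (h1 : DifferentiableOn ℂ f (ball (c + e) δ)) (h2 : DifferentiableOn ℂ f (ball (c - e) δ)) :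
    ∃ v : ℂ ≃ₜ ℂ, (∀ z, ‖e‖ ≤ ‖z - c‖ → v z = z) ∧ (∀ᶠ z in 𝓝 (c + e), v z = z) ∧
      (∀ᶠ z in 𝓝 (c - e), v z = z) ∧
      ∀ x : ℝ, |x| ≤ 1 → Good (fun z => f (v z)) (c + x * e) := by
  have hen : 0 < ‖e‖ := norm_pos_iff.2 he
  have hd : ∀ a : ℂ, DifferentiableOn ℂ f (ball (c + a * e) δ) →
      DifferentiableOn ℂ ((aff e c he).trans f) (ball a (δ / ‖e‖)) := by
    intro a ha
    refine ha.comp (g := f) (f := fun z => e * z + c) (by fun_prop) ?_
    intro z hz
    rw [mem_ball, dist_eq_norm] at hz ⊢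
    have : e * z + c - (c + a * e) = e * (z - a) := by ring
    rw [this, norm_mul]
    rwa [lt_div_iff₀' hen] at hz
  obtain ⟨v, v1, v2, v3, v4⟩ := smooth1_unit (hf.comp (OP.aff e c he)) (δ := δ / ‖e‖)
    (by positivity) (hd 1 (by rw [one_mul]; exact h1)) (hd (-1) (by
      have : c + -1 * e = c - e := by ring
      rw [this]; exact h2))
  have hlim : ∀ a : ℂ, Tendsto (fun z : ℂ => (z - c) / e) (𝓝 (c + a * e)) (𝓝 a) := by
    intro a
    have h3 : Continuous (fun z : ℂ => (z - c) / e) := by fun_prop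
    have h4 := h3.tendsto (c + a * e)
    have h5 : (c + a * e - c) / e = a := by
      field_simp
      ring
    rwa [h5] at h4
  have hid : ∀ a : ℂ, (∀ᶠ z in 𝓝 a, v z = z) → ∀ᶠ z in 𝓝 (c + a * e),
      ((aff e c he).symm.trans (v.trans (aff e c he))) z = z := by
    intro a ha
    filter_upwards [(hlim a).eventually ha] with z hz
    simp only [Homeomorph.trans_apply, aff_apply, aff_symm_apply]
    rw [hz]
    field_simp
    ring
  refine ⟨(aff e c he).symm.trans (v.trans (aff e c he)), fun z hz => ?_, ?_, ?_, fun x hx => ?_⟩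
  · simp only [Homeomorph.trans_apply, aff_apply, aff_symm_apply]
    rw [v1]
    · field_simp
      ring
    · rwa [norm_div, le_div_iff₀ hen, one_mul]
  · have := hid 1 v2
    rwa [one_mul] at this
  · have := hid (-1) v3
    have e1 : c + -1 * e = c - e := by ring
    rwa [e1] at this
  · have h3 := v4 x hx
    have h4 : Good (fun z : ℂ => (z - c) / e) (c + x * e) := by
      refine Good.of_inj isOpen_univ (by fun_prop) ?_ (mem_univ _)
      intro a _ b _ hab
      simp only at hab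
      rw [div_left_inj' he] at hab
      linear_combination hab
    have h5 : (c + x * e - c) / e = x := by
      field_simp
      ring
    have h6 := Good.comp (f := fun z => ((aff e c he).trans f) (v z))
      (g := fun z : ℂ => (z - c) / e) (z := c + x * e) (by rw [h5]; exact h3) h4
    exact h6

end Pool.Agent.D0H72.AP
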