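import Pool.Agent.D0H72.AP.Step1
import Pool.Agent.N550.KH.Hol
import Pool.Agent.N550.KH.Rat
import Pool.Agent.N550.KH.Refl
import Pool.Agent.N550.KH.Cut
import Pool.Agent.N550.KH.Trig

/-! Smoothing inside a disc -/

set_option autoImplicit false

open Set Filter Topology Metric Function
open scoped ContDiff

noncomputable section

namespace Pool.Agent.D0H72.AP

open Pool.Agent.N550.KH

theorem hol : S_HOL := Hol.main (Mod.main Cut.main) (Rat.main Trig.main)
theorem disc : S_DISC := Disc.main (Mod.main Cut.main)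

/-- the inverse of a diffeomorphism -/
theorem Sm.symm {Φ : ℂ ≃ₜ ℂ} (hs : ContDiff ℝ ∞ Φ) (hd : ∀ x, 0 < (fderiv ℝ Φ x).det) (z : ℂ) :
    Sm Φ.symm z := by
  obtain ⟨B, B1, B2, sB⟩ := Disc.inv_smooth hs Φ.bijective hd
  have hB : (⇑Φ.symm : ℂ → ℂ) = B := by
    funext z
    apply Φ.injective
    rw [Φ.apply_symm_apply, B2]
  rw [hB]
  refine ⟨sB.contDiffAt, ?_⟩
  have h1 : HasFDerivAt (fun x => Φ (B x)) ((fderiv ℝ Φ (B z)).comp (fderiv ℝ B z)) z :=
    ((hs.differentiable (by simp) _).hasFDerivAt).comp z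
      (sB.differentiable (by simp) _).hasFDerivAt
  have h2 : (fun x => Φ (B x)) = fun x => x := funext B2
  rw [h2] at h1
  have h3 := h1.unique (hasFDerivAt_id z)
  have h4 : (fderiv ℝ Φ (B z)).det * (fderiv ℝ B z).det = 1 := by
    rw [← A2C.det_comp', h3]
    exact LinearMap.det_id
  have h5 := hd (B z)
  by_contra hc
  push Not at hc
  nlinarith

theorem smooth2_unit {f : ℂ ≃ₜ ℂ} {r₀ : ℝ} (hr₀ : 0 < r₀) (hr₁ : r₀ < 1)
    (hf : ∀ x, r₀ < ‖x‖ → ‖x‖ < 1 → Sm f x) :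
    ∃ (v : ℂ ≃ₜ ℂ) (r₁ : ℝ), r₁ < 1 ∧ (∀ x, r₁ ≤ ‖x‖ → v x = x) ∧
      ∀ x, ‖x‖ < 1 → Sm (fun z => f (v z)) x := by
  obtain ⟨s, hs⟩ : ∃ s, s = (r₀ + 1) / 2 := ⟨_, rfl⟩
  obtain ⟨η, hη⟩ : ∃ η, η = (1 - r₀) / 4 := ⟨_, rfl⟩
  have hη0 : 0 < η := by linarith
  have hηs : η < s := by linarith
  have hs0 : 0 < s := by linarith
  have hs2 : s < 1 := by linarith
  have hsub : An s η ⊆ {x | r₀ < ‖x‖ ∧ ‖x‖ < 1} := by
    intro x hx
    have h1 := hx.1
    have h2 := hx.2
    exact ⟨by linarith, by linarith⟩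
  obtain ⟨Φ, Φb, Φc, Φd, Φid, ρ, hρ0, hρη, hhol⟩ := hol f s η hη0 hηs
    (fun x hx => (hf x (hsub hx).1 (hsub hx).2).1.contDiffWithinAt)
    f.injective.injOn (fun x hx => (hf x (hsub hx).1 (hsub hx).2).2)
  obtain ⟨Φh, hΦh⟩ := A2C.homeo Φb Φc Φd
  have hΦe : (⇑Φh : ℂ → ℂ) = Φ := funext hΦh
  -- `Φ` preserves the annulus
  have Φan : ∀ x, Φ x ∈ An s η ↔ x ∈ An s η := by
    intro x
    constructor
    · intro h
      by_contra hx
      rw [Φid x hx] at h
      exact hx h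
    · intro h
      by_contra hx
      have h1 := Φid _ hx
      rw [Φb.1 h1] at hx
      exact hx h
  -- the homeomorphism `E`
  obtain ⟨E, hE⟩ : ∃ E : ℂ ≃ₜ ℂ, E = Φh.trans f := ⟨_, rfl⟩
  have hEa : ∀ x, E x = f (Φ x) := by
    intro x
    rw [hE, ← hΦh]
    rfl
  have Einj := E.injective
  have Esm : ∀ x, s ≤ ‖x‖ → ‖Φ x‖ < 1 → Sm E x := by
    intro x h1 h2
    have h3 : r₀ < ‖Φ x‖ := by
      by_cases hx : x ∈ An s η
      · exact (hsub ((Φan x).2 hx)).1
      · rw [Φid x hx]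
        linarith
    have h5 : (E : ℂ → ℂ) = fun x => f (Φ x) := funext hEa
    rw [h5]
    exact Sm.comp (f := f) (g := Φ) (hf _ h3 h2) ⟨Φc.contDiffAt, Φd x⟩
  -- the domain `D`
  obtain ⟨D, hD⟩ : ∃ D, D = E '' ball 0 s := ⟨_, rfl⟩
  have hDo : IsOpen D := by
    rw [hD]
    exact E.isOpenMap _ isOpen_ball
  have hDsc : IsSimplyConnected D := by
    have h1 : ContractibleSpace (ball (0 : ℂ) s) :=
      (convex_ball 0 s).contractibleSpace ⟨0, mem_ball_self hs0⟩
    have h2 : SimplyConnectedSpace (ball (0 : ℂ) s) := inferInstance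
    have h3 : (ball (0 : ℂ) s) ≃ₜ D := E.toOpenPartialHomeomorph.homeomorphOfImageSubsetSource
      (by simp) hD.symm
    exact h3.symm.toHomotopyEquiv.simplyConnectedSpace
  have hDD : ∀ x, E x ∈ D → ‖x‖ < s := by
    intro x h
    rw [hD] at h
    obtain ⟨y, hy, hyx⟩ := h
    rw [← Einj hyx]
    rwa [mem_ball_zero_iff] at hy
  have hDne : D ≠ univ := by
    intro h
    have h1 : E ((s : ℝ) : ℂ) ∈ D := by rw [h]; trivial
    have h2 := hDD _ h1
    rw [Complex.norm_real, Real.norm_eq_abs, abs_of_pos hs0] at h2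
    exact lt_irrefl _ h2
  have h0D : E 0 ∈ D := by rw [hD]; exact ⟨0, mem_ball_self hs0, rfl⟩
  obtain ⟨g, φ, gd, gb, gne, -, φd, φm, gφ, φg⟩ :=
    Pool.Agent.Helper202.Riemann.riemann_inv hDo hDsc hDne h0D
  have ED : ∀ x, ‖x‖ < s → E x ∈ D := fun x hx => by
    rw [hD]; exact ⟨x, by rwa [mem_ball_zero_iff], rfl⟩
  -- Schwarz reflection
  obtain ⟨F, ρ₂, hρ₂, hρ₂ρ, Fd, Fi, Fa, F1⟩ := Refl.main (fun x => φ (E x)) s ρ hρ0
    (hρη.trans hηs)
    (by
      have h1 : DifferentiableOn ℂ E {x | s - ρ < ‖x‖ ∧ ‖x‖ < s} := by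
        have h2 : (E : ℂ → ℂ) = fun x => f (Φ x) := funext hEa
        rw [h2]
        exact hhol.mono fun x hx => ⟨hx.1, by linarith [hx.2]⟩
      exact φd.comp h1 fun x hx => ED x hx.2)
    (by
      intro x hx y hy hxy
      have h1 : g (φ (E x)) = g (φ (E y)) := congrArg g hxy
      rw [gφ _ (ED x hx.2), gφ _ (ED y hy.2)] at h1
      exact Einj h1)
    (by
      intro x _ hx
      have := φm (ED x hx)
      rwa [mem_ball_zero_iff] at this)
    (by
      intro ε hε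
      -- the compact set
      have hK : IsCompact (E.symm '' (g '' closedBall 0 (1 - ε))) := by
        have h1 : closedBall (0 : ℂ) (1 - ε) ⊆ ball 0 1 := closedBall_subset_ball (by linarith)
        have h2 : IsCompact (g '' closedBall 0 (1 - ε)) :=
          (isCompact_closedBall 0 (1 - ε)).image_of_continuousOn (gd.continuousOn.mono h1)
        exact h2.image E.symm.continuous
      have hKs : ∀ x ∈ E.symm '' (g '' closedBall 0 (1 - ε)), ‖x‖ < s := by
        rintro _ ⟨_, ⟨w, hw, rfl⟩, rfl⟩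
        have h1 : w ∈ ball (0 : ℂ) 1 := closedBall_subset_ball (by linarith) hw
        have h2 := gb.mapsTo h1
        rw [hD] at h2
        obtain ⟨y, hy, hyx⟩ := h2
        rw [← hyx, E.symm_apply_apply]
        rwa [mem_ball_zero_iff] at hy
      have hin : ∀ x, ‖x‖ < s → ‖φ (E x)‖ ≤ 1 - ε →
          x ∈ E.symm '' (g '' closedBall 0 (1 - ε)) := by
        intro x hx h
        refine ⟨E x, ⟨φ (E x), by rwa [mem_closedBall_zero_iff], gφ _ (ED x hx)⟩, ?_⟩
        exact E.symm_apply_apply x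
      rcases (E.symm '' (g '' closedBall 0 (1 - ε))).eq_empty_or_nonempty with h0 | h0
      · refine ⟨1, one_pos, fun x _ hx => ?_⟩
        by_contra hc
        push Not at hc
        have := hin x hx hc
        rw [h0] at this
        exact this
      · obtain ⟨x₀, hx₀, hmax⟩ := hK.exists_isMaxOn h0 continuous_norm.continuousOn
        refine ⟨s - ‖x₀‖, by linarith [hKs x₀ hx₀], fun x hx1 hx2 => ?_⟩
        by_contra hc
        push Not at hc
        have h1 : ‖x‖ ≤ ‖x₀‖ := hmax (hin x hx2 hc)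
        linarith)
  obtain ⟨A, ρ₃, hρ₃, hρ₃ρ, Ab, Ac, Ad, AF⟩ := disc F s ρ₂ hρ₂ (by linarith) Fd Fi F1
    (by
      intro x h1 h2
      rw [Fa x h1 h2]
      have := φm (ED x h2)
      rwa [mem_ball_zero_iff] at this)
  -- the map
  have glue : ∀ x, s - ρ₃ < ‖x‖ → ‖x‖ < s → g (A x) = E x := by
    intro x h1 h2
    rw [AF x h1 h2, Fa x (by linarith) h2]
    exact gφ _ (ED x h2)
  have Amem : ∀ x, ‖x‖ < s → A x ∈ ball (0 : ℂ) 1 := fun x hx =>
    Ab.mapsTo (by rwa [mem_ball_zero_iff])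
  obtain ⟨f3, hf3⟩ : ∃ f3 : ℂ → ℂ, f3 = fun x => if ‖x‖ < s then g (A x) else E x := ⟨_, rfl⟩
  have f1 : ∀ x, ‖x‖ < s → f3 x = g (A x) := fun x hx => by rw [hf3]; exact if_pos hx
  have f2 : ∀ x, s - ρ₃ < ‖x‖ → f3 x = E x := by
    intro x hx
    by_cases h : ‖x‖ < s
    · rw [f1 x h, glue x hx h]
    · rw [hf3]; exact if_neg h
  have n1 : ∀ x, ‖x‖ < s → f3 =ᶠ[𝓝 x] fun y => g (A y) := by
    intro x hx
    filter_upwards [(isOpen_lt continuous_norm continuous_const).mem_nhds hx] with y hy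
    exact f1 y hy
  have n2 : ∀ x, s - ρ₃ < ‖x‖ → f3 =ᶠ[𝓝 x] E := by
    intro x hx
    filter_upwards [(isOpen_lt continuous_const continuous_norm).mem_nhds hx] with y hy
    exact f2 y hy
  have gsm : ∀ z ∈ ball (0 : ℂ) 1, Sm g z := fun z hz =>
    (Good.of_inj isOpen_ball gd gb.injOn hz).sm
  have f3sm : ∀ x, ‖x‖ < s → Sm f3 x := by
    intro x hx
    refine (Sm.comp (f := g) (g := A) (gsm _ (Amem x hx)) ⟨?_, ?_⟩).congr (n1 x hx)
    · exact Ac.contDiffAt (isOpen_ball.mem_nhds (by rwa [mem_ball_zero_iff]))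
    · exact Ad x (by rwa [mem_ball_zero_iff])
  have hbij : Bijective f3 := by
    constructor
    · have key : ∀ x y, f3 x = f3 y → ‖x‖ < s → x = y := by
        intro x y hxy h1
        by_cases h2 : ‖y‖ < s
        · rw [f1 x h1, f1 y h2] at hxy
          exact Ab.injOn (by rwa [mem_ball_zero_iff]) (by rwa [mem_ball_zero_iff])
            (gb.injOn (Amem x h1) (Amem y h2) hxy)
        · rw [f1 x h1, f2 y (by linarith [not_lt.1 h2])] at hxy
          have h3 : E y ∈ D := by rw [← hxy]; exact gb.mapsTo (Amem x h1)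
          exact absurd (hDD y h3) h2
      intro x y hxy
      by_cases h1 : ‖x‖ < s
      · exact key x y hxy h1
      · by_cases h2 : ‖y‖ < s
        · exact (key y x hxy.symm h2).symm
        · rw [f2 x (by linarith [not_lt.1 h1]), f2 y (by linarith [not_lt.1 h2])] at hxy
          exact Einj hxy
    · intro z
      obtain ⟨x, hx⟩ : ∃ x, x = E.symm z := ⟨_, rfl⟩
      have h3 : E x = z := by rw [hx]; exact E.apply_symm_apply z
      by_cases h4 : ‖x‖ < s
      · have h5 : z ∈ D := by rw [← h3]; exact ED x h4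
        obtain ⟨w, hw, hwz⟩ := gb.surjOn h5
        obtain ⟨y, hy, hyw⟩ := Ab.surjOn hw
        refine ⟨y, ?_⟩
        rw [f1 y (by rwa [mem_ball_zero_iff] at hy), hyw, hwz]
      · exact ⟨x, by rw [f2 x (by linarith [not_lt.1 h4]), h3]⟩
  have hcont : Continuous f3 := by
    rw [continuous_iff_continuousAt]
    intro x
    by_cases h : ‖x‖ < s
    · exact (f3sm x h).1.continuousAt
    · exact E.continuous.continuousAt.congr (n2 x (by linarith [not_lt.1 h])).symm
  have hopen : IsOpenMap f3 := by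
    rw [isOpenMap_iff_nhds_le]
    intro x
    by_cases h : ‖x‖ < s
    · have h1 : HasStrictFDerivAt f3 (((fderiv ℝ f3 x).toContinuousLinearEquivOfDetNeZero
          (f3sm x h).2.ne' : ℂ ≃L[ℝ] ℂ) : ℂ →L[ℝ] ℂ) x := by
        rw [ContinuousLinearMap.coe_toContinuousLinearEquivOfDetNeZero]
        exact (f3sm x h).1.hasStrictFDerivAt (by simp)
      exact h1.map_nhds_eq_of_equiv.ge
    · have h1 := n2 x (by linarith [not_lt.1 h])
      rw [Filter.map_congr h1, h1.self_of_nhds]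
      exact (E.map_nhds_eq x).ge
  obtain ⟨f3h, hf3h⟩ : ∃ f3h : ℂ ≃ₜ ℂ, ∀ x, f3h x = f3 x :=
    ⟨(Equiv.ofBijective f3 hbij).toHomeomorphOfContinuousOpen hcont hopen, fun x => rfl⟩
  have hfv : ∀ z, f ((Φh.symm.trans (f3h.trans f.symm)) z) = f3 (Φh.symm z) := by
    intro z
    simp only [Homeomorph.trans_apply]
    rw [f.apply_symm_apply, hf3h]
  refine ⟨Φh.symm.trans (f3h.trans f.symm), s + η, by linarith, fun z hz => ?_, fun z hz => ?_⟩
  · have h1 : z ∉ An s η := by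
      intro h
      exact absurd h.2 (not_lt.2 hz)
    have h2 : Φh.symm z = z := by
      apply Φh.injective
      rw [Φh.apply_symm_apply, hΦh, Φid z h1]
    apply f.injective
    rw [hfv, h2, f2 z (by linarith), hEa, Φid z h1]
  · have h1 : (fun z => f ((Φh.symm.trans (f3h.trans f.symm)) z)) =
        fun z => f3 (Φh.symm z) := funext hfv
    rw [h1]
    have h2 : Sm Φh.symm z := Sm.symm (by rw [hΦe]; exact Φc) (by rw [hΦe]; exact Φd) z
    refine Sm.comp (f := f3) (g := Φh.symm) ?_ h2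
    by_cases h : ‖Φh.symm z‖ < s
    · exact f3sm _ h
    · have h3 : Φ (Φh.symm z) = z := by rw [← hΦh, Φh.apply_symm_apply]
      exact (Esm _ (not_lt.1 h) (by rw [h3]; exact hz)).congr (n2 _ (by linarith [not_lt.1 h]))

end Pool.Agent.D0H72.AP
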