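import Pool.Agent.D0H72.AP.Kap
import Pool.Agent.D0H72.AP.EC
import Pool.Agent.D0H72.AP.Good

/-! Homeomorphisms of the strip and of the disc -/

set_option autoImplicit false

open Set Filter Topology Metric Function
open scoped ContDiff NNReal

noncomputable section

namespace Pool.Agent.D0H72.AP

open Pool.Agent.Helper984_CP Pool.Agent.N550.KH

/-- maps of the plane which preserve the strip `|Im| ≤ π / 2` and have bounded displacement -/
structure StripMap (T : ℂ → ℂ) (B : ℝ) : Prop where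
  cont : Continuous T
  bdd : ∀ s, ‖T s - s‖ ≤ B
  inner : ∀ s, |s.im| < Real.pi / 2 → |(T s).im| < Real.pi / 2
  bdry : ∀ s, |s.im| = Real.pi / 2 → |(T s).im| = Real.pi / 2

theorem StripMap.le {T : ℂ → ℂ} {B : ℝ} (h : StripMap T B) {s : ℂ} (hs : |s.im| ≤ Real.pi / 2) :
    |(T s).im| ≤ Real.pi / 2 := by
  rcases hs.lt_or_eq with h1 | h1
  · exact (h.inner s h1).le
  · exact (h.bdry s h1).le

theorem StripMap.neg {T : ℂ → ℂ} {B : ℝ} (h : StripMap T B) : StripMap (fun s => -T (-s)) B where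
  cont := (h.cont.comp continuous_neg).neg
  bdd s := by
    have : -T (-s) - s = -(T (-s) - (-s)) := by ring
    rw [this, norm_neg]
    exact h.bdd _
  inner s hs := by
    rw [Complex.neg_im, abs_neg]
    exact h.inner _ (by rwa [Complex.neg_im, abs_neg])
  bdry s hs := by
    rw [Complex.neg_im, abs_neg]
    exact h.bdry _ (by rwa [Complex.neg_im, abs_neg])

/-- perturbations of the identity -/
theorem exists_strip {H : ℂ → ℂ} (hH : ContDiff ℝ ∞ H) (hd : ∀ s, ‖fderiv ℝ H s‖ ≤ 1 / 4)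
    (hb : ∀ s : ℂ, |s.im| = Real.pi / 2 → (H s).im = 0) {B : ℝ} (hB : ∀ s, ‖H s‖ ≤ B) :
    ∃ T : ℂ ≃ₜ ℂ, (∀ s, T s = s + H s) ∧ ContDiff ℝ ∞ T ∧ (∀ s, 0 < (fderiv ℝ T s).det) ∧
      StripMap T B ∧ StripMap T.symm B := by
  have hlip : ∀ x y, ‖H x - H y‖ ≤ 1 / 4 * ‖x - y‖ := by
    intro x y
    exact convex_univ.norm_image_sub_le_of_norm_fderiv_le (𝕜 := ℝ)
      (fun z _ => hH.differentiable (by simp) z) (fun z _ => hd z) (mem_univ y) (mem_univ x)
  have hA : ApproximatesLinearOn (fun s => s + H s)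
      ((ContinuousLinearEquiv.refl ℝ ℂ : ℂ ≃L[ℝ] ℂ) : ℂ →L[ℝ] ℂ) univ (1 / 4 : ℝ≥0) := by
    intro x _ y _
    simp only [ContinuousLinearEquiv.coe_refl, ContinuousLinearMap.coe_id', id_eq]
    have : x + H x - (y + H y) - (x - y) = H x - H y := by ring
    rw [this]
    exact hlip x y
  obtain ⟨T, hT⟩ : ∃ T : ℂ ≃ₜ ℂ, ∀ s, T s = s + H s := by
    refine ⟨hA.toHomeomorph _ (Or.inr ?_), fun s => rfl⟩
    have h1 : ‖(((ContinuousLinearEquiv.refl ℝ ℂ).symm : ℂ ≃L[ℝ] ℂ) : ℂ →L[ℝ] ℂ)‖₊ ≤ 1 := by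
      have : ‖(((ContinuousLinearEquiv.refl ℝ ℂ).symm : ℂ ≃L[ℝ] ℂ) : ℂ →L[ℝ] ℂ)‖ ≤ 1 :=
        ContinuousLinearMap.norm_id_le
      exact_mod_cast this
    have h2 : 0 < ‖(((ContinuousLinearEquiv.refl ℝ ℂ).symm : ℂ ≃L[ℝ] ℂ) : ℂ →L[ℝ] ℂ)‖₊ := by
      rw [pos_iff_ne_zero, Ne, nnnorm_eq_zero]
      intro h
      have := congrArg (fun L : ℂ →L[ℝ] ℂ => L 1) h
      simp at this
    have h3 : (1 : ℝ≥0) ≤ ‖(((ContinuousLinearEquiv.refl ℝ ℂ).symm : ℂ ≃L[ℝ] ℂ) :
        ℂ →L[ℝ] ℂ)‖₊⁻¹ := by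
      rw [one_le_inv₀ h2]
      exact h1
    refine lt_of_lt_of_le ?_ h3
    rw [← NNReal.coe_lt_coe]
    norm_num
  have hTe : (⇑T : ℂ → ℂ) = fun s => s + H s := funext hT
  have hTs : ContDiff ℝ ∞ T := by
    rw [hTe]
    exact contDiff_id.add hH
  have hTd : ∀ s, 0 < (fderiv ℝ T s).det := by
    intro s
    have h1 : HasFDerivAt T (ContinuousLinearMap.id ℝ ℂ + fderiv ℝ H s) s := by
      rw [hTe]
      exact (hasFDerivAt_id s).add (hH.differentiable (by simp) s).hasFDerivAt
    rw [h1.fderiv, Mod.det_eq]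
    have n1 : ‖fderiv ℝ H s 1‖ ≤ 1 / 4 := by
      have := (fderiv ℝ H s).le_opNorm 1
      rw [norm_one, mul_one] at this
      exact this.trans (hd s)
    have n2 : ‖fderiv ℝ H s Complex.I‖ ≤ 1 / 4 := by
      have := (fderiv ℝ H s).le_opNorm Complex.I
      rw [Complex.norm_I, mul_one] at this
      exact this.trans (hd s)
    have a1 := abs_le.1 ((Complex.abs_re_le_norm _).trans n1)
    have a2 := abs_le.1 ((Complex.abs_im_le_norm _).trans n1)
    have a3 := abs_le.1 ((Complex.abs_re_le_norm _).trans n2)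
    have a4 := abs_le.1 ((Complex.abs_im_le_norm _).trans n2)
    simp only [ContinuousLinearMap.add_apply, ContinuousLinearMap.coe_id', id_eq, Complex.add_re,
      Complex.add_im, Complex.one_re, Complex.one_im, Complex.I_re, Complex.I_im]
    nlinarith [a1.1, a1.2, a2.1, a2.2, a3.1, a3.2, a4.1, a4.2]
  -- comparison with the boundary lines
  have hcmp : ∀ (σ : ℝ), |σ| = Real.pi / 2 → ∀ s : ℂ, |(T s).im - s.im - 0| ≤ 1 / 4 * |s.im - σ| := by
    intro σ hσ s
    have h1 := hlip s (s.re + σ * Complex.I)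
    have h2 : (H (s.re + σ * Complex.I)).im = 0 := hb _ (by simpa using hσ)
    have h3 : s - (s.re + σ * Complex.I) = ((s.im - σ : ℝ) : ℂ) * Complex.I := by
      apply Complex.ext <;> simp
    rw [h3, norm_mul, Complex.norm_I, mul_one, Complex.norm_real, Real.norm_eq_abs] at h1
    have h4 := (Complex.abs_im_le_norm _).trans h1
    rw [Complex.sub_im, h2, sub_zero] at h4
    rw [hT, Complex.add_im]
    have : s.im + (H s).im - s.im - 0 = (H s).im := by ring
    rw [this]
    exact h4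
  have hpi := Real.pi_pos
  have hup : ∀ s : ℂ, (s.im < Real.pi / 2 → (T s).im < Real.pi / 2) ∧
      (s.im = Real.pi / 2 → (T s).im = Real.pi / 2) ∧
      (Real.pi / 2 < s.im → Real.pi / 2 < (T s).im) := by
    intro s
    have h1 := hcmp (Real.pi / 2) (abs_of_pos (by positivity)) s
    refine ⟨fun h => ?_, fun h => ?_, fun h => ?_⟩
    · rw [abs_of_neg (by linarith : s.im - Real.pi / 2 < 0)] at h1
      have := (abs_le.1 h1).2
      linarith
    · rw [h, sub_self, abs_zero, mul_zero] at h1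
      have := abs_nonpos_iff.1 h1
      linarith
    · rw [abs_of_pos (by linarith : 0 < s.im - Real.pi / 2)] at h1
      have := (abs_le.1 h1).1
      linarith
  have hlo : ∀ s : ℂ, (s.im < -(Real.pi / 2) → (T s).im < -(Real.pi / 2)) ∧
      (s.im = -(Real.pi / 2) → (T s).im = -(Real.pi / 2)) ∧
      (-(Real.pi / 2) < s.im → -(Real.pi / 2) < (T s).im) := by
    intro s
    have h1 := hcmp (-(Real.pi / 2)) (by rw [abs_neg, abs_of_pos (by positivity)]) s
    refine ⟨fun h => ?_, fun h => ?_, fun h => ?_⟩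
    · rw [abs_of_neg (by linarith : s.im - -(Real.pi / 2) < 0)] at h1
      have := (abs_le.1 h1).2
      linarith
    · rw [h, sub_self, abs_zero, mul_zero] at h1
      have := abs_nonpos_iff.1 h1
      linarith
    · rw [abs_of_pos (by linarith : 0 < s.im - -(Real.pi / 2))] at h1
      have := (abs_le.1 h1).1
      linarith
  have habs : ∀ x : ℝ, |x| = Real.pi / 2 ↔ x = Real.pi / 2 ∨ x = -(Real.pi / 2) := fun x =>
    abs_eq (by positivity)
  refine ⟨T, hT, hTs, hTd, ⟨T.continuous, fun s => ?_, fun s hs => ?_, fun s hs => ?_⟩,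
    ⟨T.symm.continuous, fun s => ?_, fun s hs => ?_, fun s hs => ?_⟩⟩
  · rw [hT, add_sub_cancel_left]
    exact hB s
  · rw [abs_lt] at hs ⊢
    exact ⟨(hlo s).2.2 hs.1, (hup s).1 hs.2⟩
  · rw [habs] at hs ⊢
    rcases hs with h | h
    · left; exact (hup s).2.1 h
    · right; exact (hlo s).2.1 h
  · have h1 := hB (T.symm s)
    have h2 := hT (T.symm s)
    rw [T.apply_symm_apply] at h2
    have h3 : T.symm s - s = -H (T.symm s) := by linear_combination -h2
    rw [h3, norm_neg]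
    exact h1
  · rw [abs_lt] at hs ⊢
    have u := hup (T.symm s)
    have l := hlo (T.symm s)
    rw [T.apply_symm_apply] at u l
    constructor
    · by_contra hc
      rcases (not_lt.1 hc).lt_or_eq with h | h
      · linarith [l.1 h]
      · linarith [l.2.1 h]
    · by_contra hc
      rcases (not_lt.1 hc).lt_or_eq with h | h
      · linarith [u.2.2 h]
      · linarith [u.2.1 h.symm]
  · have u := hup (T.symm s)
    have l := hlo (T.symm s)
    rw [T.apply_symm_apply] at u l
    rw [habs] at hs ⊢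
    rcases hs with h | h
    · left
      rcases lt_trichotomy (T.symm s).im (Real.pi / 2) with h1 | h1 | h1
      · linarith [u.1 h1]
      · exact h1
      · linarith [u.2.2 h1]
    · right
      rcases lt_trichotomy (T.symm s).im (-(Real.pi / 2)) with h1 | h1 | h1
      · linarith [l.1 h1]
      · exact h1
      · linarith [l.2.2 h1]

end Pool.Agent.D0H72.AP
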